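import Pool.Agent.Helper24.QTangent.WordT

/-!
# The antipode and the left-handed version
-/

namespace Pool.Agent.Helper24.QTangent

open scoped TensorProduct
open MulOpposite

variable {n : ℕ} {q : ℂ}

theorem K_mul_L' (i j : Fin n) : K n q i * L n q j = L n q j * K n q i := (L_mul_K' j i).symm

/-- The antipode as an algebra homomorphism to the opposite algebra:
`S(E_i) = -E_i K_i⁻¹`, `S(F_i) = -K_i F_i`, `S(K_i) = K_i⁻¹`. -/
noncomputable def antiData (n : ℕ) (q : ℂ) (hq : q ≠ 0) : LiftData n q (U n q)ᵐᵒᵖ where
  e i := op (-(E n q i * L n q i))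
  f i := op (-(K n q i * F n q i))
  k i := op (L n q i)
  l i := op (K n q i)
  kl i := by rw [← op_mul, K_mul_L, op_one]
  lk i := by rw [← op_mul, L_mul_K, op_one]
  kk i j := by rw [← op_mul, ← op_mul, L_mul_L j i]
  ke i j := by
    rw [← op_mul, ← op_mul, ← op_smul]
    congr 1
    rw [mul_neg, neg_mul, smul_neg, ← mul_assoc, L_mul_E hq, smul_mul_assoc, smul_smul,
      zpow_mul_zpow_neg hq, one_smul, mul_assoc, mul_assoc, L_mul_L j i]
  kf i j := by
    rw [← op_mul, ← op_mul, ← op_smul]
    congr 1
    rw [mul_neg, neg_mul, smul_neg, ← mul_assoc, L_mul_K' i j, mul_assoc (K n q j) (L n q i),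
      L_mul_F hq, mul_smul_comm, smul_smul, zpow_neg_mul_zpow hq, one_smul, mul_assoc]
  ef i := by
    rw [← op_mul, ← op_mul, ← op_sub, ← op_sub, ← op_smul]
    congr 1
    have hwt : K n q i * (F n q i * E n q i) = F n q i * E n q i * K n q i := by
      have := ((hasWt_F (q := q) i).mul hq (hasWt_E i)) i
      simpa using this
    have e1 : -(K n q i * F n q i) * -(E n q i * L n q i) = F n q i * E n q i := by
      rw [neg_mul_neg, mul_assoc, ← mul_assoc (F n q i), ← mul_assoc, hwt, mul_assoc, K_mul_L,
        mul_one]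
    have e2 : -(E n q i * L n q i) * -(K n q i * F n q i) = E n q i * F n q i := by
      rw [neg_mul_neg, mul_assoc, ← mul_assoc (L n q i), L_mul_K, one_mul]
    rw [e1, e2, EF_base, smul_sub, smul_sub]
    abel
  efne i j h := by
    rw [← op_mul, ← op_mul]
    congr 1
    rw [neg_mul_neg, neg_mul_neg]
    have e1 : E n q i * K n q j = q ^ (-cartan j i) • (K n q j * E n q i) := by
      rw [K_mul_E, smul_smul, zpow_neg_mul_zpow hq, one_smul]
    calc K n q j * F n q j * (E n q i * L n q i)
        = K n q j * (F n q j * E n q i) * L n q i := by simp only [mul_assoc]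
      _ = K n q j * (E n q i * F n q j) * L n q i := by rw [EF_ne i j h]
      _ = (q ^ cartan i j * q ^ (-cartan j i)) • (K n q j * (E n q i * F n q j) * L n q i) := by
          rw [cartan_comm j i, zpow_mul_zpow_neg hq, one_smul]
      _ = q ^ cartan i j • ((q ^ (-cartan j i) • (K n q j * E n q i)) * F n q j * L n q i) := by
          simp only [smul_mul_assoc, smul_smul, mul_assoc]
      _ = q ^ cartan i j • (E n q i * K n q j * F n q j * L n q i) := by rw [← e1]
      _ = E n q i * K n q j * (q ^ cartan i j • (F n q j * L n q i)) := by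
          simp only [mul_smul_comm, mul_assoc]
      _ = E n q i * L n q i * (K n q j * F n q j) := by
          rw [← L_mul_F hq, mul_assoc, ← mul_assoc (K n q j), K_mul_L' j i]
          simp only [mul_assoc]
  ee i j h := by
    rw [← op_mul, ← op_mul]
    congr 1
    have h' := cartan_comm j i ▸ h
    have e1 : L n q j * E n q i = E n q i * L n q j := by
      rw [L_mul_E hq, h', neg_zero, zpow_zero, one_smul]
    have e2 : L n q i * E n q j = E n q j * L n q i := by
      rw [L_mul_E hq, h, neg_zero, zpow_zero, one_smul]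
    rw [neg_mul_neg, neg_mul_neg, mul_assoc, ← mul_assoc (L n q j), e1, mul_assoc, ← mul_assoc,
      EE_comm j i h', mul_assoc, L_mul_L j i, mul_assoc, ← mul_assoc (L n q i), e2]
    simp only [mul_assoc]
  ff i j h := by
    rw [← op_mul, ← op_mul]
    congr 1
    have h' := cartan_comm j i ▸ h
    have e1 : K n q j * F n q i = F n q i * K n q j := by
      rw [K_mul_F, h', neg_zero, zpow_zero, one_smul]
    have e2 : K n q i * F n q j = F n q j * K n q i := by
      rw [K_mul_F, h, neg_zero, zpow_zero, one_smul]
    rw [neg_mul_neg, neg_mul_neg, mul_assoc, ← mul_assoc (F n q j), ← e2, mul_assoc, FF_comm j i h',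
      ← mul_assoc, K_mul_K j i, mul_assoc, ← mul_assoc (K n q j), e1]
    simp only [mul_assoc]
  se i j h := by
    have h' := cartan_comm j i ▸ h
    apply MulOpposite.unop_injective
    simp only [unop_add, unop_mul, unop_smul, unop_op, neg_mul, mul_neg, neg_neg, smul_neg]
    have e1 : L n q i * E n q i = (q⁻¹ * q⁻¹) • (E n q i * L n q i) := by
      rw [L_mul_E hq, cartan_self, ← mul_inv, ← sq]; norm_cast
    have e2 : L n q i * E n q j = q • (E n q j * L n q i) := by
      rw [L_mul_E hq, h]; norm_num
    have e3 : L n q j * E n q i = q • (E n q i * L n q j) := by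
      rw [L_mul_E hq, h']; norm_num
    have e1' : ∀ s, L n q i * (E n q i * s) = (q⁻¹ * q⁻¹) • (E n q i * (L n q i * s)) :=
      fun s => by rw [← mul_assoc, e1, smul_mul_assoc, mul_assoc]
    have e2' : ∀ s, L n q i * (E n q j * s) = q • (E n q j * (L n q i * s)) :=
      fun s => by rw [← mul_assoc, e2, smul_mul_assoc, mul_assoc]
    have e3' : ∀ s, L n q j * (E n q i * s) = q • (E n q i * (L n q j * s)) :=
      fun s => by rw [← mul_assoc, e3, smul_mul_assoc, mul_assoc]
    have e4 : L n q j * L n q i = L n q i * L n q j := L_mul_L j i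
    have e4' : ∀ s, L n q j * (L n q i * s) = L n q i * (L n q j * s) :=
      fun s => by rw [← mul_assoc, e4, mul_assoc]
    have hs := serreE (q := q) i j h
    simp only [mul_assoc] at hs
    have hs' : ∀ s, E n q i * (E n q i * (E n q j * s)) =
        (q + q⁻¹) • (E n q i * (E n q j * (E n q i * s))) - E n q j * (E n q i * (E n q i * s)) := by
      intro s
      have := congrArg (fun u => u * s) hs
      simp only [add_mul, smul_mul_assoc, mul_assoc] at this
      rw [← this]; abel
    simp only [mul_assoc, e1', e2', e3', e4, e4', mul_smul_comm, smul_smul, hs',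
      smul_sub]
    match_scalars <;> field_simp <;> ring
  sf i j h := by
    have h' := cartan_comm j i ▸ h
    apply MulOpposite.unop_injective
    simp only [unop_add, unop_mul, unop_smul, unop_op, neg_mul, mul_neg, neg_neg, smul_neg]
    have e1 : K n q i * F n q i = (q⁻¹ * q⁻¹) • (F n q i * K n q i) := by
      rw [K_mul_F, cartan_self, ← mul_inv, ← sq]; norm_cast
    have e2 : K n q i * F n q j = q • (F n q j * K n q i) := by
      rw [K_mul_F, h]; norm_num
    have e3 : K n q j * F n q i = q • (F n q i * K n q j) := by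
      rw [K_mul_F, h']; norm_num
    have e1' : ∀ s, K n q i * (F n q i * s) = (q⁻¹ * q⁻¹) • (F n q i * (K n q i * s)) :=
      fun s => by rw [← mul_assoc, e1, smul_mul_assoc, mul_assoc]
    have e2' : ∀ s, K n q i * (F n q j * s) = q • (F n q j * (K n q i * s)) :=
      fun s => by rw [← mul_assoc, e2, smul_mul_assoc, mul_assoc]
    have e3' : ∀ s, K n q j * (F n q i * s) = q • (F n q i * (K n q j * s)) :=
      fun s => by rw [← mul_assoc, e3, smul_mul_assoc, mul_assoc]
    have e4 : K n q j * K n q i = K n q i * K n q j := K_mul_K j i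
    have e4' : ∀ s, K n q j * (K n q i * s) = K n q i * (K n q j * s) :=
      fun s => by rw [← mul_assoc, e4, mul_assoc]
    have hs := serreF (q := q) i j h
    simp only [mul_assoc] at hs
    have hs' : ∀ s, F n q i * (F n q i * (F n q j * s)) =
        (q + q⁻¹) • (F n q i * (F n q j * (F n q i * s))) - F n q j * (F n q i * (F n q i * s)) := by
      intro s
      have := congrArg (fun u => u * s) hs
      simp only [add_mul, smul_mul_assoc, mul_assoc] at this
      rw [← this]; abel
    have e5 : F n q j * (K n q j) = F n q j * K n q j := rfl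
    have e6 : K n q j * F n q j = (q⁻¹ * q⁻¹) • (F n q j * K n q j) := by
      rw [K_mul_F, cartan_self, ← mul_inv, ← sq]; norm_cast
    have e6' : ∀ s, K n q j * (F n q j * s) = (q⁻¹ * q⁻¹) • (F n q j * (K n q j * s)) :=
      fun s => by rw [← mul_assoc, e6, smul_mul_assoc, mul_assoc]
    simp only [mul_assoc]
    simp only [e1, e2, e3, e1', e2', e3', e4, e4', mul_smul_comm, smul_smul, hs',
      smul_sub, mul_sub, e6, e6', mul_assoc]
    match_scalars <;> field_simp <;> ring

/-- The antipode, as a linear map. -/
noncomputable def anti (n : ℕ) (q : ℂ) (hq : q ≠ 0) : U n q →ₗ[ℂ] U n q :=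
  (opLinearEquiv ℂ).symm.toLinearMap ∘ₗ (antiData n q hq).lift.toLinearMap

section

variable (hq : q ≠ 0)

theorem anti_apply (x : U n q) : anti n q hq x = unop ((antiData n q hq).lift x) := rfl

theorem anti_mul (x y : U n q) : anti n q hq (x * y) = anti n q hq y * anti n q hq x := by
  rw [anti_apply, anti_apply, anti_apply, map_mul, unop_mul]

theorem anti_one : anti n q hq 1 = 1 := by
  rw [anti_apply, map_one, unop_one]

theorem anti_E (i : Fin n) : anti n q hq (E n q i) = -(E n q i * L n q i) := by
  rw [anti_apply, LiftData.lift_E]; rfl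

theorem anti_F (i : Fin n) : anti n q hq (F n q i) = -(K n q i * F n q i) := by
  rw [anti_apply, LiftData.lift_F]; rfl

theorem anti_K (i : Fin n) : anti n q hq (K n q i) = L n q i := by
  rw [anti_apply, LiftData.lift_K]; rfl

theorem anti_L (i : Fin n) : anti n q hq (L n q i) = K n q i := by
  rw [anti_apply, LiftData.lift_L]; rfl

theorem comul_F (i : Fin n) :
    comul n q hq (F n q i) = F n q i ⊗ₜ 1 + L n q i ⊗ₜ F n q i := by
  simp [comul, comulData]

theorem comul_K (i : Fin n) : comul n q hq (K n q i) = K n q i ⊗ₜ K n q i := by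
  simp [comul, comulData]

theorem comul_L (i : Fin n) : comul n q hq (L n q i) = L n q i ⊗ₜ L n q i := by
  simp [comul, comulData]

/-- `S ⊗ S` composed with the flip. -/
noncomputable def antiFlip : U n q ⊗[ℂ] U n q →ₗ[ℂ] U n q ⊗[ℂ] U n q :=
  TensorProduct.map (anti n q hq) (anti n q hq) ∘ₗ (TensorProduct.comm ℂ (U n q) (U n q)).toLinearMap

theorem antiFlip_tmul (x y : U n q) :
    antiFlip hq (x ⊗ₜ y) = anti n q hq y ⊗ₜ anti n q hq x := by
  simp [antiFlip]

theorem antiFlip_mul (s t : U n q ⊗[ℂ] U n q) :
    antiFlip hq (s * t) = antiFlip hq t * antiFlip hq s := by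
  induction s using TensorProduct.induction_on with
  | zero => simp
  | add s s' hs hs' => rw [add_mul, map_add, hs, hs', map_add, mul_add]
  | tmul a b =>
    induction t using TensorProduct.induction_on with
    | zero => simp
    | add t t' ht ht' => rw [mul_add, map_add, ht, ht', map_add, add_mul]
    | tmul c d =>
      rw [Algebra.TensorProduct.tmul_mul_tmul, antiFlip_tmul, antiFlip_tmul, antiFlip_tmul,
        Algebra.TensorProduct.tmul_mul_tmul, anti_mul, anti_mul]

/-- `Δ ∘ S = (S ⊗ S) ∘ flip ∘ Δ`. -/
theorem comul_anti (x : U n q) : comul n q hq (anti n q hq x) = antiFlip hq (comul n q hq x) := by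
  let A1 : U n q →ₐ[ℂ] (U n q ⊗[ℂ] U n q)ᵐᵒᵖ :=
    (AlgHom.op (comul n q hq)).comp (antiData n q hq).lift
  let A2 : U n q →ₐ[ℂ] (U n q ⊗[ℂ] U n q)ᵐᵒᵖ :=
    AlgHom.ofLinearMap
      ((opLinearEquiv ℂ).toLinearMap ∘ₗ antiFlip hq ∘ₗ (comul n q hq).toLinearMap)
      (by
        change op (antiFlip hq (comul n q hq 1)) = 1
        rw [map_one, Algebra.TensorProduct.one_def, antiFlip_tmul, anti_one]; rfl)
      (by
        intro x y
        change op (antiFlip hq (comul n q hq (x * y))) =
          op (antiFlip hq (comul n q hq x)) * op (antiFlip hq (comul n q hq y))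
        rw [map_mul, antiFlip_mul, op_mul])
  have hA1 : ∀ x, A1 x = op (comul n q hq (anti n q hq x)) := fun x => rfl
  have hA2 : ∀ x, A2 x = op (antiFlip hq (comul n q hq x)) := fun x => rfl
  have h : A1 = A2 := by
    apply hom_ext
    · intro i
      rw [hA1, hA2, anti_E, map_neg, map_mul, comul_E, comul_L, map_add, antiFlip_tmul,
        antiFlip_tmul, anti_K, anti_one, anti_E, add_mul, Algebra.TensorProduct.tmul_mul_tmul,
        Algebra.TensorProduct.tmul_mul_tmul, K_mul_L, one_mul, TensorProduct.tmul_neg,
        TensorProduct.neg_tmul]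
      congr 1; abel
    · intro i
      rw [hA1, hA2, anti_F, map_neg, map_mul, comul_F, comul_K, map_add, antiFlip_tmul,
        antiFlip_tmul, anti_L, anti_one, anti_F, mul_add, Algebra.TensorProduct.tmul_mul_tmul,
        Algebra.TensorProduct.tmul_mul_tmul, K_mul_L, mul_one, TensorProduct.tmul_neg,
        TensorProduct.neg_tmul]
      congr 1; abel
    · intro i
      rw [hA1, hA2, anti_K, comul_L, comul_K, antiFlip_tmul, anti_K]
    · intro i
      rw [hA1, hA2, anti_L, comul_L, comul_K, antiFlip_tmul, anti_L]
  have := DFunLike.congr_fun h x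
  rw [hA1, hA2] at this
  exact op_injective this

end

end Pool.Agent.Helper24.QTangent
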