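import Mathlib

/-!
# Quantum tangent spaces from reduced words of `w₀`: the definitions used in the statement

`U_q(sl_{n+1})` is characterised by its generators and relations; the coproduct, the counit and
Lusztig's automorphisms are characterised by their values on the generators.  `L i` always stands
for the inverse of `K i`.  A word is a list of letters in `Fin n`; the letter `i` is the simple
reflection exchanging `i` and `i + 1` in `{0, …, n}`.
-/

namespace Pool.Agent.Helper24.QTangent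

open scoped TensorProduct

/-- The Cartan matrix of type `A_n`. -/
def cartan {n : ℕ} (i j : Fin n) : ℤ :=
  if i = j then 2 else if (i : ℕ) + 1 = j ∨ (j : ℕ) + 1 = i then -1 else 0

/-- The defining relations of `U_q(sl_{n+1})`. -/
structure UqRelations {n : ℕ} (q : ℂ) {A : Type} [Ring A] [Algebra ℂ A] (E F K L : Fin n → A) :
    Prop where
  kl : ∀ i, K i * L i = 1
  lk : ∀ i, L i * K i = 1
  kk : ∀ i j, K i * K j = K j * K i
  ke : ∀ i j, K i * E j = q ^ (cartan i j) • (E j * K i)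
  kf : ∀ i j, K i * F j = q ^ (-cartan i j) • (F j * K i)
  ef : ∀ i, E i * F i - F i * E i = (q - q⁻¹)⁻¹ • (K i - L i)
  efne : ∀ i j, i ≠ j → E i * F j = F j * E i
  ee : ∀ i j, cartan i j = 0 → E i * E j = E j * E i
  ff : ∀ i j, cartan i j = 0 → F i * F j = F j * F i
  se : ∀ i j, cartan i j = -1 → E i * E i * E j + E j * E i * E i = (q + q⁻¹) • (E i * E j * E i)
  sf : ∀ i j, cartan i j = -1 → F i * F i * F j + F j * F i * F i = (q + q⁻¹) • (F i * F j * F i)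

/-- `U` with the elements `E_i, F_i, K_i, K_i⁻¹` is `U_q(sl_{n+1})`: the relations hold, and `U`
is universal among algebras with elements satisfying them. -/
def IsUq {n : ℕ} (q : ℂ) {U : Type} [Ring U] [Algebra ℂ U] (E F K L : Fin n → U) : Prop :=
  UqRelations q E F K L ∧
    ∀ (A : Type) [Ring A] [Algebra ℂ A] (e f k l : Fin n → A), UqRelations q e f k l →
      ∃! φ : U →ₐ[ℂ] A, ∀ i, φ (E i) = e i ∧ φ (F i) = f i ∧ φ (K i) = k i ∧ φ (L i) = l i

section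

variable {n : ℕ} {U : Type} [Ring U] [Algebra ℂ U]

/-- The coproduct: `Δ(E_i) = E_i ⊗ K_i + 1 ⊗ E_i`, `Δ(F_i) = F_i ⊗ 1 + K_i⁻¹ ⊗ F_i`,
`Δ(K_i) = K_i ⊗ K_i`. -/
def IsComul (E F K L : Fin n → U) (Δ : U →ₐ[ℂ] U ⊗[ℂ] U) : Prop :=
  ∀ i, Δ (E i) = E i ⊗ₜ K i + 1 ⊗ₜ E i ∧ Δ (F i) = F i ⊗ₜ 1 + L i ⊗ₜ F i ∧
    Δ (K i) = K i ⊗ₜ K i

/-- The counit. -/
def IsCounit (E F K : Fin n → U) (ε : U →ₐ[ℂ] ℂ) : Prop :=
  ∀ i, ε (E i) = 0 ∧ ε (F i) = 0 ∧ ε (K i) = 1

/-- Lusztig's braid automorphisms `T_i`. -/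
def IsLusztig (q : ℂ) (E F K L : Fin n → U) (T : Fin n → U →ₐ[ℂ] U) : Prop :=
  ∀ i j,
    (j = i → T i (E j) = -(F i * K i) ∧ T i (F j) = -(L i * E i) ∧ T i (K j) = L i) ∧
    (cartan i j = -1 → T i (E j) = -(E i * E j - q⁻¹ • (E j * E i)) ∧
      T i (F j) = -(F j * F i - q • (F i * F j)) ∧ T i (K j) = K j * K i) ∧
    (cartan i j = 0 → T i (E j) = E j ∧ T i (F j) = F j ∧ T i (K j) = K j)

/-- `U` is `U_q(sl_{n+1})`, `Δ` and `ε` are its coproduct and counit, and `T` are Lusztig's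
automorphisms. -/
def IsQuantumGroup (q : ℂ) (E F K L : Fin n → U) (Δ : U →ₐ[ℂ] U ⊗[ℂ] U) (ε : U →ₐ[ℂ] ℂ)
    (T : Fin n → U →ₐ[ℂ] U) : Prop :=
  IsUq q E F K L ∧ IsComul E F K L Δ ∧ IsCounit E F K ε ∧ IsLusztig q E F K L T

/-- `T ⊕ ℂ 1`. -/
def withOne (T : Submodule ℂ U) : Submodule ℂ U := T ⊔ Submodule.span ℂ {1}

/-- Right tangent spaces: `ε(T) = 0` and `Δ(T ⊕ ℂ1) ⊆ (T ⊕ ℂ1) ⊗ U`. -/
def RightTangent (Δ : U →ₐ[ℂ] U ⊗[ℂ] U) (ε : U →ₐ[ℂ] ℂ) (T : Submodule ℂ U) : Prop :=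
  (∀ x ∈ T, ε x = 0) ∧ ∀ x ∈ withOne T,
    Δ x ∈ Submodule.span ℂ {t : U ⊗[ℂ] U | ∃ y ∈ withOne T, ∃ z : U, t = y ⊗ₜ[ℂ] z}

/-- Left tangent spaces: `ε(T) = 0` and `Δ(T ⊕ ℂ1) ⊆ U ⊗ (T ⊕ ℂ1)`. -/
def LeftTangent (Δ : U →ₐ[ℂ] U ⊗[ℂ] U) (ε : U →ₐ[ℂ] ℂ) (T : Submodule ℂ U) : Prop :=
  (∀ x ∈ T, ε x = 0) ∧ ∀ x ∈ withOne T,
    Δ x ∈ Submodule.span ℂ {t : U ⊗[ℂ] U | ∃ y : U, ∃ z ∈ withOne T, t = y ⊗ₜ[ℂ] z}

end

/-! ### Words -/

variable {n : ℕ}

/-- The adjacent transposition `(i, i+1)`. -/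
def sw (i : ℕ) : Equiv.Perm ℕ := Equiv.swap i (i + 1)

/-- The permutation `π = s_{i_1} ⋯ s_{i_k}` given by a word (it moves only `0, …, n`). -/
def pm (w : List (Fin n)) : Equiv.Perm ℕ := (w.map fun i => sw (i : ℕ)).prod

/-- `w` is a reduced word of the longest element `w₀` of `S_{n+1}`. -/
structure IsW0 (w : List (Fin n)) : Prop where
  length_eq : w.length = n * (n + 1) / 2
  perm_eq : ∀ x ≤ n, pm w x = n - x

/-- In the arrangement swept out by the word, the line `x` is at position `(pm u)⁻¹ x` after the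
initial segment `u`; the lines `x < y` have crossed after `u`. -/
def Crossed (u : List (Fin n)) (x y : ℕ) : Prop := (pm u)⁻¹ y < (pm u)⁻¹ x

/-- The triangle `x < y < z` is positive: the lines `x, y` cross before the lines `y, z`. -/
def Pos (w : List (Fin n)) (x y z : ℕ) : Prop :=
  ∃ u : List (Fin n), u <+: w ∧ Crossed u x y ∧ ¬ Crossed u y z

/-- Every interval `a, …, b` of lines splits at some `m` such that the triangles with two lines
`≤ m` and one line `> m` are positive and those with one line `≤ m` and two lines `> m` are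
negative. -/
def SplitRight (w : List (Fin n)) : Prop :=
  ∀ a b : ℕ, a < b → b ≤ n → ∃ m : ℕ, a ≤ m ∧ m < b ∧
    ∀ x y z : ℕ, a ≤ x → x < y → y < z → z ≤ b →
      (y ≤ m → m < z → Pos w x y z) ∧ (x ≤ m → m < y → ¬ Pos w x y z)

/-- The same with the signs exchanged. -/
def SplitLeft (w : List (Fin n)) : Prop :=
  ∀ a b : ℕ, a < b → b ≤ n → ∃ m : ℕ, a ≤ m ∧ m < b ∧
    ∀ x y z : ℕ, a ≤ x → x < y → y < z → z ≤ b →
      (y ≤ m → m < z → ¬ Pos w x y z) ∧ (x ≤ m → m < y → Pos w x y z)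

/-- All triangles of the arrangement have the same sign. -/
def OneSign (w : List (Fin n)) : Prop :=
  (∀ x y z : ℕ, x < y → y < z → z ≤ n → Pos w x y z) ∨
    (∀ x y z : ℕ, x < y → y < z → z ≤ n → ¬ Pos w x y z)

/-- Exchanging two neighbouring letters that are not adjacent. -/
def CommStep (w w' : List (Fin n)) : Prop :=
  ∃ (u v : List (Fin n)) (i j : Fin n), ((i : ℕ) + 1 < j ∨ (j : ℕ) + 1 < i) ∧
    w = u ++ i :: j :: v ∧ w' = u ++ j :: i :: v

/-- The commutation classes of reduced words of `w₀`. -/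
def CommClass (n : ℕ) : Type :=
  Quot fun w w' : {w : List (Fin n) // IsW0 w} => CommStep w.1 w'.1

/-- The number of commutation classes of reduced words of `w₀` containing a word with `P`. -/
noncomputable def classCount (P : List (Fin n) → Prop) : ℕ :=
  Set.ncard {c : CommClass n | ∃ w : {w : List (Fin n) // IsW0 w}, Quot.mk _ w = c ∧ P w.1}

/-- The root vector `T_{i_1} ⋯ T_{i_{k-1}} (E_{i_k})`, where `u = i_1 ⋯ i_{k-1}`, `i = i_k`. -/
def rootVector {U : Type} [Ring U] [Algebra ℂ U] (E : Fin n → U) (T : Fin n → U →ₐ[ℂ] U)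
    (u : List (Fin n)) (i : Fin n) : U :=
  u.foldr (fun j x => T j x) (E i)

/-- `n⁺_w`: the span of the root vectors of the word `w`. -/
def posPart {U : Type} [Ring U] [Algebra ℂ U] (E : Fin n → U) (T : Fin n → U →ₐ[ℂ] U)
    (w : List (Fin n)) : Submodule ℂ U :=
  Submodule.span ℂ {x | ∃ (u : List (Fin n)) (i : Fin n) (v : List (Fin n)), w = u ++ i :: v ∧
    x = rootVector E T u i}

/-- `K_β⁻¹ = K_a⁻¹ K_{a+1}⁻¹ ⋯ K_{b-1}⁻¹` for the root `β = α_a + ⋯ + α_{b-1}`. -/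
def rootInv {U : Type} [Ring U] (L : Fin n → U) (a b : ℕ) : U :=
  ((List.range' a (b - a)).map fun j => if h : j < n then L ⟨j, h⟩ else 1).prod

/-- The span of the `E_β K_β⁻¹`; the root of the letter `i` after `u` is `α_a + ⋯ + α_{b-1}`
with `a = π(i)`, `b = π(i+1)`, `π = pm u`. -/
def posPartK {U : Type} [Ring U] [Algebra ℂ U] (E L : Fin n → U) (T : Fin n → U →ₐ[ℂ] U)
    (w : List (Fin n)) : Submodule ℂ U :=
  Submodule.span ℂ {x | ∃ (u : List (Fin n)) (i : Fin n) (v : List (Fin n)), w = u ++ i :: v ∧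
    x = rootVector E T u i * rootInv L (pm u (i : ℕ)) (pm u ((i : ℕ) + 1))}

end Pool.Agent.Helper24.QTangent
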