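import Mathlib

/-!
# `q`-commutators and quantum Serre relations

General identities in an associative algebra, used to construct Lusztig's braid automorphisms
and to compute with root vectors.
-/

namespace Pool.Agent.Helper24.QTangent

variable {R : Type*} [Ring R] [Algebra ℂ R] {q : ℂ}

/-- The `q`-commutator `x y - q⁻¹ y x`. -/
noncomputable def cm (q : ℂ) (x y : R) : R := x * y - q⁻¹ • (y * x)

/-- The quantum Serre relation. -/
def Serre (q : ℂ) (x y : R) : Prop := x * x * y + y * x * x = (q + q⁻¹) • (x * y * x)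

theorem cm_left (hq : q ≠ 0) {x y : R} (h : Serre q x y) : x * cm q x y = q • (cm q x y * x) := by
  unfold Serre at h
  have h' : x * (x * y) = (q + q⁻¹) • (x * (y * x)) - y * (x * x) := by
    simp only [mul_assoc] at h; rw [← h]; abel
  simp only [cm, mul_sub, sub_mul, smul_sub, mul_assoc, smul_mul_assoc, mul_smul_comm, smul_smul, h']
  match_scalars <;> field_simp <;> ring

theorem cm_right (hq : q ≠ 0) {x y : R} (h : Serre q y x) : cm q x y * y = q • (y * cm q x y) := by
  unfold Serre at h
  have h' : y * (y * x) = (q + q⁻¹) • (y * (x * y)) - x * (y * y) := by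
    simp only [mul_assoc] at h; rw [← h]; abel
  simp only [cm, mul_sub, sub_mul, smul_sub, mul_assoc, smul_mul_assoc, mul_smul_comm, smul_smul, h']
  match_scalars <;> field_simp <;> ring

theorem serre_zero {x y : R} (h : Serre q x y) :
    x * x * y + y * x * x - (q + q⁻¹) • (x * y * x) = 0 := by
  rw [h, sub_self]

theorem two_ne (hq : q ≠ 0) (hq2 : q ^ 2 + 1 ≠ 0) : q + q⁻¹ ≠ 0 := by
  have : q + q⁻¹ = (q ^ 2 + 1) * q⁻¹ := by field_simp
  rw [this]
  exact mul_ne_zero hq2 (inv_ne_zero hq)

/-- The middle letter commutes with the long `q`-commutator. -/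
theorem mid_comm (hq : q ≠ 0) (hq2 : q ^ 2 + 1 ≠ 0) {x y t : R} (hxt : t * x = x * t)
    (h1 : Serre q y x) (h2 : Serre q y t) :
    y * cm q x (cm q y t) = cm q x (cm q y t) * y := by
  have hxt' : ∀ s, t * (x * s) = x * (t * s) := fun s => by rw [← mul_assoc, hxt, mul_assoc]
  have key : (q + q⁻¹) • (y * cm q x (cm q y t) - cm q x (cm q y t) * y) =
      -((y * y * x + x * y * y - (q + q⁻¹) • (y * x * y)) * t)
      + (q⁻¹ * q⁻¹) • (t * (y * y * x + x * y * y - (q + q⁻¹) • (y * x * y)))
      - (q⁻¹ * q⁻¹) • ((y * y * t + t * y * y - (q + q⁻¹) • (y * t * y)) * x)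
      + x * (y * y * t + t * y * y - (q + q⁻¹) • (y * t * y)) := by
    simp only [cm, mul_sub, sub_mul, smul_sub, mul_add, add_mul, smul_add, mul_assoc,
      smul_mul_assoc, mul_smul_comm, smul_smul, hxt, hxt']
    match_scalars <;> field_simp <;> ring
  rw [serre_zero h1, serre_zero h2] at key
  simp only [zero_mul, mul_zero, smul_zero, neg_zero, add_zero, sub_zero] at key
  have := (smul_eq_zero.mp key).resolve_left (two_ne hq hq2)
  exact sub_eq_zero.mp this

theorem comm_cm_cm (hq : q ≠ 0) (hq2 : q ^ 2 + 1 ≠ 0) {x y t : R} (hxt : t * x = x * t)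
    (h1 : Serre q y x) (h2 : Serre q y t) :
    cm q y x * cm q y t = cm q y t * cm q y x := by
  have hxt' : ∀ s, t * (x * s) = x * (t * s) := fun s => by rw [← mul_assoc, hxt, mul_assoc]
  have key : (q + q⁻¹) • (cm q y x * cm q y t - cm q y t * cm q y x) =
      -((y * y * x + x * y * y - (q + q⁻¹) • (y * x * y)) * t)
      + (q⁻¹ * q⁻¹) • (t * (y * y * x + x * y * y - (q + q⁻¹) • (y * x * y)))
      + ((y * y * t + t * y * y - (q + q⁻¹) • (y * t * y)) * x)
      - (q⁻¹ * q⁻¹) • (x * (y * y * t + t * y * y - (q + q⁻¹) • (y * t * y))) := by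
    simp only [cm, mul_sub, sub_mul, smul_sub, mul_add, add_mul, smul_add, mul_assoc,
      smul_mul_assoc, mul_smul_comm, smul_smul, hxt, hxt']
    match_scalars <;> field_simp <;> ring
  rw [serre_zero h1, serre_zero h2] at key
  simp only [zero_mul, mul_zero, smul_zero, neg_zero, add_zero, sub_zero] at key
  have := (smul_eq_zero.mp key).resolve_left (two_ne hq hq2)
  exact sub_eq_zero.mp this

/-- Serre relation between a `q`-commutator and a far letter adjacent to the second one. -/
theorem serre_cm (hq : q ≠ 0) (hq2 : q ^ 2 + 1 ≠ 0) {x y t : R} (hxt : t * x = x * t)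
    (h0 : Serre q x y) (h1 : Serre q y x) (h2 : Serre q y t) :
    Serre q (cm q x y) t := by
  set z := cm q x y with hz
  set v := cm q x (cm q y t) with hv
  have hxt' : ∀ s, t * (x * s) = x * (t * s) := fun s => by rw [← mul_assoc, hxt, mul_assoc]
  have hvz : v = cm q z t := by
    rw [hv, hz]
    simp only [cm, mul_sub, sub_mul, smul_sub, mul_assoc, smul_mul_assoc, mul_smul_comm,
      smul_smul, hxt, hxt']
    match_scalars <;> field_simp
  have hyv : y * v = v * y := mid_comm hq hq2 hxt h1 h2
  have hxw : Serre q x (cm q y t) := by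
    have key : x * x * cm q y t + cm q y t * x * x - (q + q⁻¹) • (x * cm q y t * x) =
        (x * x * y + y * x * x - (q + q⁻¹) • (x * y * x)) * t
        - q⁻¹ • (t * (x * x * y + y * x * x - (q + q⁻¹) • (x * y * x))) := by
      simp only [cm, mul_sub, sub_mul, smul_sub, mul_add, add_mul, smul_add, mul_assoc,
        smul_mul_assoc, mul_smul_comm, smul_smul, hxt, hxt']
      match_scalars <;> field_simp
    rw [serre_zero h0] at key
    simp only [zero_mul, mul_zero, smul_zero, sub_zero] at key
    exact sub_eq_zero.mp key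
  have hxv : x * v = q • (v * x) := cm_left hq hxw
  have hzv : z * v = q • (v * z) := by
    have e1 : x * y * v = q • (v * (x * y)) := by
      rw [mul_assoc, hyv, ← mul_assoc, hxv, smul_mul_assoc, mul_assoc]
    have e2 : y * x * v = q • (v * (y * x)) := by
      rw [mul_assoc, hxv, mul_smul_comm, ← mul_assoc, hyv, mul_assoc]
    rw [hz, cm, sub_mul, e1, smul_mul_assoc, e2, mul_sub, mul_smul_comm, smul_sub, smul_comm]
  rw [hvz] at hzv
  unfold Serre
  simp only [cm, mul_sub, sub_mul, smul_sub, mul_assoc, smul_mul_assoc, mul_smul_comm,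
      smul_smul] at hzv
  have : z * (z * t) = q • ((z * (t * z))) - (q * q⁻¹) • (t * (z * z)) + q⁻¹ • (z * (t * z)) := by
    rw [← hzv]; abel
  simp only [mul_assoc]
  rw [this]
  match_scalars <;> field_simp <;> ring

theorem serre_cm' (hq : q ≠ 0) {x y t : R} (hxt : t * x = x * t) (h : Serre q t y) :
    Serre q t (cm q x y) := by
  have hxt' : ∀ s, t * (x * s) = x * (t * s) := fun s => by rw [← mul_assoc, hxt, mul_assoc]
  unfold Serre at h ⊢
  have h' : t * (t * y) = (q + q⁻¹) • (t * (y * t)) - y * (t * t) := by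
    simp only [mul_assoc] at h; rw [← h]; abel
  have h'' : ∀ s, t * (t * (y * s)) = (q + q⁻¹) • (t * (y * (t * s))) - y * (t * (t * s)) := by
    intro s
    have := congrArg (fun u => u * s) h'
    simpa only [mul_assoc, sub_mul, smul_mul_assoc] using this
  simp only [cm, mul_sub, sub_mul, smul_sub, mul_assoc, smul_mul_assoc, mul_smul_comm,
      smul_smul, hxt, hxt', h', h'', mul_add, add_mul]
  match_scalars <;> field_simp <;> ring

/-- A criterion for the Serre relation. -/
theorem serre_of_qcomm (hq : q ≠ 0) {x z g : R} (h : x * z = q • (z * x) + g)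
    (hg : x * g = q⁻¹ • (g * x)) : Serre q x z := by
  unfold Serre
  have h1 : x * x * z = q • (x * z * x) + q⁻¹ • (g * x) := by
    have e : x * (x * z) = x * (q • (z * x) + g) := by rw [h]
    rw [mul_assoc, e, mul_add, mul_smul_comm, hg, ← mul_assoc]
  have h2 : z * x * x = q⁻¹ • (x * z * x - g * x) := by
    rw [h, add_mul, smul_mul_assoc, add_sub_cancel_right, smul_smul, inv_mul_cancel₀ hq, one_smul]
  rw [h1, h2]
  match_scalars <;> ring

/-- Another criterion for the Serre relation. -/
theorem serre_of_qcomm' (hq : q ≠ 0) {x z g : R} (h : x * z = q • (z * x) + g)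
    (hg : z * g = q • (g * z)) : Serre q z x := by
  unfold Serre
  have h1 : z * z * x = q⁻¹ • (z * x * z) - g * z := by
    have e : z * (x * z) = q • (z * z * x) + q • (g * z) := by
      rw [h, mul_add, mul_smul_comm, hg, ← mul_assoc]
    rw [mul_assoc z x z, e, smul_add, smul_smul, smul_smul, inv_mul_cancel₀ hq, one_smul,
      one_smul, add_sub_cancel_right]
  have h2 : x * z * z = q • (z * x * z) + g * z := by
    rw [h, add_mul, smul_mul_assoc]
  rw [h1, h2]
  match_scalars <;> ring

theorem cm_smul_left (c : ℂ) (x y : R) : cm q (c • x) y = c • cm q x y := by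
  simp only [cm, smul_mul_assoc, mul_smul_comm, smul_sub, smul_comm c]

theorem cm_smul_right (c : ℂ) (x y : R) : cm q x (c • y) = c • cm q x y := by
  simp only [cm, smul_mul_assoc, mul_smul_comm, smul_sub, smul_comm c]

theorem cm_neg_left (x y : R) : cm q (-x) y = -cm q x y := by
  simp only [cm, neg_mul, mul_neg, smul_neg, neg_sub]; abel

theorem cm_neg_right (x y : R) : cm q x (-y) = -cm q x y := by
  simp only [cm, neg_mul, mul_neg, smul_neg, neg_sub]; abel

theorem serre_smul {x y : R} (h : Serre q x y) (c d : ℂ) : Serre q (c • x) (d • y) := by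
  unfold Serre at h ⊢
  have e : c • x * c • x * d • y + d • y * c • x * c • x =
      (c * c * d) • (x * x * y + y * x * x) := by
    simp only [smul_mul_assoc, mul_smul_comm, smul_smul, smul_add]
    congr 2 <;> ring
  rw [e, h]
  simp only [smul_mul_assoc, mul_smul_comm, smul_smul]
  congr 1; ring

theorem serre_neg_left {x y : R} (h : Serre q x y) : Serre q (-x) y := by
  have := serre_smul h (-1) 1; simpa using this

theorem serre_neg_right {x y : R} (h : Serre q x y) : Serre q x (-y) := by
  have := serre_smul h 1 (-1); simpa using this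

theorem comm_cm {x y t : R} (hx : x * t = t * x) (hy : y * t = t * y) :
    cm q x y * t = t * cm q x y := by
  simp only [cm, sub_mul, mul_sub, smul_mul_assoc, mul_smul_comm]
  rw [mul_assoc x y t, hy, ← mul_assoc x t y, hx, mul_assoc t x y, mul_assoc y x t, hx,
    ← mul_assoc y t x, hy, mul_assoc t y x]

/-- The four associativity rules of `q`-commutators. -/
theorem cm_cm_assoc (x y t : R) (hxt : t * x = x * t) :
    cm q (cm q x y) t = cm q x (cm q y t) := by
  have hxt' : ∀ s, t * (x * s) = x * (t * s) := fun s => by rw [← mul_assoc, hxt, mul_assoc]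
  simp only [cm, mul_sub, sub_mul, smul_sub, mul_assoc, smul_mul_assoc, mul_smul_comm,
      smul_smul, hxt, hxt']
  abel

theorem cm_cm_swap (x y t : R) (hxt : t * x = x * t) :
    cm q (cm q y x) t = cm q (cm q y t) x := by
  have hxt' : ∀ s, t * (x * s) = x * (t * s) := fun s => by rw [← mul_assoc, hxt, mul_assoc]
  simp only [cm, mul_sub, sub_mul, smul_sub, mul_assoc, smul_mul_assoc, mul_smul_comm,
      smul_smul, hxt, hxt']
  abel

theorem cm_cm_swap' (x y t : R) (hxt : t * x = x * t) :
    cm q t (cm q x y) = cm q x (cm q t y) := by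
  have hxt' : ∀ s, t * (x * s) = x * (t * s) := fun s => by rw [← mul_assoc, hxt, mul_assoc]
  simp only [cm, mul_sub, sub_mul, smul_sub, mul_assoc, smul_mul_assoc, mul_smul_comm,
      smul_smul, hxt, hxt']
  abel

end Pool.Agent.Helper24.QTangent
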