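import Pool.Agent.Helper24.QTangent.Defs
import Pool.Agent.Helper24.QTangent.QComm

/-!
# Lusztig's braid automorphisms of `U_q(sl_{n+1})`
-/

namespace Pool.Agent.Helper24.QTangent

variable {n : ℕ} {q : ℂ}

/-- `x` has weight `μ`: `K_c x = q ^ (μ c) x K_c` for all `c`. -/
def HasWt (x : U n q) (μ : Fin n → ℤ) : Prop :=
  ∀ c, K n q c * x = q ^ (μ c) • (x * K n q c)

theorem hasWt_E (i : Fin n) : HasWt (E n q i) (fun c => cartan c i) := fun c => K_mul_E c i

theorem hasWt_F (i : Fin n) : HasWt (F n q i) (fun c => -cartan c i) := fun c => K_mul_F c i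

theorem hasWt_K (i : Fin n) : HasWt (K n q i) 0 := fun c => by
  simp [K_mul_K c i]

theorem hasWt_L (i : Fin n) : HasWt (L n q i) 0 := fun c => by
  simp [L_mul_K' i c]

theorem hasWt_one : HasWt (1 : U n q) 0 := fun c => by simp

theorem HasWt.mul (hq : q ≠ 0) {x y : U n q} {μ ν : Fin n → ℤ} (hx : HasWt x μ)
    (hy : HasWt y ν) : HasWt (x * y) (μ + ν) := fun c => by
  rw [← mul_assoc, hx c, smul_mul_assoc, mul_assoc, hy c, mul_smul_comm, smul_smul, Pi.add_apply,
    zpow_add₀ hq, mul_assoc]

theorem HasWt.add {x y : U n q} {μ : Fin n → ℤ} (hx : HasWt x μ) (hy : HasWt y μ) :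
    HasWt (x + y) μ := fun c => by
  rw [mul_add, hx c, hy c, add_mul, smul_add]

theorem HasWt.smul {x : U n q} {μ : Fin n → ℤ} (hx : HasWt x μ) (a : ℂ) :
    HasWt (a • x) μ := fun c => by
  rw [mul_smul_comm, hx c, smul_mul_assoc, smul_comm]

theorem HasWt.neg {x : U n q} {μ : Fin n → ℤ} (hx : HasWt x μ) : HasWt (-x) μ := by
  have := hx.smul (-1); simpa using this

theorem HasWt.sub {x y : U n q} {μ : Fin n → ℤ} (hx : HasWt x μ) (hy : HasWt y μ) :
    HasWt (x - y) μ := by
  rw [sub_eq_add_neg]; exact hx.add hy.neg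

theorem HasWt.cm (hq : q ≠ 0) {x y : U n q} {μ ν : Fin n → ℤ} (hx : HasWt x μ)
    (hy : HasWt y ν) : HasWt (cm q x y) (μ + ν) := by
  have h2 := (hy.mul hq hx).smul q⁻¹
  rw [add_comm] at h2
  exact (hx.mul hq hy).sub h2

theorem HasWt.L (hq : q ≠ 0) {x : U n q} {μ : Fin n → ℤ} (hx : HasWt x μ) (c : Fin n) :
    L n q c * x = q ^ (-(μ c)) • (x * L n q c) :=
  inv_comm (K_mul_L c) (L_mul_K c) (zpow_neg_mul_zpow hq _) (hx c)

theorem cartan_cases (i j : Fin n) :
    j = i ∨ (j ≠ i ∧ cartan i j = -1) ∨ (j ≠ i ∧ cartan i j = 0) := by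
  unfold cartan
  by_cases h : j = i
  · left; exact h
  · right
    have h' : ¬ i = j := fun e => h e.symm
    by_cases h2 : (i : ℕ) + 1 = j ∨ (j : ℕ) + 1 = i
    · left; simp [h, h', h2]
    · right; simp [h, h', h2]

theorem cartan_adj_adj {i a b : Fin n} (ha : cartan i a = -1) (hb : cartan i b = -1)
    (hab : a ≠ b) : cartan a b = 0 := by
  unfold cartan at *
  have h1 : ¬ i = a := by rintro rfl; simp at ha
  have h2 : ¬ i = b := by rintro rfl; simp at hb
  rw [if_neg h1] at ha
  rw [if_neg h2] at hb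
  rw [if_neg hab]
  split_ifs at ha hb ⊢ with h3 h4 h5
  · exfalso
    apply hab
    apply Fin.ext
    omega
  · rfl

/-- Image of `E_j` under `T_i`. -/
noncomputable def tE (i j : Fin n) : U n q :=
  if j = i then -(F n q i * K n q i)
  else if cartan i j = -1 then -(E n q i * E n q j - q⁻¹ • (E n q j * E n q i))
  else E n q j

/-- Image of `F_j` under `T_i`. -/
noncomputable def tF (i j : Fin n) : U n q :=
  if j = i then -(L n q i * E n q i)
  else if cartan i j = -1 then -(F n q j * F n q i - q • (F n q i * F n q j))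
  else F n q j

/-- Image of `K_j` under `T_i`. -/
noncomputable def tK (i j : Fin n) : U n q :=
  if j = i then L n q i
  else if cartan i j = -1 then K n q j * K n q i
  else K n q j

/-- Image of `K_j⁻¹` under `T_i`. -/
noncomputable def tL (i j : Fin n) : U n q :=
  if j = i then K n q i
  else if cartan i j = -1 then L n q j * L n q i
  else L n q j

theorem tE_self (i : Fin n) : (tE i i : U n q) = -(F n q i * K n q i) := by simp [tE]
theorem tF_self (i : Fin n) : (tF i i : U n q) = -(L n q i * E n q i) := by simp [tF]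
theorem tK_self (i : Fin n) : (tK i i : U n q) = L n q i := by simp [tK]
theorem tL_self (i : Fin n) : (tL i i : U n q) = K n q i := by simp [tL]

theorem ne_of_cartan {i j : Fin n} (h : cartan i j = -1) : ¬ j = i := by
  rintro rfl; simp [cartan] at h

theorem ne_of_cartan0 {i j : Fin n} (h : cartan i j = 0) : ¬ j = i := by
  rintro rfl; simp [cartan] at h

theorem tE_adj {i j : Fin n} (h : cartan i j = -1) :
    (tE i j : U n q) = -cm q (E n q i) (E n q j) := by
  rw [tE, if_neg (ne_of_cartan h), if_pos h, cm]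

theorem tF_adj (hq : q ≠ 0) {i j : Fin n} (h : cartan i j = -1) :
    (tF i j : U n q) = q • cm q (F n q i) (F n q j) := by
  rw [tF, if_neg (ne_of_cartan h), if_pos h, cm, smul_sub, smul_smul, mul_inv_cancel₀ hq,
    one_smul, neg_sub]

theorem tK_adj {i j : Fin n} (h : cartan i j = -1) :
    (tK i j : U n q) = K n q j * K n q i := by
  rw [tK, if_neg (ne_of_cartan h), if_pos h]

theorem tL_adj {i j : Fin n} (h : cartan i j = -1) :
    (tL i j : U n q) = L n q j * L n q i := by
  rw [tL, if_neg (ne_of_cartan h), if_pos h]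

theorem tE_far {i j : Fin n} (h : cartan i j = 0) : (tE i j : U n q) = E n q j := by
  rw [tE, if_neg (ne_of_cartan0 h), if_neg (by rw [h]; decide)]

theorem tF_far {i j : Fin n} (h : cartan i j = 0) : (tF i j : U n q) = F n q j := by
  rw [tF, if_neg (ne_of_cartan0 h), if_neg (by rw [h]; decide)]

theorem tK_far {i j : Fin n} (h : cartan i j = 0) : (tK i j : U n q) = K n q j := by
  rw [tK, if_neg (ne_of_cartan0 h), if_neg (by rw [h]; decide)]

theorem tL_far {i j : Fin n} (h : cartan i j = 0) : (tL i j : U n q) = L n q j := by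
  rw [tL, if_neg (ne_of_cartan0 h), if_neg (by rw [h]; decide)]

theorem hasWt_tE (hq : q ≠ 0) (i b : Fin n) :
    HasWt (tE i b : U n q) (fun c => cartan c b - cartan i b * cartan c i) := by
  rcases cartan_cases i b with rfl | ⟨_, h⟩ | ⟨_, h⟩
  · rw [tE_self]
    have := ((hasWt_F (q := q) b).mul hq (hasWt_K b)).neg
    convert this using 1
    funext c; simp [cartan_self]; ring
  · rw [tE_adj h]
    have := ((hasWt_E (q := q) i).cm hq (hasWt_E b)).neg
    convert this using 1
    funext c; simp [h]; ring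
  · rw [tE_far h]
    have := (hasWt_E (q := q) b)
    convert this using 1
    funext c; simp [h]

theorem hasWt_tF (hq : q ≠ 0) (i b : Fin n) :
    HasWt (tF i b : U n q) (fun c => -(cartan c b - cartan i b * cartan c i)) := by
  rcases cartan_cases i b with rfl | ⟨_, h⟩ | ⟨_, h⟩
  · rw [tF_self]
    have := ((hasWt_L (q := q) b).mul hq (hasWt_E b)).neg
    convert this using 1
    funext c; simp [cartan_self]; ring
  · rw [tF_adj hq h]
    have := ((hasWt_F (q := q) i).cm hq (hasWt_F b)).smul q
    convert this using 1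
    funext c; simp [h]
  · rw [tF_far h]
    have := (hasWt_F (q := q) b)
    convert this using 1
    funext c; simp [h]

theorem tK_of_wt (hq : q ≠ 0) {x : U n q} {μ : Fin n → ℤ} (hx : HasWt x μ) (i a : Fin n) :
    tK i a * x = q ^ (μ a - cartan i a * μ i) • (x * tK i a) := by
  rcases cartan_cases i a with rfl | ⟨_, h⟩ | ⟨_, h⟩
  · rw [tK_self, hx.L hq a, cartan_self]; congr 2; ring
  · rw [tK_adj h, mul_assoc, hx i, mul_smul_comm, ← mul_assoc, hx a, smul_mul_assoc, smul_smul,
      mul_assoc, ← zpow_add₀ hq, h]; congr 2; ring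
  · rw [tK_far h, hx a, h]; congr 2; ring

/-- The commutator of `E_i` with `F_j F_i - q F_i F_j`. -/
theorem EF_base (i : Fin n) : E n q i * F n q i = F n q i * E n q i +
    (q - q⁻¹)⁻¹ • (K n q i - L n q i) := by
  rw [← EF_comm]; abel

theorem q_sub_ne (hq : q ≠ 0) (hq2 : q ^ 2 ≠ 1) : q - q⁻¹ ≠ 0 := by
  intro h
  apply hq2
  have : q * (q - q⁻¹) = 0 := by rw [h, mul_zero]
  rw [mul_sub, mul_inv_cancel₀ hq] at this
  rw [sq]; exact sub_eq_zero.mp this

theorem cartan_adj' {i j : Fin n} (h : cartan i j = -1) : cartan j i = -1 := by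
  rw [cartan_comm, h]

theorem E_cmF (hq : q ≠ 0) (hq2 : q ^ 2 ≠ 1) {i j : Fin n} (h : cartan i j = -1) :
    E n q i * cm q (F n q i) (F n q j) =
      cm q (F n q i) (F n q j) * E n q i + (F n q j * K n q i) := by
  have hK : K n q i * F n q j = q • (F n q j * K n q i) := by
    rw [K_mul_F, h]; norm_num
  have hL : L n q i * F n q j = q⁻¹ • (F n q j * L n q i) := by
    rw [L_mul_F hq, h]; norm_num
  have hEj : E n q i * F n q j = F n q j * E n q i := EF_ne i j (fun e => ne_of_cartan h e.symm)
  have hE1 : ∀ s, E n q i * (F n q i * s) = F n q i * (E n q i * s) +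
    (q - q⁻¹)⁻¹ • (K n q i * s - L n q i * s) := fun s => by
      rw [← mul_assoc, EF_base, add_mul, smul_mul_assoc, sub_mul, mul_assoc]
  have hE2 : ∀ s, E n q i * (F n q j * s) = F n q j * (E n q i * s) := fun s => by
      rw [← mul_assoc, hEj, mul_assoc]
  have hne := q_sub_ne hq hq2
  simp only [cm, mul_sub, sub_mul, smul_sub, mul_assoc, smul_mul_assoc, mul_smul_comm,
      smul_smul, hE1, hE2, hK, hL, EF_base, hEj, mul_add, smul_add]
  have hne' : q ^ 2 - 1 ≠ 0 := sub_ne_zero.mpr hq2
  have e : (q - q⁻¹)⁻¹ = q * (q ^ 2 - 1)⁻¹ := by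
    rw [← mul_inv_cancel_left₀ hq (q - q⁻¹)⁻¹]
    field_simp
  rw [e]
  match_scalars <;> field_simp <;> ring

theorem E_cmF' (hq : q ≠ 0) (hq2 : q ^ 2 ≠ 1) {i j : Fin n} (h : cartan i j = -1) :
    E n q j * cm q (F n q i) (F n q j) =
      cm q (F n q i) (F n q j) * E n q j - q⁻¹ • (F n q i * L n q j) := by
  have hK : K n q j * F n q i = q • (F n q i * K n q j) := by
    rw [K_mul_F, cartan_adj' h]; norm_num
  have hL : L n q j * F n q i = q⁻¹ • (F n q i * L n q j) := by
    rw [L_mul_F hq, cartan_adj' h]; norm_num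
  have hEj : E n q j * F n q i = F n q i * E n q j := EF_ne j i (ne_of_cartan h)
  have hE1 : ∀ s, E n q j * (F n q j * s) = F n q j * (E n q j * s) +
    (q - q⁻¹)⁻¹ • (K n q j * s - L n q j * s) := fun s => by
      rw [← mul_assoc, EF_base, add_mul, smul_mul_assoc, sub_mul, mul_assoc]
  have hE2 : ∀ s, E n q j * (F n q i * s) = F n q i * (E n q j * s) := fun s => by
      rw [← mul_assoc, hEj, mul_assoc]
  simp only [cm, mul_sub, sub_mul, smul_sub, mul_assoc, smul_mul_assoc, mul_smul_comm,
      smul_smul, hE1, hE2, hK, hL, EF_base, hEj, mul_add, smul_add]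
  have hne' : q ^ 2 - 1 ≠ 0 := sub_ne_zero.mpr hq2
  have e : (q - q⁻¹)⁻¹ = q * (q ^ 2 - 1)⁻¹ := by
    rw [← mul_inv_cancel_left₀ hq (q - q⁻¹)⁻¹]
    field_simp
  rw [e]
  match_scalars <;> field_simp <;> ring

theorem cmE_F (hq : q ≠ 0) (hq2 : q ^ 2 ≠ 1) {i j : Fin n} (h : cartan i j = -1) :
    cm q (E n q i) (E n q j) * F n q i =
      F n q i * cm q (E n q i) (E n q j) - E n q j * L n q i := by
  have hK : K n q i * E n q j = q⁻¹ • (E n q j * K n q i) := by
    rw [K_mul_E, h]; norm_num
  have hL : L n q i * E n q j = q • (E n q j * L n q i) := by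
    rw [L_mul_E hq, h]; norm_num
  have hEj : E n q j * F n q i = F n q i * E n q j := EF_ne j i (ne_of_cartan h)
  have hE2 : ∀ s, E n q j * (F n q i * s) = F n q i * (E n q j * s) := fun s => by
      rw [← mul_assoc, hEj, mul_assoc]
  have hE1 : ∀ s, E n q i * (F n q i * s) = F n q i * (E n q i * s) +
    (q - q⁻¹)⁻¹ • (K n q i * s - L n q i * s) := fun s => by
      rw [← mul_assoc, EF_base, add_mul, smul_mul_assoc, sub_mul, mul_assoc]
  simp only [cm, mul_sub, sub_mul, smul_sub, mul_assoc, smul_mul_assoc, mul_smul_comm,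
      smul_smul, hE1, hE2, hK, hL, EF_base, hEj, mul_add, smul_add]
  have hne' : q ^ 2 - 1 ≠ 0 := sub_ne_zero.mpr hq2
  have e : (q - q⁻¹)⁻¹ = q * (q ^ 2 - 1)⁻¹ := by
    rw [← mul_inv_cancel_left₀ hq (q - q⁻¹)⁻¹]
    field_simp
  rw [e]
  match_scalars <;> field_simp <;> ring

theorem serreE' (i j : Fin n) (h : cartan i j = -1) : Serre q (E n q i) (E n q j) := serreE i j h
theorem serreF' (i j : Fin n) (h : cartan i j = -1) : Serre q (F n q i) (F n q j) := serreF i j h

/-- The key relation between `T_i(E_i)` and `T_i(E_j)`. -/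
theorem tE_qcomm (hq : q ≠ 0) (hq2 : q ^ 2 ≠ 1) {i j : Fin n} (h : cartan i j = -1) :
    (tE i i : U n q) * tE i j = q • (tE i j * tE i i) + q • E n q j := by
  have hK : K n q i * cm q (E n q i) (E n q j) = q • (cm q (E n q i) (E n q j) * K n q i) := by
    have := ((hasWt_E (q := q) i).cm hq (hasWt_E j)) i
    rw [this]; congr 1; simp [h, cartan_self]
  rw [tE_self, tE_adj h, neg_mul_neg, neg_mul_neg, mul_assoc, hK, mul_smul_comm, ← smul_add]
  congr 1
  rw [← mul_assoc (cm q (E n q i) (E n q j)), cmE_F hq hq2 h, sub_mul, mul_assoc (E n q j),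
    L_mul_K, mul_one, mul_assoc]
  abel

theorem tF_qcomm (hq : q ≠ 0) (hq2 : q ^ 2 ≠ 1) {i j : Fin n} (h : cartan i j = -1) :
    (tF i i : U n q) * tF i j = q • (tF i j * tF i i) + (-F n q j) := by
  have hL : L n q i * cm q (F n q i) (F n q j) = q • (cm q (F n q i) (F n q j) * L n q i) := by
    have := ((hasWt_F (q := q) i).cm hq (hasWt_F j)).L hq i
    rw [this]; congr 1; simp [h, cartan_self]
  have hLF : L n q i * F n q j = q⁻¹ • (F n q j * L n q i) := by
    rw [L_mul_F hq, h]; norm_num
  rw [tF_self, tF_adj hq h]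
  have e1 : L n q i * E n q i * cm q (F n q i) (F n q j) =
      q • (cm q (F n q i) (F n q j) * (L n q i * E n q i)) + q⁻¹ • F n q j := by
    rw [mul_assoc, E_cmF hq hq2 h, mul_add, ← mul_assoc, hL, ← mul_assoc, hLF, smul_mul_assoc,
      smul_mul_assoc, mul_assoc, mul_assoc, L_mul_K, mul_one]
  simp only [neg_mul, mul_neg, mul_smul_comm, smul_mul_assoc, e1, smul_add, smul_neg, smul_smul,
    mul_inv_cancel₀ hq, one_smul]
  abel

/-- The data of Lusztig's automorphism `T_i`. -/
noncomputable def lusztigData (n : ℕ) (q : ℂ) (hq : q ≠ 0) (hq2 : q ^ 2 ≠ 1)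
    (hq4 : q ^ 2 + 1 ≠ 0) (i : Fin n) : LiftData n q (U n q) where
  e j := tE i j
  f j := tF i j
  k j := tK i j
  l j := tL i j
  kl j := by
    rcases cartan_cases i j with rfl | ⟨_, h⟩ | ⟨_, h⟩
    · rw [tK_self, tL_self, L_mul_K]
    · rw [tK_adj h, tL_adj h, L_mul_L j i, mul_assoc, ← mul_assoc (K n q i), K_mul_L, one_mul,
        K_mul_L]
    · rw [tK_far h, tL_far h, K_mul_L]
  lk j := by
    rcases cartan_cases i j with rfl | ⟨_, h⟩ | ⟨_, h⟩
    · rw [tK_self, tL_self, K_mul_L]
    · rw [tK_adj h, tL_adj h, K_mul_K j i, mul_assoc, ← mul_assoc (L n q i), L_mul_K, one_mul,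
        L_mul_K]
    · rw [tK_far h, tL_far h, L_mul_K]
  kk a b := by
    have hb : HasWt (tK i b : U n q) 0 := by
      rcases cartan_cases i b with rfl | ⟨_, h⟩ | ⟨_, h⟩
      · rw [tK_self]; exact hasWt_L b
      · rw [tK_adj h]; simpa using (hasWt_K (q := q) b).mul hq (hasWt_K i)
      · rw [tK_far h]; exact hasWt_K b
    have := tK_of_wt hq hb i a
    simpa using this
  ke a b := by
    rw [tK_of_wt hq (hasWt_tE hq i b) i a]
    congr 2
    simp only [cartan_self, cartan_comm a i]
    ring
  kf a b := by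
    rw [tK_of_wt hq (hasWt_tF hq i b) i a]
    congr 2
    simp only [cartan_self, cartan_comm a i]
    ring
  ef a := by
    rcases cartan_cases i a with rfl | ⟨_, h⟩ | ⟨_, h⟩
    · rw [tE_self, tF_self, tK_self, tL_self]
      have hwt : L n q a * (E n q a * F n q a) = E n q a * F n q a * L n q a := by
        have := ((hasWt_E (q := q) a).mul hq (hasWt_F a)).L hq a
        simpa using this
      have e1 : -(F n q a * K n q a) * -(L n q a * E n q a) = F n q a * E n q a := by
        rw [neg_mul_neg, mul_assoc, ← mul_assoc (K n q a), K_mul_L, one_mul]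
      have e2 : -(L n q a * E n q a) * -(F n q a * K n q a) = E n q a * F n q a := by
        rw [neg_mul_neg, mul_assoc, ← mul_assoc (E n q a), ← mul_assoc, hwt, mul_assoc, L_mul_K,
          mul_one]
      rw [e1, e2, EF_base, smul_sub, smul_sub]
      abel
    · rw [tE_adj h, tF_adj hq h, tK_adj h, tL_adj h]
      set c := cm q (F n q i) (F n q a) with hc
      have hE1 : E n q i * c = c * E n q i + F n q a * K n q i := E_cmF hq hq2 h
      have hE2 : E n q a * c = c * E n q a - q⁻¹ • (F n q i * L n q a) := E_cmF' hq hq2 h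
      have hE1' : ∀ s, E n q i * (c * s) = c * (E n q i * s) + F n q a * (K n q i * s) :=
        fun s => by rw [← mul_assoc, hE1, add_mul, mul_assoc, mul_assoc]
      have hE2' : ∀ s, E n q a * (c * s) = c * (E n q a * s) - q⁻¹ • (F n q i * (L n q a * s)) :=
        fun s => by rw [← mul_assoc, hE2, sub_mul, mul_assoc, smul_mul_assoc, mul_assoc]
      have hKE : K n q i * E n q a = q⁻¹ • (E n q a * K n q i) := by
        rw [K_mul_E, h]; norm_num
      have hLE : L n q a * E n q i = q • (E n q i * L n q a) := by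
        rw [L_mul_E hq, cartan_adj' h]; norm_num
      have hEa : ∀ s, E n q a * (F n q a * s) = F n q a * (E n q a * s) +
          (q - q⁻¹)⁻¹ • (K n q a * s - L n q a * s) := fun s => by
        rw [← mul_assoc, EF_base, add_mul, smul_mul_assoc, sub_mul, mul_assoc]
      have hEi : ∀ s, E n q i * (F n q i * s) = F n q i * (E n q i * s) +
          (q - q⁻¹)⁻¹ • (K n q i * s - L n q i * s) := fun s => by
        rw [← mul_assoc, EF_base, add_mul, smul_mul_assoc, sub_mul, mul_assoc]
      have key : cm q (E n q i) (E n q a) * c - c * cm q (E n q i) (E n q a) =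
          -(q⁻¹ • ((q - q⁻¹)⁻¹ • (K n q a * K n q i - L n q a * L n q i))) := by
        simp only [cm, mul_sub, sub_mul, smul_sub, mul_assoc, smul_mul_assoc, mul_smul_comm,
          smul_smul, hE1, hE2, hE1', hE2', hKE, hLE, mul_add, smul_add, hEa, hEi, L_mul_K' a i,
          L_mul_K' i a, L_mul_L i a]
        have := L_mul_K' (q := q) a i
        match_scalars <;> field_simp <;> ring
      have e : -cm q (E n q i) (E n q a) * q • c - q • c * -cm q (E n q i) (E n q a) =
          -(q • (cm q (E n q i) (E n q a) * c - c * cm q (E n q i) (E n q a))) := by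
        simp only [neg_mul, mul_neg, mul_smul_comm, smul_mul_assoc, smul_sub, smul_neg]
        abel
      rw [e, key, smul_neg, neg_neg, smul_smul, mul_inv_cancel₀ hq, one_smul]
    · rw [tE_far h, tF_far h, tK_far h, tL_far h, EF_comm]
  efne a b hab := by
    rcases cartan_cases i a with rfl | ⟨ha, h⟩ | ⟨ha, h⟩
    · rcases cartan_cases a b with rfl | ⟨_, h'⟩ | ⟨_, h'⟩
      · exact absurd rfl hab
      · rw [tE_self, tF_adj hq h']
        have hK : K n q a * cm q (F n q a) (F n q b) =
            q⁻¹ • (cm q (F n q a) (F n q b) * K n q a) := by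
          have := ((hasWt_F (q := q) a).cm hq (hasWt_F b)) a
          rw [this]; congr 1; simp [h', cartan_self]
        have e : F n q a * K n q a * cm q (F n q a) (F n q b) =
            cm q (F n q a) (F n q b) * (F n q a * K n q a) := by
          rw [mul_assoc, hK, mul_smul_comm, ← mul_assoc, cm_left hq (serreF' a b h'),
            smul_mul_assoc, smul_smul, inv_mul_cancel₀ hq, one_smul, mul_assoc]
        rw [neg_mul, mul_neg, mul_smul_comm, smul_mul_assoc, e]
      · rw [tE_self, tF_far h', neg_mul, mul_neg, mul_assoc, K_mul_F, h', neg_zero, zpow_zero,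
          one_smul, ← mul_assoc, FF_comm a b h', mul_assoc]
    · rcases cartan_cases i b with rfl | ⟨hb, h'⟩ | ⟨hb, h'⟩
      · rw [tE_adj h, tF_self]
        have hL : L n q b * cm q (E n q b) (E n q a) =
            q⁻¹ • (cm q (E n q b) (E n q a) * L n q b) := by
          have := ((hasWt_E (q := q) b).cm hq (hasWt_E a)).L hq b
          rw [this]; congr 1; simp [h, cartan_self]
        have e : L n q b * E n q b * cm q (E n q b) (E n q a) =
            cm q (E n q b) (E n q a) * (L n q b * E n q b) := by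
          rw [mul_assoc, cm_left hq (serreE' b a h), mul_smul_comm, ← mul_assoc, hL,
            smul_mul_assoc, smul_smul, mul_inv_cancel₀ hq, one_smul, mul_assoc]
        rw [neg_mul_neg, neg_mul_neg, e]
      · rw [tE_adj h, tF_adj hq h']
        set c := cm q (F n q i) (F n q b) with hc
        have hE1 : E n q i * c = c * E n q i + F n q b * K n q i := E_cmF hq hq2 h'
        have hE2 : E n q a * c = c * E n q a := by
          rw [hc]
          exact (comm_cm (EF_ne a i ha).symm (EF_ne a b hab).symm).symm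
        have hKE : K n q i * E n q a = q⁻¹ • (E n q a * K n q i) := by
          rw [K_mul_E, h]; norm_num
        have e : cm q (E n q i) (E n q a) * c = c * cm q (E n q i) (E n q a) := by
          have e1 : E n q i * E n q a * c = c * (E n q i * E n q a) +
              q⁻¹ • (F n q b * E n q a * K n q i) := by
            rw [mul_assoc, hE2, ← mul_assoc, hE1, add_mul, mul_assoc, mul_assoc (F n q b), hKE,
              mul_smul_comm, mul_assoc]
          have e2 : E n q a * E n q i * c = c * (E n q a * E n q i) +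
              F n q b * E n q a * K n q i := by
            rw [mul_assoc, hE1, mul_add, ← mul_assoc, hE2, mul_assoc, ← mul_assoc (E n q a),
              EF_ne a b hab]
          simp only [cm, sub_mul, mul_sub, smul_mul_assoc, mul_smul_comm, e1, e2, smul_add]
          abel
        rw [neg_mul, mul_neg, mul_smul_comm, smul_mul_assoc, e]
      · rw [tE_adj h, tF_far h', neg_mul, mul_neg,
          comm_cm (EF_ne i b (fun e => hb e.symm)) (EF_ne a b hab)]
    · rcases cartan_cases i b with rfl | ⟨hb, h'⟩ | ⟨hb, h'⟩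
      · rw [tE_far h, tF_self, neg_mul, mul_neg, mul_assoc, EE_comm b a h, ← mul_assoc,
          ← mul_assoc, L_mul_E hq, h, neg_zero, zpow_zero, one_smul]
      · rw [tE_far h, tF_adj hq h', mul_smul_comm, smul_mul_assoc,
          comm_cm (EF_ne a i ha).symm (EF_ne a b hab).symm]
      · rw [tE_far h, tF_far h', EF_ne a b hab]
  ee a b hab := by
    have hba := cartan_comm b a ▸ hab
    rcases cartan_cases i a with rfl | ⟨ha, h⟩ | ⟨ha, h⟩
    · rw [tE_self, tE_far hab, neg_mul, mul_neg, mul_assoc, K_mul_E, hab, zpow_zero, one_smul,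
        ← mul_assoc, ← EF_ne b a (fun e => ne_of_cartan0 hab e), mul_assoc]
    · rcases cartan_cases i b with rfl | ⟨hb, h'⟩ | ⟨hb, h'⟩
      · rw [cartan_comm, h] at hab; exact absurd hab (by decide)
      · rw [tE_adj h, tE_adj h', neg_mul_neg, neg_mul_neg,
          comm_cm_cm hq hq4 (EE_comm b a hba) (serreE' i a h) (serreE' i b h')]
      · rw [tE_adj h, tE_far h', neg_mul, mul_neg, comm_cm (EE_comm i b h') (EE_comm a b hab)]
    · rcases cartan_cases i b with rfl | ⟨hb, h'⟩ | ⟨hb, h'⟩
      · rw [tE_self, tE_far h, neg_mul, mul_neg, mul_assoc, K_mul_E, hba, zpow_zero, one_smul,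
          ← mul_assoc, EF_ne a b (fun e => ne_of_cartan0 hba e), mul_assoc]
      · rw [tE_adj h', tE_far h, neg_mul, mul_neg, comm_cm (EE_comm i a h) (EE_comm b a hba)]
      · rw [tE_far h, tE_far h', EE_comm a b hab]
  ff a b hab := by
    have hba := cartan_comm b a ▸ hab
    rcases cartan_cases i a with rfl | ⟨ha, h⟩ | ⟨ha, h⟩
    · rw [tF_self, tF_far hab, neg_mul, mul_neg, mul_assoc, EF_ne a b
        (fun e => ne_of_cartan0 hab e.symm), ← mul_assoc, L_mul_F hq, hab, zpow_zero, one_smul,
        mul_assoc]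
    · rcases cartan_cases i b with rfl | ⟨hb, h'⟩ | ⟨hb, h'⟩
      · rw [cartan_comm, h] at hab; exact absurd hab (by decide)
      · rw [tF_adj hq h, tF_adj hq h', smul_mul_smul_comm, smul_mul_smul_comm,
          comm_cm_cm hq hq4 (FF_comm b a hba) (serreF' i a h) (serreF' i b h')]
      · rw [tF_adj hq h, tF_far h', smul_mul_assoc, mul_smul_comm,
          comm_cm (FF_comm i b h') (FF_comm a b hab)]
    · rcases cartan_cases i b with rfl | ⟨hb, h'⟩ | ⟨hb, h'⟩
      · have hc : L n q b * F n q a = F n q a * L n q b := by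
          rw [L_mul_F hq, hba, zpow_zero, one_smul]
        rw [tF_self, tF_far h, neg_mul, mul_neg, mul_assoc, EF_ne b a
          (fun e => ne_of_cartan0 h e.symm), ← mul_assoc, ← mul_assoc, hc]
      · rw [tF_adj hq h', tF_far h, smul_mul_assoc, mul_smul_comm,
          comm_cm (FF_comm i a h) (FF_comm b a hba)]
      · rw [tF_far h, tF_far h', FF_comm a b hab]
  se a b hab := by
    change Serre q (tE i a) (tE i b)
    rcases cartan_cases i a with rfl | ⟨ha, h⟩ | ⟨ha, h⟩
    · apply serre_of_qcomm hq (tE_qcomm hq hq2 hab)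
      have hKE : K n q a * E n q b = q⁻¹ • (E n q b * K n q a) := by
        rw [K_mul_E, hab]; norm_num
      rw [tE_self, mul_smul_comm, smul_mul_assoc, neg_mul, mul_neg, mul_assoc, hKE,
        mul_smul_comm, ← mul_assoc, ← EF_ne b a (ne_of_cartan hab), mul_assoc, smul_neg, smul_neg,
        smul_neg, smul_comm]
    · rcases cartan_cases i b with rfl | ⟨hb, h'⟩ | ⟨hb, h'⟩
      · apply serre_of_qcomm' hq (tE_qcomm hq hq2 h)
        rw [tE_adj h, mul_smul_comm, neg_mul, cm_right hq (serreE' a b hab), smul_mul_assoc,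
          mul_neg, smul_neg, smul_neg, smul_neg]
      · rw [cartan_adj_adj h h' (fun e => ne_of_cartan hab e.symm)] at hab
        exact absurd hab (by decide)
      · rw [tE_adj h, tE_far h']
        apply serre_neg_left
        exact serre_cm hq hq4 (EE_comm i b h').symm (serreE' i a h) (serreE' a i (cartan_adj' h))
          (serreE' a b hab)
    · rcases cartan_cases i b with rfl | ⟨hb, h'⟩ | ⟨hb, h'⟩
      · rw [cartan_comm, h] at hab; exact absurd hab (by decide)
      · rw [tE_adj h', tE_far h]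
        apply serre_neg_right
        exact serre_cm' hq (EE_comm i a h).symm (serreE' a b hab)
      · rw [tE_far h, tE_far h']; exact serreE' a b hab
  sf a b hab := by
    change Serre q (tF i a) (tF i b)
    rcases cartan_cases i a with rfl | ⟨ha, h⟩ | ⟨ha, h⟩
    · apply serre_of_qcomm hq (tF_qcomm hq hq2 hab)
      have hLF : L n q a * F n q b = q⁻¹ • (F n q b * L n q a) := by
        rw [L_mul_F hq, hab]; norm_num
      rw [tF_self, neg_mul_neg, neg_mul_neg, mul_assoc, EF_ne a b
        (fun e => ne_of_cartan hab e.symm), ← mul_assoc, hLF, smul_mul_assoc, mul_assoc]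
    · rcases cartan_cases i b with rfl | ⟨hb, h'⟩ | ⟨hb, h'⟩
      · apply serre_of_qcomm' hq (tF_qcomm hq hq2 h)
        rw [tF_adj hq h, mul_neg, smul_mul_assoc, cm_right hq (serreF' a b hab), mul_smul_comm,
          neg_mul, smul_neg, smul_neg]
      · rw [cartan_adj_adj h h' (fun e => ne_of_cartan hab e.symm)] at hab
        exact absurd hab (by decide)
      · rw [tF_adj hq h, tF_far h']
        have := serre_smul (serre_cm hq hq4 (FF_comm i b h').symm (serreF' i a h)
          (serreF' a i (cartan_adj' h)) (serreF' a b hab)) q 1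
        simpa using this
    · rcases cartan_cases i b with rfl | ⟨hb, h'⟩ | ⟨hb, h'⟩
      · rw [cartan_comm, h] at hab; exact absurd hab (by decide)
      · rw [tF_adj hq h', tF_far h]
        have := serre_smul (serre_cm' hq (FF_comm i a h).symm (serreF' a b hab)) 1 q
        simpa using this
      · rw [tF_far h, tF_far h']; exact serreF' a b hab

/-- Lusztig's braid automorphism `T_i`. -/
noncomputable def lusztigT (n : ℕ) (q : ℂ) (hq : q ≠ 0) (hq2 : q ^ 2 ≠ 1)
    (hq4 : q ^ 2 + 1 ≠ 0) (i : Fin n) : U n q →ₐ[ℂ] U n q :=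
  (lusztigData n q hq hq2 hq4 i).lift

end Pool.Agent.Helper24.QTangent
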