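import Pool.Agent.Helper24.QTangent.Words

/-!
# Commutation classes and the signs of triangles
-/

namespace Pool.Agent.Helper24.QTangent

variable {n : ℕ}

theorem sw_comm {i j : ℕ} (h : i + 1 < j ∨ j + 1 < i) : sw i * sw j = sw j * sw i := by
  ext x
  rw [Equiv.Perm.mul_apply, Equiv.Perm.mul_apply]
  simp only [sw_eq]
  split_ifs <;> omega

theorem CommStep.symm {w w' : List (Fin n)} (h : CommStep w w') : CommStep w' w := by
  obtain ⟨u, v, i, j, hij, rfl, rfl⟩ := h
  exact ⟨u, v, j, i, hij.symm, rfl, rfl⟩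

theorem CommStep.pm_eq {w w' : List (Fin n)} (h : CommStep w w') : pm w = pm w' := by
  obtain ⟨u, v, i, j, hij, rfl, rfl⟩ := h
  rw [pm_append, pm_append, pm_cons, pm_cons, pm_cons, pm_cons, ← mul_assoc (sw i),
    sw_comm hij, mul_assoc]

theorem CommStep.length_eq {w w' : List (Fin n)} (h : CommStep w w') : w.length = w'.length := by
  obtain ⟨u, v, i, j, hij, rfl, rfl⟩ := h
  simp

theorem CommStep.isW0 {w w' : List (Fin n)} (h : CommStep w w') (hw : IsW0 w) : IsW0 w' :=
  ⟨by rw [← h.length_eq]; exact hw.length_eq, by rw [← h.pm_eq]; exact hw.perm_eq⟩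

theorem invs_eq_of_pm {w w' : List (Fin n)} (h : pm w = pm w') : invs w = invs w' := by
  ext p
  rw [mem_invs, mem_invs]
  unfold Crossed
  rw [h]

theorem Red.card_invs {w : List (Fin n)} (h : Red w) : (invs w).card = w.length := by
  classical
  induction w using List.reverseRecOn with
  | nil =>
    have := card_invs_le ([] : List (Fin n))
    simpa using this
  | append_singleton w i ih =>
    have hlt := h.snoc_lt
    have h1 : invs (w ++ [i]) = insert (pm w i, pm w (i + 1)) (invs w) := by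
      ext p
      rw [mem_invs, Finset.mem_insert, mem_invs]
      constructor
      · rintro ⟨h1, h2, h3⟩
        rw [crossed_snoc hlt h2] at h3
        rcases h3 with h3 | ⟨h3, h4⟩
        · exact Or.inr ⟨h1, h2, h3⟩
        · left; rw [h3, h4]
      · rintro (rfl | ⟨h1, h2, h3⟩)
        · refine ⟨⟨pm_le w (by omega), pm_le w (by omega)⟩, hlt, ?_⟩
          rw [crossed_snoc hlt hlt]; exact Or.inr ⟨rfl, rfl⟩
        · refine ⟨h1, h2, ?_⟩
          rw [crossed_snoc hlt h2]; exact Or.inl h3
    rw [h1, Finset.card_insert_of_notMem, ih h.left, List.length_append, List.length_singleton]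
    rw [mem_invs]
    rintro ⟨_, _, h2⟩
    unfold Crossed at h2
    simp at h2

theorem Red.of_pm {w w' : List (Fin n)} (h : Red w) (h1 : pm w = pm w')
    (h2 : w.length = w'.length) : Red w' := by
  apply red_of_card
  rw [← invs_eq_of_pm h1, h.card_invs, h2]

theorem CommStep.red {w w' : List (Fin n)} (h : CommStep w w') (hw : Red w) : Red w' :=
  hw.of_pm h.pm_eq h.length_eq

theorem crossed_of_pm {w w' : List (Fin n)} (h : pm w = pm w') {x y : ℕ} :
    Crossed w x y ↔ Crossed w' x y := by
  unfold Crossed; rw [h]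

theorem CommStep.pos {w w' : List (Fin n)} (h : CommStep w w') (hw : Red w) {x y z : ℕ}
    (hxy : x < y) (hyz : y < z) (hp : Pos w x y z) : Pos w' x y z := by
  obtain ⟨u, v, i, j, hij, rfl, rfl⟩ := h
  obtain ⟨p, hp, h1, h2⟩ := hp
  have hu : u <+: u ++ i :: j :: v := ⟨_, rfl⟩
  rcases List.prefix_or_prefix_of_prefix hp hu with ⟨t, ht⟩ | ⟨t, rfl⟩
  · refine ⟨p, ?_, h1, h2⟩
    rw [← ht, List.append_assoc]; exact ⟨_, rfl⟩
  · rw [List.prefix_append_right_inj] at hp
    rcases t with _ | ⟨a, t⟩
    · exact ⟨u, ⟨_, rfl⟩, by simpa using h1, by simpa using h2⟩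
    · rw [List.cons_prefix_cons] at hp
      obtain ⟨rfl, hp⟩ := hp
      rcases t with _ | ⟨b, t⟩
      · -- the initial segment `u ++ [i]`
        have hr1 : Red (u ++ [a]) := by
          have : u ++ a :: j :: v = (u ++ [a]) ++ (j :: v) := by simp
          rw [this] at hw; exact hw.left
        have hr2 : Red (u ++ [a] ++ [j]) := by
          have : u ++ a :: j :: v = (u ++ [a] ++ [j]) ++ v := by simp
          rw [this] at hw; exact hw.left
        rw [crossed_snoc hr1.snoc_lt hxy] at h1
        rcases h1 with h1 | ⟨h3, h4⟩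
        · refine ⟨u, ⟨_, rfl⟩, h1, fun h5 => h2 ?_⟩
          exact h5.mono hr1 hyz
        · have hpm : pm (u ++ [a] ++ [j]) = pm (u ++ [j, a]) := by
            have h5 : pm (u ++ a :: j :: []) = pm (u ++ j :: a :: []) :=
              CommStep.pm_eq ⟨u, [], a, j, hij, rfl, rfl⟩
            rw [← h5]; simp
          refine ⟨u ++ [j, a], ⟨v, by simp⟩, ?_, ?_⟩
          · rw [← crossed_of_pm hpm]
            apply Crossed.mono hr2 hxy
            rw [crossed_snoc hr1.snoc_lt hxy]
            exact Or.inr ⟨h3, h4⟩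
          · rw [← crossed_of_pm hpm, crossed_snoc hr2.snoc_lt hyz]
            rintro (h5 | ⟨h5, _⟩)
            · exact h2 h5
            · rw [pm_snoc, Equiv.Perm.mul_apply, sw_apply_ne (by omega) (by omega), ← h4] at h5
              have := (pm u).injective h5
              omega
      · rw [List.cons_prefix_cons] at hp
        obtain ⟨rfl, hp⟩ := hp
        have hpm : pm (u ++ a :: b :: t) = pm (u ++ b :: a :: t) :=
          CommStep.pm_eq ⟨u, t, a, b, hij, rfl, rfl⟩
        refine ⟨u ++ b :: a :: t, ?_, ?_, ?_⟩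
        · rw [List.prefix_append_right_inj, List.cons_prefix_cons, List.cons_prefix_cons]
          exact ⟨rfl, rfl, hp⟩
        · rwa [← crossed_of_pm hpm]
        · rwa [← crossed_of_pm hpm]

/-- The equivalence relation generated by `CommStep`. -/
def CommEq (w w' : List (Fin n)) : Prop := Relation.EqvGen CommStep w w'

theorem CommEq.red_pm {w w' : List (Fin n)} (h : CommEq w w') :
    pm w = pm w' ∧ w.length = w'.length ∧ (Red w ↔ Red w') ∧
      (Red w → ∀ x y z : ℕ, x < y → y < z → (Pos w x y z ↔ Pos w' x y z)) := by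
  induction h with
  | rel w w' h =>
    exact ⟨h.pm_eq, h.length_eq, ⟨h.red, h.symm.red⟩, fun hr x y z hxy hyz =>
      ⟨h.pos hr hxy hyz, h.symm.pos (h.red hr) hxy hyz⟩⟩
  | refl w => exact ⟨rfl, rfl, Iff.rfl, fun _ _ _ _ _ _ => Iff.rfl⟩
  | symm w w' _ ih =>
    exact ⟨ih.1.symm, ih.2.1.symm, ih.2.2.1.symm, fun hr x y z hxy hyz =>
      (ih.2.2.2 (ih.2.2.1.2 hr) x y z hxy hyz).symm⟩
  | trans w w' w'' _ _ ih1 ih2 =>
    exact ⟨ih1.1.trans ih2.1, ih1.2.1.trans ih2.2.1, ih1.2.2.1.trans ih2.2.2.1,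
      fun hr x y z hxy hyz => (ih1.2.2.2 hr x y z hxy hyz).trans
        (ih2.2.2.2 (ih1.2.2.1.1 hr) x y z hxy hyz)⟩

theorem CommEq.cons {w w' : List (Fin n)} (h : CommEq w w') (k : Fin n) :
    CommEq (k :: w) (k :: w') := by
  induction h with
  | rel w w' h =>
    obtain ⟨u, v, i, j, hij, rfl, rfl⟩ := h
    exact Relation.EqvGen.rel _ _ ⟨k :: u, v, i, j, hij, rfl, rfl⟩
  | refl w => exact Relation.EqvGen.refl _
  | symm w w' _ ih => exact ih.symm
  | trans w w' w'' _ _ ih1 ih2 => exact ih1.trans _ _ _ ih2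

/-- A letter far from all letters of `u` can be moved to the front. -/
theorem commEq_front {j : Fin n} {u : List (Fin n)}
    (h : ∀ k ∈ u, (k : ℕ) + 1 < j ∨ (j : ℕ) + 1 < k) (v : List (Fin n)) :
    CommEq (u ++ j :: v) (j :: u ++ v) := by
  induction u with
  | nil => exact Relation.EqvGen.refl _
  | cons k u ih =>
    have h1 : CommEq (k :: (u ++ j :: v)) (k :: (j :: u ++ v)) :=
      (ih fun l hl => h l (List.mem_cons_of_mem _ hl)).cons k
    refine Relation.EqvGen.trans _ _ _ h1 ?_
    exact Relation.EqvGen.rel _ _ ⟨[], u ++ v, k, j, h k List.mem_cons_self, rfl, rfl⟩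

/-- If no line crosses the lines `j, j + 1` in `u`, all letters of `u` are far from `j`. -/
theorem far_of_not_crossed {j : Fin n} {u : List (Fin n)} (hr : Red u)
    (h1 : ∀ c < (j : ℕ), ¬ Crossed u c j) (h2 : ∀ c, (j : ℕ) + 1 < c → ¬ Crossed u ((j : ℕ) + 1) c)
    (h3 : ¬ Crossed u j ((j : ℕ) + 1)) :
    (∀ k ∈ u, (k : ℕ) + 1 < j ∨ (j : ℕ) + 1 < k) ∧ pm u (j : ℕ) = j ∧
      pm u ((j : ℕ) + 1) = (j : ℕ) + 1 := by
  induction u using List.reverseRecOn with
  | nil => simp
  | append_singleton u k ih =>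
    obtain ⟨h4, h5, h6⟩ := ih hr.left (fun c hc h => h1 c hc (h.mono hr hc))
      (fun c hc h => h2 c hc (h.mono hr hc)) (fun h => h3 (h.mono hr (by omega)))
    have hk : (k : ℕ) + 1 < j ∨ (j : ℕ) + 1 < k := by
      by_contra hcon
      have hlt := hr.snoc_lt
      rcases (by omega : (k : ℕ) = j ∨ (k : ℕ) + 1 = j ∨ (k : ℕ) = (j : ℕ) + 1) with hk | hk | hk
      · apply h3
        rw [crossed_snoc hlt (by omega), hk]
        exact Or.inr ⟨h5, h6⟩
      · rw [hk, h5] at hlt
        apply h1 _ hlt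
        rw [crossed_snoc (by rw [hk, h5]; exact hlt) hlt, hk]
        exact Or.inr ⟨rfl, h5⟩
      · have h7 : pm u (k : ℕ) = (j : ℕ) + 1 := by rw [hk, h6]
        rw [h7] at hlt
        apply h2 _ hlt
        rw [crossed_snoc (by rw [h7]; exact hlt) hlt]
        exact Or.inr ⟨h7, rfl⟩
    refine ⟨?_, ?_, ?_⟩
    · intro l hl
      rw [List.mem_append, List.mem_singleton] at hl
      rcases hl with hl | rfl
      · exact h4 l hl
      · exact hk
    · rw [pm_snoc, Equiv.Perm.mul_apply, sw_apply_ne (by omega) (by omega), h5]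
    · rw [pm_snoc, Equiv.Perm.mul_apply, sw_apply_ne (by omega) (by omega), h6]

theorem crossed_cons (j : Fin n) (p : List (Fin n)) (x y : ℕ) :
    Crossed (j :: p) x y ↔ Crossed p (sw j x) (sw j y) := by
  unfold Crossed
  rw [pm_cons, inv_mul_apply'', inv_mul_apply'']

theorem pos_cons_iff {j : Fin n} {w : List (Fin n)} {x y z : ℕ}
    (hxy : x < y) (h1 : ¬ (x = j ∧ y = (j : ℕ) + 1)) :
    Pos w x y z ↔ Pos (j :: w) (sw j x) (sw j y) (sw j z) := by
  constructor
  · rintro ⟨p, hp, h3, h4⟩
    refine ⟨j :: p, List.cons_prefix_cons.mpr ⟨rfl, hp⟩, ?_, ?_⟩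
    · rw [crossed_cons, sw_sw, sw_sw]; exact h3
    · rw [crossed_cons, sw_sw, sw_sw]; exact h4
  · rintro ⟨p, hp, h3, h4⟩
    rcases p with _ | ⟨k, p⟩
    · exact absurd h3 (not_crossed_nil (sw_lt _ _ _ hxy h1))
    · rw [List.cons_prefix_cons] at hp
      obtain ⟨rfl, hp⟩ := hp
      rw [crossed_cons, sw_sw, sw_sw] at h3 h4
      exact ⟨p, hp, h3, h4⟩

theorem not_crossed_of_cons {j : Fin n} {p : List (Fin n)} (h : Red (j :: p)) :
    ¬ Crossed p j ((j : ℕ) + 1) := by
  have := h.cons_pos
  unfold Crossed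
  omega

/-- The signs of the triangles determine the commutation class. -/
theorem commEq_of_agree : ∀ (w w' : List (Fin n)), Red w → Red w' → pm w = pm w' →
    (∀ x y z : ℕ, x < y → y < z → (Pos w x y z ↔ Pos w' x y z)) → CommEq w w' := by
  intro w
  induction w with
  | nil =>
    intro w' _ h2 h3 _
    rcases w' with _ | ⟨j, w'⟩
    · exact Relation.EqvGen.refl _
    · exfalso
      have h5 : Crossed (j :: w') (j : ℕ) ((j : ℕ) + 1) :=
        (crossed_iff_root h2 (by omega)).2 ⟨[], j, w', rfl, rfl, rfl⟩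
      rw [← crossed_of_pm h3] at h5
      exact not_crossed_nil (by omega) h5
  | cons j w1 ih =>
    intro w' hw hw' hpm hag
    have hc : Crossed (j :: w1) (j : ℕ) ((j : ℕ) + 1) :=
      (crossed_iff_root hw (by omega)).2 ⟨[], j, w1, rfl, rfl, rfl⟩
    have hc' : Crossed w' (j : ℕ) ((j : ℕ) + 1) := (crossed_of_pm hpm).1 hc
    obtain ⟨u, i, v, rfl, hi1, hi2⟩ := (crossed_iff_root hw' (by omega)).1 hc'
    have hpi : (pm u)⁻¹ (j : ℕ) = i := by rw [← hi1]; simp
    have hpi' : (pm u)⁻¹ ((j : ℕ) + 1) = i + 1 := by rw [← hi2]; simp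
    have hu : Red u := hw'.left
    have hui : Red (u ++ [i]) := by
      have : u ++ i :: v = (u ++ [i]) ++ v := by simp
      rw [this] at hw'; exact hw'.left
    -- no line crosses `j` or `j + 1` in `u`
    have hA : ∀ c, (j : ℕ) + 1 < c → ¬ Crossed u ((j : ℕ) + 1) c := by
      intro c hjc hcr
      have hp : Pos (j :: w1) (j : ℕ) ((j : ℕ) + 1) c := by
        refine ⟨[j], ⟨w1, rfl⟩, ?_, ?_⟩
        · rw [crossed_cons, sw_apply_self, sw_apply_succ]; unfold Crossed; simp
        · rw [crossed_cons, sw_apply_succ, sw_apply_ne (by omega) (by omega)]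
          exact not_crossed_nil (by omega)
      obtain ⟨p, hp, h1, h2⟩ := (hag _ _ _ (by omega) hjc).1 hp
      have hup : u <+: p := by
        have hu' : u <+: u ++ i :: v := ⟨_, rfl⟩
        rcases List.prefix_or_prefix_of_prefix hp hu' with h | h
        · exfalso
          obtain ⟨t, rfl⟩ := h
          have := h1.mono hu (by omega)
          unfold Crossed at this; omega
        · exact h
      obtain ⟨t, rfl⟩ := hup
      obtain ⟨s, hs⟩ := hp
      rw [← hs] at hw'
      exact h2 (hcr.mono hw'.left hjc)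
    have hB : ∀ c < (j : ℕ), ¬ Crossed u c j := by
      intro c hcj hcr
      have hp : Pos (u ++ i :: v) c (j : ℕ) ((j : ℕ) + 1) :=
        ⟨u, ⟨_, rfl⟩, hcr, by unfold Crossed; omega⟩
      obtain ⟨p, hp, h1, h2⟩ := (hag _ _ _ hcj (by omega)).2 hp
      rcases p with _ | ⟨k, p⟩
      · exact not_crossed_nil hcj h1
      · have hk := (List.cons_prefix_cons.mp hp).1
        subst hk
        apply h2
        obtain ⟨s, hs⟩ := hp
        have hr : Red (k :: p) := by rw [← hs] at hw; exact hw.left
        exact (crossed_iff_root hr (by omega)).2 ⟨[], k, p, rfl, rfl, rfl⟩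
    obtain ⟨h4, h5, _⟩ := far_of_not_crossed hu hB hA (by unfold Crossed; omega)
    have hij : i = j := by
      apply Fin.ext
      exact (pm u).injective (hi1.trans h5.symm)
    subst hij
    have h6 : CommEq (u ++ i :: v) (i :: u ++ v) := commEq_front h4 v
    obtain ⟨h7, h8, h9, h10⟩ := h6.red_pm
    have hr' : Red (i :: (u ++ v)) := h9.1 hw'
    have hpm' : pm w1 = pm (u ++ v) := by
      have := hpm.trans h7
      rw [pm_cons] at this
      have h11 : pm (i :: u ++ v) = sw i * pm (u ++ v) := by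
        rw [List.cons_append, pm_cons]
      rw [h11] at this
      exact mul_left_cancel this
    have hag' : ∀ x y z : ℕ, x < y → y < z →
        (Pos (i :: w1) x y z ↔ Pos (i :: (u ++ v)) x y z) := fun x y z hxy hyz =>
      (hag x y z hxy hyz).trans (h10 hw' x y z hxy hyz)
    have h12 : CommEq w1 (u ++ v) := by
      apply ih (u ++ v) hw.tail hr'.tail hpm'
      intro x y z hxy hyz
      by_cases c1 : x = i ∧ y = (i : ℕ) + 1
      · -- both sides are false
        obtain ⟨rfl, rfl⟩ := c1
        constructor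
        · rintro ⟨p, hp, h1, _⟩
          obtain ⟨s, hs⟩ := hp
          have : Red (i :: p) := by
            rw [← hs, ← List.cons_append] at hw; exact hw.left
          exact absurd h1 (not_crossed_of_cons this)
        · rintro ⟨p, hp, h1, _⟩
          obtain ⟨s, hs⟩ := hp
          have : Red (i :: p) := by
            rw [← hs, ← List.cons_append] at hr'; exact hr'.left
          exact absurd h1 (not_crossed_of_cons this)
      · by_cases c2 : y = i ∧ z = (i : ℕ) + 1
        · obtain ⟨rfl, rfl⟩ := c2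
          have key : ∀ w : List (Fin n), Red (i :: w) →
              (Pos w x (i : ℕ) ((i : ℕ) + 1) ↔ Crossed w x i) := by
            intro w hw
            constructor
            · rintro ⟨p, hp, h1, _⟩
              obtain ⟨s, rfl⟩ := hp
              exact h1.mono hw.tail hxy
            · intro h1
              exact ⟨w, List.prefix_rfl, h1, not_crossed_of_cons hw⟩
          rw [key _ hw, key _ hr', crossed_of_pm hpm']
        · rw [pos_cons_iff (j := i) hxy c1, pos_cons_iff (j := i) hxy c1]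
          exact hag' _ _ _ (sw_lt _ _ _ hxy c1) (sw_lt _ _ _ hyz c2)
    exact Relation.EqvGen.trans _ _ _ (h12.cons i) (Relation.EqvGen.symm _ _ h6)

end Pool.Agent.Helper24.QTangent
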