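import Pool.Agent.Helper24.QTangent.Basic

/-!
# The quantum group `U_q(sl_{n+1})`: definitions

Generators and relations, coproduct, counit, the vector representation and Lusztig's braid
automorphisms.  Everything is over `ℂ`, with a complex parameter `q` satisfying `q ≠ 0` and
`q ^ 2 ≠ 1` (in the problem `q` is a positive real number different from `1`).
-/

namespace Pool.Agent.Helper24.QTangent

open scoped TensorProduct

/-- The generators `E_i, F_i, K_i, K_i⁻¹` (`i : Fin n`) of `U_q(sl_{n+1})`. -/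
inductive Gen (n : ℕ) : Type
  | E (i : Fin n) : Gen n
  | F (i : Fin n) : Gen n
  | K (i : Fin n) : Gen n
  | L (i : Fin n) : Gen n

/-- The generator of the free algebra. -/
abbrev gen {n : ℕ} (x : Gen n) : FreeAlgebra ℂ (Gen n) := FreeAlgebra.ι ℂ x

open Gen in
/-- The defining relations of the Drinfeld-Jimbo quantum group `U_q(sl_{n+1})`
(`L i` stands for the inverse of `K i`). -/
inductive Rel (n : ℕ) (q : ℂ) : FreeAlgebra ℂ (Gen n) → FreeAlgebra ℂ (Gen n) → Prop
  | KL (i : Fin n) : Rel n q (gen (K i) * gen (L i)) 1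
  | LK (i : Fin n) : Rel n q (gen (L i) * gen (K i)) 1
  | KK (i j : Fin n) : Rel n q (gen (K i) * gen (K j)) (gen (K j) * gen (K i))
  | KE (i j : Fin n) : Rel n q (gen (K i) * gen (E j)) (q ^ (cartan i j) • (gen (E j) * gen (K i)))
  | KF (i j : Fin n) :
      Rel n q (gen (K i) * gen (F j)) (q ^ (-cartan i j) • (gen (F j) * gen (K i)))
  | EF (i : Fin n) : Rel n q (gen (E i) * gen (F i) - gen (F i) * gen (E i))
      ((q - q⁻¹)⁻¹ • (gen (K i) - gen (L i)))
  | EFne (i j : Fin n) (h : i ≠ j) : Rel n q (gen (E i) * gen (F j)) (gen (F j) * gen (E i))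
  | EE (i j : Fin n) (h : cartan i j = 0) :
      Rel n q (gen (E i) * gen (E j)) (gen (E j) * gen (E i))
  | FF (i j : Fin n) (h : cartan i j = 0) :
      Rel n q (gen (F i) * gen (F j)) (gen (F j) * gen (F i))
  | SE (i j : Fin n) (h : cartan i j = -1) :
      Rel n q (gen (E i) * gen (E i) * gen (E j) + gen (E j) * gen (E i) * gen (E i))
        ((q + q⁻¹) • (gen (E i) * gen (E j) * gen (E i)))
  | SF (i j : Fin n) (h : cartan i j = -1) :
      Rel n q (gen (F i) * gen (F i) * gen (F j) + gen (F j) * gen (F i) * gen (F i))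
        ((q + q⁻¹) • (gen (F i) * gen (F j) * gen (F i)))

/-- The quantum group `U_q(sl_{n+1})`. -/
def U (n : ℕ) (q : ℂ) : Type := RingQuot (Rel n q)

noncomputable instance (n : ℕ) (q : ℂ) : Ring (U n q) := inferInstanceAs (Ring (RingQuot (Rel n q)))
noncomputable instance (n : ℕ) (q : ℂ) : Algebra ℂ (U n q) :=
  inferInstanceAs (Algebra ℂ (RingQuot (Rel n q)))

variable {n : ℕ} {q : ℂ}

/-- The quotient map from the free algebra. -/
noncomputable def proj (n : ℕ) (q : ℂ) : FreeAlgebra ℂ (Gen n) →ₐ[ℂ] U n q :=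
  RingQuot.mkAlgHom ℂ (Rel n q)

/-- The generator `E_i`. -/
noncomputable def E (n : ℕ) (q : ℂ) (i : Fin n) : U n q := proj n q (gen (Gen.E i))
/-- The generator `F_i`. -/
noncomputable def F (n : ℕ) (q : ℂ) (i : Fin n) : U n q := proj n q (gen (Gen.F i))
/-- The generator `K_i`. -/
noncomputable def K (n : ℕ) (q : ℂ) (i : Fin n) : U n q := proj n q (gen (Gen.K i))
/-- The generator `K_i⁻¹`. -/
noncomputable def L (n : ℕ) (q : ℂ) (i : Fin n) : U n q := proj n q (gen (Gen.L i))

theorem proj_rel {x y : FreeAlgebra ℂ (Gen n)} (h : Rel n q x y) : proj n q x = proj n q y :=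
  RingQuot.mkAlgHom_rel ℂ h

theorem K_mul_L (i : Fin n) : K n q i * L n q i = 1 := by
  simpa [K, L] using proj_rel (q := q) (Rel.KL i)

theorem L_mul_K (i : Fin n) : L n q i * K n q i = 1 := by
  simpa [K, L] using proj_rel (q := q) (Rel.LK i)

theorem K_mul_K (i j : Fin n) : K n q i * K n q j = K n q j * K n q i := by
  simpa [K, L] using proj_rel (q := q) (Rel.KK i j)

theorem K_mul_E (i j : Fin n) : K n q i * E n q j = q ^ (cartan i j) • (E n q j * K n q i) := by
  simpa [K, E] using proj_rel (q := q) (Rel.KE i j)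

theorem K_mul_F (i j : Fin n) : K n q i * F n q j = q ^ (-cartan i j) • (F n q j * K n q i) := by
  simpa [K, F] using proj_rel (q := q) (Rel.KF i j)

theorem EF_comm (i : Fin n) : E n q i * F n q i - F n q i * E n q i =
    (q - q⁻¹)⁻¹ • (K n q i - L n q i) := by
  simpa [K, L, E, F] using proj_rel (q := q) (Rel.EF i)

theorem EF_ne (i j : Fin n) (h : i ≠ j) : E n q i * F n q j = F n q j * E n q i := by
  simpa [E, F] using proj_rel (q := q) (Rel.EFne i j h)

theorem EE_comm (i j : Fin n) (h : cartan i j = 0) : E n q i * E n q j = E n q j * E n q i := by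
  simpa [E, F] using proj_rel (q := q) (Rel.EE i j h)

theorem FF_comm (i j : Fin n) (h : cartan i j = 0) : F n q i * F n q j = F n q j * F n q i := by
  simpa [E, F] using proj_rel (q := q) (Rel.FF i j h)

theorem serreE (i j : Fin n) (h : cartan i j = -1) :
    E n q i * E n q i * E n q j + E n q j * E n q i * E n q i =
      (q + q⁻¹) • (E n q i * E n q j * E n q i) := by
  simpa [E, F] using proj_rel (q := q) (Rel.SE i j h)

theorem serreF (i j : Fin n) (h : cartan i j = -1) :
    F n q i * F n q i * F n q j + F n q j * F n q i * F n q i =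
      (q + q⁻¹) • (F n q i * F n q j * F n q i) := by
  simpa [E, F] using proj_rel (q := q) (Rel.SF i j h)

section Lift

variable {A : Type*} [Ring A] [Algebra ℂ A]

/-- The data of an algebra homomorphism out of `U_q(sl_{n+1})`: images of the generators
satisfying the defining relations. -/
structure LiftData (n : ℕ) (q : ℂ) (A : Type*) [Ring A] [Algebra ℂ A] where
  e : Fin n → A
  f : Fin n → A
  k : Fin n → A
  l : Fin n → A
  kl : ∀ i, k i * l i = 1
  lk : ∀ i, l i * k i = 1
  kk : ∀ i j, k i * k j = k j * k i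
  ke : ∀ i j, k i * e j = q ^ (cartan i j) • (e j * k i)
  kf : ∀ i j, k i * f j = q ^ (-cartan i j) • (f j * k i)
  ef : ∀ i, e i * f i - f i * e i = (q - q⁻¹)⁻¹ • (k i - l i)
  efne : ∀ i j, i ≠ j → e i * f j = f j * e i
  ee : ∀ i j, cartan i j = 0 → e i * e j = e j * e i
  ff : ∀ i j, cartan i j = 0 → f i * f j = f j * f i
  se : ∀ i j, cartan i j = -1 → e i * e i * e j + e j * e i * e i = (q + q⁻¹) • (e i * e j * e i)
  sf : ∀ i j, cartan i j = -1 → f i * f i * f j + f j * f i * f i = (q + q⁻¹) • (f i * f j * f i)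

/-- The map on generators. -/
def LiftData.onGen (D : LiftData n q A) : Gen n → A
  | Gen.E i => D.e i
  | Gen.F i => D.f i
  | Gen.K i => D.k i
  | Gen.L i => D.l i

theorem LiftData.resp (D : LiftData n q A) ⦃x y : FreeAlgebra ℂ (Gen n)⦄ (h : Rel n q x y) :
    FreeAlgebra.lift ℂ D.onGen x = FreeAlgebra.lift ℂ D.onGen y := by
  cases h with
  | KL i => simpa [LiftData.onGen] using D.kl i
  | LK i => simpa [LiftData.onGen] using D.lk i
  | KK i j => simpa [LiftData.onGen] using D.kk i j
  | KE i j => simpa [LiftData.onGen] using D.ke i j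
  | KF i j => simpa [LiftData.onGen] using D.kf i j
  | EF i => simpa [LiftData.onGen] using D.ef i
  | EFne i j h => simpa [LiftData.onGen] using D.efne i j h
  | EE i j h => simpa [LiftData.onGen] using D.ee i j h
  | FF i j h => simpa [LiftData.onGen] using D.ff i j h
  | SE i j h => simpa [LiftData.onGen] using D.se i j h
  | SF i j h => simpa [LiftData.onGen] using D.sf i j h

/-- The algebra homomorphism out of `U_q(sl_{n+1})` with prescribed values on generators. -/
noncomputable def LiftData.lift (D : LiftData n q A) : U n q →ₐ[ℂ] A :=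
  RingQuot.liftAlgHom ℂ ⟨FreeAlgebra.lift ℂ D.onGen, D.resp⟩

theorem LiftData.lift_proj (D : LiftData n q A) (x : FreeAlgebra ℂ (Gen n)) :
    D.lift (proj n q x) = FreeAlgebra.lift ℂ D.onGen x := by
  exact RingQuot.liftAlgHom_mkAlgHom_apply ℂ (FreeAlgebra.lift ℂ D.onGen) D.resp x

@[simp] theorem LiftData.lift_E (D : LiftData n q A) (i : Fin n) : D.lift (E n q i) = D.e i := by
  rw [E, D.lift_proj]; simp [LiftData.onGen]

@[simp] theorem LiftData.lift_F (D : LiftData n q A) (i : Fin n) : D.lift (F n q i) = D.f i := by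
  rw [F, D.lift_proj]; simp [LiftData.onGen]

@[simp] theorem LiftData.lift_K (D : LiftData n q A) (i : Fin n) : D.lift (K n q i) = D.k i := by
  rw [K, D.lift_proj]; simp [LiftData.onGen]

@[simp] theorem LiftData.lift_L (D : LiftData n q A) (i : Fin n) : D.lift (L n q i) = D.l i := by
  rw [L, D.lift_proj]; simp [LiftData.onGen]

end Lift

/-- Two algebra homomorphisms out of `U` agreeing on the generators are equal. -/
theorem hom_ext {A : Type*} [Ring A] [Algebra ℂ A] {φ ψ : U n q →ₐ[ℂ] A}
    (hE : ∀ i, φ (E n q i) = ψ (E n q i)) (hF : ∀ i, φ (F n q i) = ψ (F n q i))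
    (hK : ∀ i, φ (K n q i) = ψ (K n q i)) (hL : ∀ i, φ (L n q i) = ψ (L n q i)) : φ = ψ := by
  have h : φ.comp (proj n q) = ψ.comp (proj n q) := by
    apply FreeAlgebra.hom_ext
    funext x
    cases x with
    | E i => exact hE i
    | F i => exact hF i
    | K i => exact hK i
    | L i => exact hL i
  have hs : Function.Surjective (proj n q) := RingQuot.mkAlgHom_surjective ℂ (Rel n q)
  ext x
  obtain ⟨y, rfl⟩ := hs x
  exact DFunLike.congr_fun h y


/-! ### Basic consequences of the relations -/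

theorem cartan_comm {n : ℕ} (i j : Fin n) : cartan i j = cartan j i := by
  unfold cartan
  by_cases h : i = j
  · simp [h]
  · have h' : ¬ j = i := fun e => h e.symm
    simp only [h, h', if_false]
    congr 1
    exact propext or_comm

theorem cartan_self {n : ℕ} (i : Fin n) : cartan i i = 2 := by simp [cartan]

theorem zpow_mul_zpow_neg (hq : q ≠ 0) (a : ℤ) : q ^ a * q ^ (-a) = 1 := by
  rw [← zpow_add₀ hq]; simp

theorem zpow_neg_mul_zpow (hq : q ≠ 0) (a : ℤ) : q ^ (-a) * q ^ a = 1 := by
  rw [← zpow_add₀ hq]; simp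

/-- If `k` and `l` are mutually inverse and `k * x = c • (x * k)`, then `l * x = c⁻¹ • (x * l)`. -/
theorem inv_comm {A : Type*} [Ring A] [Algebra ℂ A] {k l x : A} {c d : ℂ} (hkl : k * l = 1)
    (hlk : l * k = 1) (hcd : d * c = 1) (h : k * x = c • (x * k)) : l * x = d • (x * l) := by
  have h1 : l * (k * x) * l = l * (c • (x * k)) * l := by rw [h]
  have h2 : l * (k * x) * l = x * l := by rw [← mul_assoc, hlk, one_mul]
  have h3 : l * (c • (x * k)) * l = c • (l * x) := by
    rw [mul_smul_comm, smul_mul_assoc, mul_assoc, mul_assoc, hkl, mul_one]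
  rw [h2, h3] at h1
  rw [h1, smul_smul, hcd, one_smul]

theorem L_mul_E (hq : q ≠ 0) (i j : Fin n) :
    L n q i * E n q j = q ^ (-cartan i j) • (E n q j * L n q i) :=
  inv_comm (K_mul_L i) (L_mul_K i) (zpow_neg_mul_zpow hq _) (K_mul_E i j)

theorem L_mul_F (hq : q ≠ 0) (i j : Fin n) :
    L n q i * F n q j = q ^ (cartan i j) • (F n q j * L n q i) :=
  inv_comm (K_mul_L i) (L_mul_K i) (zpow_mul_zpow_neg hq _) (K_mul_F i j)

theorem L_mul_K' (i j : Fin n) : L n q i * K n q j = K n q j * L n q i := by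
  have := inv_comm (x := K n q j) (c := 1) (d := 1) (K_mul_L (q := q) i) (L_mul_K i) (by simp)
    (by rw [one_smul]; exact K_mul_K i j)
  rwa [one_smul] at this

theorem L_mul_L (i j : Fin n) : L n q i * L n q j = L n q j * L n q i := by
  have := inv_comm (x := L n q j) (c := 1) (d := 1) (K_mul_L (q := q) i) (L_mul_K i) (by simp)
    (by rw [one_smul]; exact (L_mul_K' j i).symm)
  rwa [one_smul] at this

/-- The quantum Serre relation is additive under `q`-commutation. -/
theorem serre_add {R : Type*} [Ring R] [Algebra ℂ R] {q : ℂ} (hq : q ≠ 0) {a b c d : R}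
    (hab : a * b = q ^ 2 • (b * a)) (had : a * d = q⁻¹ • (d * a)) (hcb : c * b = q⁻¹ • (b * c))
    (h1 : a * a * c + c * a * a = (q + q⁻¹) • (a * c * a))
    (h2 : b * b * d + d * b * b = (q + q⁻¹) • (b * d * b)) :
    (a + b) * (a + b) * (c + d) + (c + d) * (a + b) * (a + b) =
      (q + q⁻¹) • ((a + b) * (c + d) * (a + b)) := by
  have hab' : ∀ x, a * (b * x) = q ^ 2 • (b * (a * x)) := fun x => by
    rw [← mul_assoc, hab, smul_mul_assoc, mul_assoc]
  have had' : ∀ x, a * (d * x) = q⁻¹ • (d * (a * x)) := fun x => by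
    rw [← mul_assoc, had, smul_mul_assoc, mul_assoc]
  have hcb' : ∀ x, c * (b * x) = q⁻¹ • (b * (c * x)) := fun x => by
    rw [← mul_assoc, hcb, smul_mul_assoc, mul_assoc]
  simp only [mul_assoc] at h1 h2
  have h1' : a * (a * c) = (q + q⁻¹) • (a * (c * a)) - c * (a * a) := by rw [← h1]; abel
  have h2' : b * (b * d) = (q + q⁻¹) • (b * (d * b)) - d * (b * b) := by rw [← h2]; abel
  simp only [add_mul, mul_add, smul_add, mul_assoc, hab, had, hcb, hab', had', hcb',
    smul_mul_assoc, mul_smul_comm, smul_smul, h1', h2']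
  match_scalars <;> field_simp <;> ring

/-! ### The coproduct -/

/-- The images of the generators under the coproduct
`Δ(K_i) = K_i ⊗ K_i`, `Δ(E_i) = E_i ⊗ K_i + 1 ⊗ E_i`, `Δ(F_i) = F_i ⊗ 1 + K_i⁻¹ ⊗ F_i`. -/
noncomputable def comulData (n : ℕ) (q : ℂ) (hq : q ≠ 0) :
    LiftData n q (U n q ⊗[ℂ] U n q) where
  e i := E n q i ⊗ₜ K n q i + 1 ⊗ₜ E n q i
  f i := F n q i ⊗ₜ 1 + L n q i ⊗ₜ F n q i
  k i := K n q i ⊗ₜ K n q i
  l i := L n q i ⊗ₜ L n q i
  kl i := by
    rw [Algebra.TensorProduct.tmul_mul_tmul, K_mul_L, Algebra.TensorProduct.one_def]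
  lk i := by
    rw [Algebra.TensorProduct.tmul_mul_tmul, L_mul_K, Algebra.TensorProduct.one_def]
  kk i j := by
    simp only [Algebra.TensorProduct.tmul_mul_tmul, K_mul_K i j]
  ke i j := by
    simp only [mul_add, add_mul, Algebra.TensorProduct.tmul_mul_tmul, K_mul_E, one_mul, mul_one,
      smul_add, TensorProduct.tmul_smul, TensorProduct.smul_tmul', K_mul_K i j]
  kf i j := by
    simp only [mul_add, add_mul, Algebra.TensorProduct.tmul_mul_tmul, K_mul_F, one_mul, mul_one,
      smul_add, TensorProduct.tmul_smul, TensorProduct.smul_tmul', L_mul_K' j i]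
  ef i := by
    have h1 : E n q i * F n q i = F n q i * E n q i + (q - q⁻¹)⁻¹ • (K n q i - L n q i) := by
      rw [← EF_comm]; abel
    simp only [mul_add, add_mul, Algebra.TensorProduct.tmul_mul_tmul, one_mul, mul_one, h1,
      L_mul_E hq, K_mul_F, TensorProduct.add_tmul, TensorProduct.tmul_add, TensorProduct.sub_tmul,
      TensorProduct.tmul_sub, ← TensorProduct.smul_tmul', TensorProduct.tmul_smul, smul_sub]
    abel
  efne i j h := by
    simp only [mul_add, add_mul, Algebra.TensorProduct.tmul_mul_tmul, one_mul, mul_one,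
      EF_ne i j h, L_mul_E hq, K_mul_F, TensorProduct.tmul_smul, ← TensorProduct.smul_tmul',
      cartan_comm j i]
    abel
  ee i j h := by
    simp only [mul_add, add_mul, Algebra.TensorProduct.tmul_mul_tmul, one_mul, mul_one,
      EE_comm i j h, K_mul_E, K_mul_K i j, h, cartan_comm j i, zpow_zero, one_smul]
    abel
  ff i j h := by
    simp only [mul_add, add_mul, Algebra.TensorProduct.tmul_mul_tmul, one_mul, mul_one,
      FF_comm i j h, L_mul_F hq, L_mul_L i j, h, cartan_comm j i, zpow_zero, one_smul]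
    abel
  se i j h := by
    apply serre_add hq
    · simp only [Algebra.TensorProduct.tmul_mul_tmul, one_mul, mul_one, K_mul_E, cartan_self,
        TensorProduct.tmul_smul]
      norm_cast
    · simp only [Algebra.TensorProduct.tmul_mul_tmul, one_mul, mul_one, K_mul_E, h,
        TensorProduct.tmul_smul, zpow_neg, zpow_one]
    · simp only [Algebra.TensorProduct.tmul_mul_tmul, one_mul, mul_one, K_mul_E,
        cartan_comm j i, h, TensorProduct.tmul_smul, zpow_neg, zpow_one]
    · simp only [Algebra.TensorProduct.tmul_mul_tmul]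
      have hk : K n q i * K n q i * K n q j = K n q j * K n q i * K n q i := by
        rw [mul_assoc, K_mul_K i j, ← mul_assoc, K_mul_K i j]
      have hk2 : K n q i * K n q j * K n q i = K n q j * K n q i * K n q i := by
        rw [K_mul_K i j]
      rw [hk, hk2, ← TensorProduct.add_tmul, serreE i j h, TensorProduct.smul_tmul']
    · simp only [Algebra.TensorProduct.tmul_mul_tmul, one_mul]
      rw [← TensorProduct.tmul_add, serreE i j h, TensorProduct.tmul_smul]
  sf i j h := by
    have hcomm : ∀ k, F n q k ⊗ₜ[ℂ] (1 : U n q) + L n q k ⊗ₜ[ℂ] F n q k =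
        L n q k ⊗ₜ[ℂ] F n q k + F n q k ⊗ₜ[ℂ] (1 : U n q) := fun k => add_comm _ _
    rw [hcomm i, hcomm j]
    apply serre_add hq
    · simp only [Algebra.TensorProduct.tmul_mul_tmul, one_mul, mul_one, L_mul_F hq, cartan_self,
        ← TensorProduct.smul_tmul']
      norm_cast
    · simp only [Algebra.TensorProduct.tmul_mul_tmul, one_mul, mul_one, L_mul_F hq, h,
        ← TensorProduct.smul_tmul', zpow_neg, zpow_one]
    · simp only [Algebra.TensorProduct.tmul_mul_tmul, one_mul, mul_one, L_mul_F hq,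
        cartan_comm j i, h, ← TensorProduct.smul_tmul', zpow_neg, zpow_one]
    · simp only [Algebra.TensorProduct.tmul_mul_tmul]
      have hk : L n q i * L n q i * L n q j = L n q j * L n q i * L n q i := by
        rw [mul_assoc, L_mul_L i j, ← mul_assoc, L_mul_L i j]
      have hk2 : L n q i * L n q j * L n q i = L n q j * L n q i * L n q i := by
        rw [L_mul_L i j]
      rw [hk, hk2, ← TensorProduct.tmul_add, serreF i j h, TensorProduct.tmul_smul]
    · simp only [Algebra.TensorProduct.tmul_mul_tmul, one_mul]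
      rw [← TensorProduct.add_tmul, serreF i j h, TensorProduct.smul_tmul']

/-- The coproduct of `U_q(sl_{n+1})`. -/
noncomputable def comul (n : ℕ) (q : ℂ) (hq : q ≠ 0) : U n q →ₐ[ℂ] U n q ⊗[ℂ] U n q :=
  (comulData n q hq).lift

/-- The counit: `ε(E_i) = ε(F_i) = 0`, `ε(K_i) = 1`. -/
noncomputable def counitData (n : ℕ) (q : ℂ) : LiftData n q ℂ where
  e _ := 0
  f _ := 0
  k _ := 1
  l _ := 1
  kl _ := by simp
  lk _ := by simp
  kk _ _ := by simp
  ke _ _ := by simp
  kf _ _ := by simp
  ef _ := by simp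
  efne _ _ _ := by simp
  ee _ _ _ := by simp
  ff _ _ _ := by simp
  se _ _ _ := by simp
  sf _ _ _ := by simp

/-- The counit of `U_q(sl_{n+1})`. -/
noncomputable def counit (n : ℕ) (q : ℂ) : U n q →ₐ[ℂ] ℂ := (counitData n q).lift

end Pool.Agent.Helper24.QTangent
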