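import Pool.Agent.Helper24.QTangent.Ribbon

/-!
# Triangular matrices attached to ribbons
-/

namespace Pool.Agent.Helper24.QTangent

variable {R : Type*} [Ring R] [Algebra ℂ R] {n : ℕ} {q : ℂ}

/-- The exponent of `q` in the action of `K_{(a,b)}` on the `r`-th basis vector. -/
def gz (a b r : ℕ) : ℤ := (if a = r then 1 else 0) - (if b = r then 1 else 0)

/-- A matrix with diagonal `q ^ … • X`, and otherwise supported on `a ≤ i < j ≤ b`. -/
structure Shp (q : ℂ) (a b : ℕ) (X : R) (M : Matrix (Fin (n + 1)) (Fin (n + 1)) R) : Prop where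
  dg : ∀ i : Fin (n + 1), M i i = q ^ gz a b i • X
  off : ∀ i j : Fin (n + 1), i ≠ j → ¬ (a ≤ (i : ℕ) ∧ (i : ℕ) < j ∧ (j : ℕ) ≤ b) → M i j = 0

section

variable {a b c : ℕ} {X Y : R} {M N : Matrix (Fin (n + 1)) (Fin (n + 1)) R}

theorem Shp.mul_dg (hM : Shp q a c X M) (hN : Shp q c b Y N) (i : Fin (n + 1)) :
    (M * N) i i = M i i * N i i := by
  rw [Matrix.mul_apply]
  apply Finset.sum_eq_single i
  · intro k _ hk
    by_cases h : a ≤ (i : ℕ) ∧ (i : ℕ) < k ∧ (k : ℕ) ≤ c
    · rw [hN.off k i hk (by omega), mul_zero]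
    · rw [hM.off i k hk.symm h, zero_mul]
  · simp

theorem Shp.mul_dg' (hM : Shp q a c X M) (hN : Shp q c b Y N) (i : Fin (n + 1)) :
    (N * M) i i = N i i * M i i := by
  rw [Matrix.mul_apply]
  apply Finset.sum_eq_single i
  · intro k _ hk
    by_cases h : c ≤ (i : ℕ) ∧ (i : ℕ) < k ∧ (k : ℕ) ≤ b
    · rw [hM.off k i hk (by omega), mul_zero]
    · rw [hN.off i k hk.symm h, zero_mul]
  · simp

theorem Shp.mul_hi (hM : Shp q a c X M) (i j : Fin (n + 1)) (hi : c ≤ (i : ℕ)) :
    (M * N) i j = M i i * N i j := by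
  rw [Matrix.mul_apply]
  apply Finset.sum_eq_single i
  · intro k _ hk
    rw [hM.off i k hk.symm (by omega), zero_mul]
  · simp

theorem Shp.mul_hi' (hM : Shp q a c X M) (i j : Fin (n + 1)) (hj : c < (j : ℕ)) :
    (N * M) i j = N i j * M j j := by
  rw [Matrix.mul_apply]
  apply Finset.sum_eq_single j
  · intro k _ hk
    rw [hM.off k j hk (by omega), mul_zero]
  · simp

theorem Shp.mul_lo (hN : Shp q c b Y N) (i j : Fin (n + 1)) (hj : (j : ℕ) ≤ c) :
    (M * N) i j = M i j * N j j := by
  rw [Matrix.mul_apply]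
  apply Finset.sum_eq_single j
  · intro k _ hk
    rw [hN.off k j hk (by omega), mul_zero]
  · simp

theorem Shp.mul_lo' (hN : Shp q c b Y N) (i j : Fin (n + 1)) (hi : (i : ℕ) < c) :
    (N * M) i j = N i i * M i j := by
  rw [Matrix.mul_apply]
  apply Finset.sum_eq_single i
  · intro k _ hk
    rw [hN.off i k hk.symm (by omega), zero_mul]
  · simp

theorem Shp.mul_mid (hM : Shp q a c X M) (hN : Shp q c b Y N) (i j k : Fin (n + 1))
    (hi : (i : ℕ) < c) (hj : c < (j : ℕ)) (hk : (k : ℕ) = c) :
    (M * N) i j = M i k * N k j := by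
  rw [Matrix.mul_apply]
  apply Finset.sum_eq_single k
  · intro l _ hl
    have hl' : (l : ℕ) ≠ c := fun e => hl (Fin.ext (e.trans hk.symm))
    by_cases h : l = i
    · subst h
      rw [hN.off l j (fun e => by rw [e] at hi; omega) (by omega), mul_zero]
    · by_cases h2 : (l : ℕ) ≤ c
      · rw [hN.off l j (fun e => by rw [e] at h2; omega) (by omega), mul_zero]
      · rw [hM.off i l (Ne.symm h) (by omega), zero_mul]
  · simp

theorem Shp.mul_mid' (hM : Shp q a c X M) (hN : Shp q c b Y N) (i j : Fin (n + 1))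
    (hi : (i : ℕ) < c) (hj : c < (j : ℕ)) : (N * M) i j = 0 := by
  rw [hN.mul_lo' i j hi, hM.off i j (fun e => by rw [e] at hi; omega) (by omega), mul_zero]

theorem Shp.mul_neg (hM : Shp q a c X M) (hN : Shp q c b Y N) (i j : Fin (n + 1))
    (hij : (j : ℕ) < i) : (M * N) i j = 0 := by
  rw [Matrix.mul_apply]
  apply Finset.sum_eq_zero
  intro k _
  by_cases h : k = i
  · subst h
    rw [hN.off k j (fun e => by rw [e] at hij; omega) (by omega), mul_zero]
  · by_cases h2 : (i : ℕ) < k
    · rw [hN.off k j (fun e => by rw [e] at h2; omega) (by omega), mul_zero]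
    · rw [hM.off i k (Ne.symm h) (by omega), zero_mul]

theorem Shp.mul_neg' (hM : Shp q a c X M) (hN : Shp q c b Y N) (i j : Fin (n + 1))
    (hij : (j : ℕ) < i) : (N * M) i j = 0 := by
  rw [Matrix.mul_apply]
  apply Finset.sum_eq_zero
  intro k _
  by_cases h : k = i
  · subst h
    rw [hM.off k j (fun e => by rw [e] at hij; omega) (by omega), mul_zero]
  · by_cases h2 : (i : ℕ) < k
    · rw [hM.off k j (fun e => by rw [e] at h2; omega) (by omega), mul_zero]
    · rw [hN.off i k (Ne.symm h) (by omega), zero_mul]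

theorem gz_add (a b c r : ℕ) : gz a c r + gz c b r = gz a b r := by
  unfold gz; ring

theorem cs_apply_zero (s : Bool) (i j : Fin (n + 1)) (h1 : (M * N) i j = 0)
    (h2 : (N * M) i j = 0) : cs q s M N i j = 0 := by
  cases s <;> simp [cs, cm, h1, h2]

theorem Shp.cs (hq : q ≠ 0) (hac : a < c) (hcb : c < b) (hc : c ≤ n) (hM : Shp q a c X M)
    (hN : Shp q c b Y N) (s : Bool) : Shp q a b (cs q s X Y) (cs q s M N) where
  dg i := by
    rw [← gz_add a b c, zpow_add₀ hq]
    cases s
    · simp only [QTangent.cs, Bool.false_eq_true, if_false, cm, Matrix.sub_apply,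
        Matrix.smul_apply, hM.mul_dg hN, hM.mul_dg' hN, hM.dg, hN.dg, smul_mul_assoc,
        mul_smul_comm, smul_smul, smul_sub]
      congr 2 <;> ring
    · simp only [QTangent.cs, if_true, cm, Matrix.sub_apply,
        Matrix.smul_apply, hM.mul_dg hN, hM.mul_dg' hN, hM.dg, hN.dg, smul_mul_assoc,
        mul_smul_comm, smul_smul, smul_sub]
      congr 2 <;> ring
  off i j hij h := by
    have hij' : (i : ℕ) ≠ j := fun e => hij (Fin.ext e)
    by_cases h1 : (j : ℕ) < i
    · exact cs_apply_zero _ _ _ (hM.mul_neg hN i j h1) (hM.mul_neg' hN i j h1)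
    · by_cases h2 : (i : ℕ) < a
      · by_cases h3 : (j : ℕ) ≤ c
        · apply cs_apply_zero
          · rw [hN.mul_lo i j h3, hM.off i j hij (by omega), zero_mul]
          · rw [hN.mul_lo' i j (by omega), hM.off i j hij (by omega), mul_zero]
        · apply cs_apply_zero
          · rw [hM.mul_mid hN i j ⟨c, by omega⟩ (by omega) (by omega) rfl,
              hM.off i _ (fun e => by rw [e] at h2; simp at h2; omega) (by simp; omega), zero_mul]
          · exact hM.mul_mid' hN i j (by omega) (by omega)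
      · have h4 : b < (j : ℕ) := by omega
        by_cases h3 : c ≤ (i : ℕ)
        · apply cs_apply_zero
          · rw [hM.mul_hi i j h3, hN.off i j hij (by omega), mul_zero]
          · rw [hM.mul_hi' i j (by omega), hN.off i j hij (by omega), zero_mul]
        · apply cs_apply_zero
          · rw [hM.mul_mid hN i j ⟨c, by omega⟩ (by omega) (by omega) rfl,
              hN.off _ j (fun e => by rw [← e] at h4; simp at h4; omega) (by simp; omega),
              mul_zero]
          · exact hM.mul_mid' hN i j (by omega) (by omega)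

/-- The corner entry. -/
theorem Shp.corner (hM : Shp q a c X M) (hN : Shp q c b Y N) (s : Bool) (i j k : Fin (n + 1))
    (hi : (i : ℕ) < c) (hj : c < (j : ℕ)) (hk : (k : ℕ) = c) :
    QTangent.cs q s M N i j = (if s then (1 : ℂ) else -q⁻¹) • (M i k * N k j) := by
  cases s
  · simp only [QTangent.cs, Bool.false_eq_true, if_false, cm, Matrix.sub_apply,
      Matrix.smul_apply, hM.mul_mid hN i j k hi hj hk, hM.mul_mid' hN i j hi hj, zero_sub,
      neg_smul]
  · simp only [QTangent.cs, if_true, cm, Matrix.sub_apply,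
      Matrix.smul_apply, hM.mul_mid hN i j k hi hj hk, hM.mul_mid' hN i j hi hj, smul_zero,
      sub_zero, one_smul]

theorem gz_left {a b : ℕ} (h : a ≠ b) : gz a b a = 1 := by
  unfold gz; rw [if_pos rfl, if_neg h.symm]; rfl

theorem gz_right {a b : ℕ} (h : a ≠ b) : gz a b b = -1 := by
  unfold gz; rw [if_neg h, if_pos rfl]; rfl

theorem gz_out {a b r : ℕ} (h : r ≠ a) (h' : r ≠ b) : gz a b r = 0 := by
  unfold gz; rw [if_neg h.symm, if_neg h'.symm]; rfl

/-- The entry `(i, c)` when `M i c` is a scalar. -/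
theorem Shp.entry_left (hq : q ≠ 0) (hcb : c < b) (hN : Shp q c b Y N)
    (s : Bool) (i k : Fin (n + 1)) (hi : (i : ℕ) < c) (hk : (k : ℕ) = c) (r : ℂ)
    (hr : M i k = r • 1) :
    QTangent.cs q s M N i k = (if s then r * (q - q⁻¹) else 0) • Y := by
  have h1 : (M * N) i k = M i k * N k k := hN.mul_lo i k hk.le
  have h2 : (N * M) i k = N i i * M i k := hN.mul_lo' i k hi
  have h3 : N k k = q • Y := by rw [hN.dg, hk, gz_left (by omega), zpow_one]
  have h4 : N i i = Y := by rw [hN.dg, gz_out (by omega) (by omega), zpow_zero, one_smul]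
  rw [h3, hr] at h1
  rw [h4, hr] at h2
  cases s
  · simp only [QTangent.cs, Bool.false_eq_true, if_false, cm, Matrix.sub_apply,
      Matrix.smul_apply, h1, h2, smul_mul_assoc, one_mul, mul_smul_comm, mul_one, smul_smul,
      zero_smul]
    rw [mul_comm q r, ← mul_assoc, mul_comm q⁻¹ r, mul_assoc, inv_mul_cancel₀ hq, mul_one,
      sub_self]
  · simp only [QTangent.cs, if_true, cm, Matrix.sub_apply,
      Matrix.smul_apply, h1, h2, smul_mul_assoc, one_mul, mul_smul_comm, mul_one, smul_smul]
    rw [← sub_smul]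
    congr 1; ring

/-- The entry `(c, j)` for the sign minus. -/
theorem Shp.entry_row (hac : a < c) (hM : Shp q a c X M) (k j : Fin (n + 1)) (hk : (k : ℕ) = c)
    (hj : c < (j : ℕ)) :
    QTangent.cs q false M N k j = N k j * X - (q⁻¹ * q⁻¹) • (X * N k j) := by
  have h1 : (M * N) k j = M k k * N k j := hM.mul_hi k j hk.ge
  have h2 : (N * M) k j = N k j * M j j := hM.mul_hi' k j hj
  have h3 : M k k = q⁻¹ • X := by rw [hM.dg, hk, gz_right (by omega), zpow_neg_one]
  have h4 : M j j = X := by rw [hM.dg, gz_out (by omega) (by omega), zpow_zero, one_smul]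
  simp only [QTangent.cs, Bool.false_eq_true, if_false, cm, Matrix.sub_apply,
      Matrix.smul_apply, h1, h2, h3, h4, smul_mul_assoc, smul_smul]

end

end Pool.Agent.Helper24.QTangent
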