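import Pool.Agent.Helper24.QTangent.Rep
import Pool.Agent.Helper24.QTangent.Shape

/-!
# Matrix entries of `Φ` on ribbons
-/

namespace Pool.Agent.Helper24.QTangent

open scoped TensorProduct

variable {n : ℕ} {q : ℂ}

/-- The ribbon of the root `(a, b)` with sign function `ε`. -/
noncomputable def rb (n : ℕ) (q : ℂ) (ε : ℕ → Bool) (a b : ℕ) : U n q :=
  rib q (Es n q) ε a (b - a - 1)

theorem rb_simple (ε : ℕ → Bool) (a : ℕ) : rb n q ε a (a + 1) = Es n q a := by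
  unfold rb
  have : a + 1 - a - 1 = 0 := by omega
  rw [this]; rfl

theorem rb_succ (ε : ℕ → Bool) {a b : ℕ} (h : a < b) :
    rb n q ε a (b + 1) = cs q (ε b) (rb n q ε a b) (Es n q b) := by
  obtain ⟨k, rfl⟩ : ∃ k, b = a + k + 1 := ⟨b - a - 1, by omega⟩
  unfold rb
  have h1 : a + k + 1 + 1 - a - 1 = k + 1 := by omega
  have h2 : a + k + 1 - a - 1 = k := by omega
  rw [h1, h2]; rfl

theorem rb_split (ε : ℕ → Bool) {a b c : ℕ} (h : a < c) (h' : c < b) :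
    rb n q ε a b = cs q (ε c) (rb n q ε a c) (rb n q ε c b) := by
  obtain ⟨k, rfl⟩ : ∃ k, c = a + k + 1 := ⟨c - a - 1, by omega⟩
  obtain ⟨l, rfl⟩ : ∃ l, b = a + k + 1 + l + 1 := ⟨b - (a + k + 1) - 1, by omega⟩
  unfold rb
  have h1 : a + k + 1 + l + 1 - a - 1 = k + 1 + l := by omega
  have h2 : a + k + 1 - a - 1 = k := by omega
  have h3 : a + k + 1 + l + 1 - (a + k + 1) - 1 = l := by omega
  rw [h1, h2, h3, rib_split far_Es]

theorem rb_congr {ε ε' : ℕ → Bool} {a b : ℕ} (h : ∀ c, a < c → c < b → ε c = ε' c) :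
    rb n q ε a b = rb n q ε' a b := by
  unfold rb
  exact rib_congr _ _ (fun _ _ _ => rfl) fun c h1 h2 => h c h1 (by omega)

theorem rb_comm (ε : ℕ → Bool) {a b : ℕ} (t : U n q)
    (h : ∀ j, a ≤ j → j < b → Es n q j * t = t * Es n q j) (hab : a < b) :
    rb n q ε a b * t = t * rb n q ε a b := by
  unfold rb
  exact rib_comm _ _ _ fun j h1 h2 => h j h1 (by omega)

theorem rb_induction {a b : ℕ} {P : ℕ → Prop} (hab : a < b)
    (h0 : P (a + 1)) (h1 : ∀ c, a < c → c < b → P c → P (c + 1)) : P b := by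
  obtain ⟨k, rfl⟩ : ∃ k, b = a + k + 1 := ⟨b - a - 1, by omega⟩
  induction k with
  | zero => exact h0
  | succ k ih =>
    exact h1 _ (by omega) (by omega) (ih (by omega) fun c h2 h3 => h1 c h2 (by omega))

section

variable (hq : q ≠ 0) (hq2 : q ^ 2 ≠ 1)

theorem shp_Es {a : ℕ} (ha : a < n) : Shp q a (a + 1) (Es n q a) (phi hq hq2 (Es n q a)) := by
  have h : Es n q a = E n q ⟨a, ha⟩ := by simp [Es, ha]
  have hne : ∀ r : Fin (n + 1), ¬ (r = (⟨a, ha⟩ : Fin n).castSucc ∧ r = (⟨a, ha⟩ : Fin n).succ) := by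
    rintro r ⟨h1, h2⟩
    have := congrArg Fin.val (h1.symm.trans h2)
    simp at this
  constructor
  · intro i
    rw [h, phi_E, if_neg (hne i), zero_smul, add_zero, if_pos rfl]
    rfl
  · intro i j hij h2
    rw [h, phi_E, if_neg hij, zero_smul, zero_add, if_neg, zero_smul]
    rintro ⟨rfl, rfl⟩
    apply h2
    simp

theorem shp_rb (ε : ℕ → Bool) {a b : ℕ} (hab : a < b) (hb : b ≤ n) :
    Shp q a b (rb n q ε a b) (phi hq hq2 (rb n q ε a b)) := by
  revert hb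
  refine rb_induction (P := fun b => b ≤ n → Shp q a b (rb n q ε a b) (phi hq hq2 (rb n q ε a b)))
    hab ?_ ?_
  · intro hb
    rw [rb_simple]; exact shp_Es hq hq2 (by omega)
  · intro c h1 _ ih hc
    rw [rb_succ ε h1, map_cs]
    exact (ih (by omega)).cs hq h1 (by omega) (by omega) (shp_Es hq hq2 (by omega)) _

theorem phi_Es_corner {a : ℕ} (ha : a < n) (i j : Fin (n + 1)) (hi : (i : ℕ) = a)
    (hj : (j : ℕ) = a + 1) : phi hq hq2 (Es n q a) i j = 1 := by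
  have h : Es n q a = E n q ⟨a, ha⟩ := by simp [Es, ha]
  have h1 : i = (⟨a, ha⟩ : Fin n).castSucc := Fin.ext (by simpa using hi)
  have h2 : j = (⟨a, ha⟩ : Fin n).succ := Fin.ext (by simpa using hj)
  have h3 : ¬ i = j := fun e => by rw [e] at hi; omega
  rw [h, phi_E, if_neg h3, zero_smul, zero_add, if_pos ⟨h1, h2⟩, one_smul]

theorem rb_corner (ε : ℕ → Bool) {a b : ℕ} (hab : a < b) (hb : b ≤ n) :
    ∃ r : ℂ, r ≠ 0 ∧ ∀ i j : Fin (n + 1), (i : ℕ) = a → (j : ℕ) = b →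
      phi hq hq2 (rb n q ε a b) i j = r • 1 := by
  revert hb
  refine rb_induction (P := fun b => b ≤ n → ∃ r : ℂ, r ≠ 0 ∧ ∀ i j : Fin (n + 1),
    (i : ℕ) = a → (j : ℕ) = b → phi hq hq2 (rb n q ε a b) i j = r • 1) hab ?_ ?_
  · intro hb
    refine ⟨1, one_ne_zero, fun i j hi hj => ?_⟩
    rw [rb_simple, one_smul]; exact phi_Es_corner hq hq2 (by omega) i j hi hj
  · intro c h1 _ ih hc
    obtain ⟨r, hr, hr'⟩ := ih (by omega)
    refine ⟨(if ε c then 1 else -q⁻¹) * r, mul_ne_zero ?_ hr, fun i j hi hj => ?_⟩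
    · split_ifs
      · exact one_ne_zero
      · exact neg_ne_zero.mpr (inv_ne_zero hq)
    · rw [rb_succ ε h1, map_cs, (shp_rb hq hq2 ε h1 (by omega)).corner
        (shp_Es hq hq2 (by omega)) _ i j ⟨c, by omega⟩ (by omega) (by omega) rfl,
        hr' i ⟨c, by omega⟩ hi rfl,
        phi_Es_corner hq hq2 (a := c) (by omega) ⟨c, by omega⟩ j rfl hj, mul_one, smul_smul]

theorem rho_Es {a : ℕ} (ha : a < n) : rho n q hq hq2 (Es n q a) =
    Matrix.single ⟨a, by omega⟩ ⟨a + 1, by omega⟩ 1 := by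
  have h : Es n q a = E n q ⟨a, ha⟩ := by simp [Es, ha]
  rw [h]; unfold rho; rw [LiftData.lift_E]; rfl

theorem rho_rb (ε : ℕ → Bool) {a b : ℕ} (hab : a < b) (hb : b ≤ n) :
    ∃ r : ℂ, r ≠ 0 ∧ ∀ i j : Fin (n + 1), (i : ℕ) = a → (j : ℕ) = b →
      rho n q hq hq2 (rb n q ε a b) = r • Matrix.single i j 1 := by
  revert hb
  refine rb_induction (P := fun b => b ≤ n → ∃ r : ℂ, r ≠ 0 ∧ ∀ i j : Fin (n + 1),
    (i : ℕ) = a → (j : ℕ) = b → rho n q hq hq2 (rb n q ε a b) = r • Matrix.single i j 1)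
    hab ?_ ?_
  · intro hb
    refine ⟨1, one_ne_zero, fun i j hi hj => ?_⟩
    rw [rb_simple, one_smul, rho_Es hq hq2 (by omega)]
    congr 1 <;> exact Fin.ext (by simp; omega)
  · intro c h1 _ ih hc
    obtain ⟨r, hr, hr'⟩ := ih (by omega)
    refine ⟨(if ε c then 1 else -q⁻¹) * r, mul_ne_zero ?_ hr, fun i j hi hj => ?_⟩
    · split_ifs
      · exact one_ne_zero
      · exact neg_ne_zero.mpr (inv_ne_zero hq)
    · have e1 : (⟨c + 1, by omega⟩ : Fin (n + 1)) = j := Fin.ext (by simp; omega)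
      rw [rb_succ ε h1, map_cs, hr' i ⟨c, by omega⟩ hi rfl, rho_Es hq hq2 (by omega), e1]
      have e2 : Matrix.single (⟨c, by omega⟩ : Fin (n + 1)) j (1 : ℂ) *
          Matrix.single i (⟨c, by omega⟩ : Fin (n + 1)) 1 = 0 :=
        Matrix.single_mul_single_of_ne _ _ _ _
          (fun e => by rw [e] at hj; omega) _
      have e3 : Matrix.single i (⟨c, by omega⟩ : Fin (n + 1)) (1 : ℂ) *
          Matrix.single (⟨c, by omega⟩ : Fin (n + 1)) j 1 = Matrix.single i j 1 := by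
        rw [Matrix.single_mul_single_same, mul_one]
      cases ε c
      · simp only [cs, Bool.false_eq_true, if_false, cm, smul_mul_assoc, mul_smul_comm, e2, e3,
          smul_zero, zero_sub, smul_smul, neg_mul, neg_smul]
      · simp only [cs, if_true, cm, smul_mul_assoc, mul_smul_comm, e2, e3,
          smul_zero, sub_zero, one_mul]

include hq hq2 in
theorem rb_ne_zero (ε : ℕ → Bool) {a b : ℕ} (hab : a < b) (hb : b ≤ n) :
    rb n q ε a b ≠ 0 := by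
  obtain ⟨r, hr, hr'⟩ := rho_rb hq hq2 ε hab hb
  intro h
  have h1 := hr' ⟨a, by omega⟩ ⟨b, by omega⟩ rfl rfl
  rw [h, map_zero] at h1
  have h2 := congrArg (fun M : Matrix (Fin (n + 1)) (Fin (n + 1)) ℂ =>
    M ⟨a, by omega⟩ ⟨b, by omega⟩) h1
  simp only [Matrix.zero_apply, Matrix.smul_apply, Matrix.single_apply_same, smul_eq_mul,
    mul_one] at h2
  exact hr h2.symm

/-- The entries `(a, c)` of `Φ` of the ribbon `(a, b)`. -/
theorem phi_entry_left (ε : ℕ → Bool) {a b c : ℕ} (hac : a < c) (hcb : c < b) (hb : b ≤ n) :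
    ∃ r : ℂ, r ≠ 0 ∧ phi hq hq2 (rb n q ε a b) ⟨a, by omega⟩ ⟨c, by omega⟩ =
      (if ε c then r else 0) • rb n q ε c b := by
  obtain ⟨r, hr, hr'⟩ := rb_corner hq hq2 ε hac (by omega : c ≤ n)
  refine ⟨r * (q - q⁻¹), mul_ne_zero hr (q_sub_ne hq hq2), ?_⟩
  rw [rb_split ε hac hcb, map_cs]
  exact (shp_rb hq hq2 ε hcb hb).entry_left hq hcb _ _ _ hac rfl r (hr' _ _ rfl rfl)

theorem one_sub_ne (hq : q ≠ 0) (hq2 : q ^ 2 ≠ 1) : 1 - q⁻¹ * q⁻¹ ≠ 0 := by
  intro h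
  apply q_sub_ne hq hq2
  have : q * (1 - q⁻¹ * q⁻¹) = 0 := by rw [h, mul_zero]
  rw [mul_sub, mul_one, ← mul_assoc, mul_inv_cancel₀ hq, one_mul] at this
  exact this

/-- The entry `(c, b)` of `Φ` of the ribbon `(a, b)` when the sign at `c` is minus. -/
theorem phi_entry_right (ε : ℕ → Bool) {a b c : ℕ} (hac : a < c) (hcb : c < b) (hb : b ≤ n)
    (hc : ε c = false) :
    ∃ r : ℂ, r ≠ 0 ∧ phi hq hq2 (rb n q ε a b) ⟨c, by omega⟩ ⟨b, by omega⟩ =
      r • rb n q ε a c := by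
  obtain ⟨r, hr, hr'⟩ := rb_corner hq hq2 ε hcb hb
  refine ⟨r * (1 - q⁻¹ * q⁻¹), mul_ne_zero hr (one_sub_ne hq hq2), ?_⟩
  rw [rb_split ε hac hcb, map_cs, hc,
    (shp_rb hq hq2 ε hac (by omega)).entry_row hac _ _ rfl hcb, hr' _ _ rfl rfl]
  rw [smul_mul_assoc, one_mul, mul_smul_comm, mul_one, smul_smul, ← sub_smul]
  congr 1; ring

/-- The entry `(c, c+1)` of `Φ` of the ribbon `(a, b)` when the signs at `c, c + 1` are
minus, plus. -/
theorem phi_entry_mid (ε : ℕ → Bool) {a b c : ℕ} (hac : a < c) (hcb : c + 1 < b) (hb : b ≤ n)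
    (hc : ε c = false) (hc1 : ε (c + 1) = true) :
    ∃ r : ℂ, r ≠ 0 ∧ phi hq hq2 (rb n q ε a b) ⟨c, by omega⟩ ⟨c + 1, by omega⟩ =
      r • (rb n q ε a c * rb n q ε (c + 1) b) := by
  obtain ⟨r, hr, hr'⟩ := phi_entry_left hq hq2 ε (Nat.lt_succ_self c) hcb hb
  refine ⟨r * (1 - q⁻¹ * q⁻¹), mul_ne_zero hr (one_sub_ne hq hq2), ?_⟩
  rw [rb_split ε hac (by omega : c < b), map_cs, hc,
    (shp_rb hq hq2 ε hac (by omega)).entry_row hac _ _ rfl (by simp), hr', if_pos hc1]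
  have hcomm : rb n q ε (c + 1) b * rb n q ε a c = rb n q ε a c * rb n q ε (c + 1) b := by
    apply rb_comm _ _ _ hcb
    intro j h1 _
    refine (rb_comm _ _ ?_ hac).symm
    intro i h3 h4
    exact far_Es i j (by omega)
  rw [smul_mul_assoc, mul_smul_comm, hcomm, smul_smul, ← sub_smul]
  congr 1; ring

include hq hq2 in
/-- The product `X_{(a,c)} X_{(c+1,b)}` is nonzero. -/
theorem mul_rb_ne_zero (ε : ℕ → Bool) {a b c : ℕ} (hac : a < c) (hcb : c + 1 < b) (hb : b ≤ n) :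
    rb n q ε a c * rb n q ε (c + 1) b ≠ 0 := by
  intro h
  obtain ⟨r, hr, hr'⟩ := rb_corner hq hq2 ε hac (by omega : c ≤ n)
  have h1 := congrArg (phi hq hq2) h
  rw [map_mul, map_zero] at h1
  have h2 := congrArg (fun M : Matrix (Fin (n + 1)) (Fin (n + 1)) (U n q) =>
    M ⟨a, by omega⟩ ⟨c, by omega⟩) h1
  rw [(shp_rb hq hq2 ε hcb hb).mul_lo _ _ (by simp), hr' _ _ rfl rfl,
    (shp_rb hq hq2 ε hcb hb).dg, gz_out (by simp) (by simp; omega), zpow_zero, one_smul,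
    smul_mul_assoc, one_mul, Matrix.zero_apply, smul_eq_zero] at h2
  rcases h2 with h2 | h2
  · exact hr h2
  · exact rb_ne_zero hq hq2 ε hcb hb h2

theorem rho_mul_rb (ε : ℕ → Bool) {a b c : ℕ} (hac : a < c) (hcb : c + 1 < b) (hb : b ≤ n) :
    rho n q hq hq2 (rb n q ε a c * rb n q ε (c + 1) b) = 0 := by
  obtain ⟨r, hr, hr'⟩ := rho_rb hq hq2 ε hac (by omega : c ≤ n)
  obtain ⟨s, hs, hs'⟩ := rho_rb hq hq2 ε hcb hb
  rw [map_mul, hr' ⟨a, by omega⟩ ⟨c, by omega⟩ rfl rfl,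
    hs' ⟨c + 1, by omega⟩ ⟨b, by omega⟩ rfl rfl, smul_mul_smul_comm,
    Matrix.single_mul_single_of_ne, smul_zero]
  intro e
  have := congrArg Fin.val e
  simp at this

end

end Pool.Agent.Helper24.QTangent
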