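import Pool.Agent.Helper24.QTangent.Comm

/-!
# Realising sign assignments by reduced words
-/

namespace Pool.Agent.Helper24.QTangent

variable {n : ℕ}

/-- The splitting condition for an abstract sign assignment. -/
def SplitP (n : ℕ) (P : ℕ → ℕ → ℕ → Prop) : Prop :=
  ∀ a b : ℕ, a < b → b ≤ n → ∃ m : ℕ, a ≤ m ∧ m < b ∧
    ∀ x y z : ℕ, a ≤ x → x < y → y < z → z ≤ b →
      (y ≤ m → m < z → P x y z) ∧ (x ≤ m → m < y → ¬ P x y z)

/-- All letters of `u` lie in `[a, b)`. -/
def InRange (a b : ℕ) (u : List (Fin n)) : Prop := ∀ i ∈ u, a ≤ (i : ℕ) ∧ (i : ℕ) < b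

theorem InRange.pm_fix {a b : ℕ} {u : List (Fin n)} (h : InRange a b u) {x : ℕ}
    (hx : x < a ∨ b < x) : pm u x = x := by
  induction u with
  | nil => simp
  | cons i u ih =>
    have h1 := h i List.mem_cons_self
    rw [pm_cons, Equiv.Perm.mul_apply, ih fun j hj => h j (List.mem_cons_of_mem _ hj),
      sw_apply_ne (by omega) (by omega)]

theorem InRange.pm_mem {a b : ℕ} {u : List (Fin n)} (h : InRange a b u) {x : ℕ}
    (hx : a ≤ x) (hx' : x ≤ b) : a ≤ pm u x ∧ pm u x ≤ b := by
  induction u with
  | nil => simpa using ⟨hx, hx'⟩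
  | cons i u ih =>
    have h1 := h i List.mem_cons_self
    have h2 := ih fun j hj => h j (List.mem_cons_of_mem _ hj)
    rw [pm_cons, Equiv.Perm.mul_apply, sw_eq]
    split_ifs <;> omega

theorem InRange.inv_fix {a b : ℕ} {u : List (Fin n)} (h : InRange a b u) {x : ℕ}
    (hx : x < a ∨ b < x) : (pm u)⁻¹ x = x := by
  rw [Equiv.Perm.inv_eq_iff_eq]; exact (h.pm_fix hx).symm

theorem InRange.inv_mem {a b : ℕ} {u : List (Fin n)} (h : InRange a b u) {x : ℕ}
    (hx : a ≤ x) (hx' : x ≤ b) : a ≤ (pm u)⁻¹ x ∧ (pm u)⁻¹ x ≤ b := by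
  by_contra hcon
  have h1 : (pm u)⁻¹ x < a ∨ b < (pm u)⁻¹ x := by omega
  have h2 := h.pm_fix h1
  have h3 : pm u ((pm u)⁻¹ x) = x := Equiv.apply_symm_apply _ _
  omega

theorem InRange.append {a b : ℕ} {u v : List (Fin n)} (h : InRange a b u) (h' : InRange a b v) :
    InRange a b (u ++ v) := by
  intro i hi
  rcases List.mem_append.mp hi with hi | hi
  · exact h i hi
  · exact h' i hi

theorem InRange.mono {a b a' b' : ℕ} {u : List (Fin n)} (h : InRange a b u) (h1 : a' ≤ a)
    (h2 : b ≤ b') : InRange a' b' u := fun i hi => by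
  have := h i hi; omega

theorem inRange_all (u : List (Fin n)) : InRange 0 n u := fun i _ => ⟨Nat.zero_le _, i.2⟩

theorem Red.length_le {u : List (Fin n)} (h : Red u) : u.length ≤ (n + 1) * (n + 1) := by
  rw [← h.card_invs]
  have h1 : invs u ⊆ Finset.range (n + 1) ×ˢ Finset.range (n + 1) := by
    intro p hp
    rw [mem_invs] at hp
    rw [Finset.mem_product, Finset.mem_range, Finset.mem_range]
    omega
  refine (Finset.card_le_card h1).trans ?_
  rw [Finset.card_product, Finset.card_range]

/-- Every reduced word with letters in `[a, b)` extends to one that reverses `[a, b]`. -/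
theorem exists_ext (a b : ℕ) (hb : b ≤ n) : ∀ (N : ℕ) (u : List (Fin n)),
    (n + 1) * (n + 1) - u.length = N → Red u → InRange a b u →
    ∃ v : List (Fin n), InRange a b v ∧ Red (u ++ v) ∧
      ∀ x, a ≤ x → x ≤ b → pm (u ++ v) x = a + b - x := by
  intro N
  induction N using Nat.strong_induction_on with
  | _ N ih =>
  intro u hN hr hu
  by_cases hex : ∃ i, a ≤ i ∧ i < b ∧ pm u i < pm u (i + 1)
  · obtain ⟨i, hi1, hi2, hi3⟩ := hex
    have hr' : Red (u ++ [(⟨i, by omega⟩ : Fin n)]) := red_snoc hr hi3
    have hl := hr'.length_le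
    rw [List.length_append, List.length_singleton] at hl
    obtain ⟨v, h1, h2, h3⟩ := ih _ (by rw [List.length_append, List.length_singleton]; omega)
      (u ++ [(⟨i, by omega⟩ : Fin n)]) rfl hr' (hu.append (by
        intro j hj
        rw [List.mem_singleton] at hj
        subst hj
        exact ⟨hi1, hi2⟩))
    refine ⟨⟨i, by omega⟩ :: v, ?_, ?_, ?_⟩
    · intro j hj
      rcases List.mem_cons.mp hj with rfl | hj
      · exact ⟨hi1, hi2⟩
      · exact h1 j hj
    · simpa using h2
    · simpa using h3
  · push Not at hex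
    have hdec : ∀ i, a ≤ i → i < b → pm u (i + 1) < pm u i := by
      intro i h1 h2
      have h3 := hex i h1 h2
      rcases Nat.lt_or_eq_of_le h3 with h | h
      · exact h
      · have := (pm u).injective h; omega
    refine ⟨[], ?_, by simpa using hr, ?_⟩
    · intro i hi; simp at hi
    · rw [List.append_nil]
      have hup : ∀ k, a + k ≤ b → pm u (a + k) + k ≤ b := by
        intro k
        induction k with
        | zero => intro h; exact (hu.pm_mem le_rfl h).2
        | succ k ihk =>
          intro h
          have h1 := ihk (by omega)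
          have h2 := hdec (a + k) (by omega) (by omega)
          have h3 : a + k + 1 = a + (k + 1) := by omega
          rw [h3] at h2
          omega
      have hdn : ∀ k, a + k ≤ b → a + k ≤ pm u (b - k) := by
        intro k
        induction k with
        | zero => intro h; exact (hu.pm_mem (by omega) le_rfl).1
        | succ k ihk =>
          intro h
          have h1 := ihk (by omega)
          have h2 := hdec (b - (k + 1)) (by omega) (by omega)
          have h3 : b - (k + 1) + 1 = b - k := by omega
          rw [h3] at h2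
          omega
      intro x h1 h2
      have h3 := hup (x - a) (by omega)
      have h4 := hdn (b - x) (by omega)
      have e1 : a + (x - a) = x := by omega
      have e2 : b - (b - x) = x := by omega
      rw [e1] at h3
      rw [e2] at h4
      omega

theorem red_append_of_range {a m b : ℕ} {u v : List (Fin n)} (hu : Red u) (hv : Red v)
    (h1 : InRange a m u) (h2 : InRange (m + 1) b v) : Red (u ++ v) := by
  intro p i q he
  rcases List.append_eq_append_iff.mp he with ⟨t, h3, h4⟩ | ⟨t, h3, h4⟩
  · -- `p = u ++ t`, `v = t ++ i :: q`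
    subst h3
    subst h4
    have hi := h2 i (by simp)
    have ht : InRange (m + 1) b t := fun j hj => h2 j (by simp [hj])
    have h5 := hv t i q rfl
    have h6 := ht.pm_mem (x := i) (by omega) (by omega)
    have h7 := ht.pm_mem (x := (i : ℕ) + 1) (by omega) (by omega)
    rw [pm_append, Equiv.Perm.mul_apply, Equiv.Perm.mul_apply, h1.pm_fix (by omega),
      h1.pm_fix (by omega)]
    exact h5
  · rcases t with _ | ⟨j, t⟩
    · simp only [List.append_nil] at h3
      simp only [List.nil_append] at h4
      subst h3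
      have hi := h2 i (by rw [← h4]; simp)
      rw [h1.pm_fix (by omega), h1.pm_fix (by omega)]
      omega
    · simp only [List.cons_append, List.cons.injEq] at h4
      obtain ⟨rfl, _⟩ := h4
      exact hu p i t h3

theorem exists_word {P : ℕ → ℕ → ℕ → Prop} (h : SplitP n P) : ∀ k a b : ℕ, b = a + k → b ≤ n →
    ∃ u : List (Fin n), InRange a b u ∧ Red u ∧ (∀ x, a ≤ x → x ≤ b → pm u x = a + b - x) ∧
      ∀ x y z, a ≤ x → x < y → y < z → z ≤ b → (Pos u x y z ↔ P x y z) := by
  intro k
  induction k using Nat.strong_induction_on with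
  | _ k ih =>
  intro a b hk hb
  rcases Nat.eq_zero_or_pos k with rfl | hkpos
  · refine ⟨[], ?_, red_nil, ?_, ?_⟩
    · intro i hi; simp at hi
    · intro x h1 h2; simp; omega
    · intro x y z h1 h2 h3 h4; omega
  · obtain ⟨m, hm1, hm2, hm3⟩ := h a b (by omega) hb
    obtain ⟨u, hu1, hu2, hu3, hu4⟩ := ih (m - a) (by omega) a m (by omega) (by omega)
    obtain ⟨v, hv1, hv2, hv3, hv4⟩ := ih (b - (m + 1)) (by omega) (m + 1) b (by omega) hb
    have huv : Red (u ++ v) := red_append_of_range hu2 hv2 hu1 hv1
    have huv' : InRange a b (u ++ v) := (hu1.mono le_rfl (by omega)).append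
      (hv1.mono (by omega) le_rfl)
    obtain ⟨t, ht1, ht2, ht3⟩ := exists_ext a b hb _ (u ++ v) rfl huv huv'
    -- inverse images
    have huinv : ∀ x, a ≤ x → x ≤ m → (pm u)⁻¹ x = a + m - x := by
      intro x h1 h2
      rw [Equiv.Perm.inv_eq_iff_eq, hu3 (a + m - x) (by omega) (by omega)]; omega
    have hvinv : ∀ x, m + 1 ≤ x → x ≤ b → (pm v)⁻¹ x = m + 1 + b - x := by
      intro x h1 h2
      rw [Equiv.Perm.inv_eq_iff_eq, hv3 (m + 1 + b - x) (by omega) (by omega)]; omega
    have hinvapp : ∀ (p s : List (Fin n)) (x : ℕ), (pm (p ++ s))⁻¹ x = (pm s)⁻¹ ((pm p)⁻¹ x) := by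
      intro p s x; rw [pm_append, mul_inv_rev]; rfl
    refine ⟨u ++ v ++ t, huv'.append ht1, ht2, ht3, ?_⟩
    intro x y z h1 h2 h3 h4
    have hpre : ∀ {p : List (Fin n)}, p <+: u ++ v ++ t → Red p := by
      rintro p ⟨s, hs⟩
      rw [← hs] at ht2; exact ht2.left
    by_cases c1 : z ≤ m
    · rw [← hu4 x y z h1 h2 h3 c1]
      constructor
      · rintro ⟨p, hp, h5, h6⟩
        rcases List.prefix_or_prefix_of_prefix hp (⟨v ++ t, by simp⟩ : u <+: u ++ v ++ t)
          with h7 | ⟨s, rfl⟩
        · exact ⟨p, h7, h5, h6⟩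
        · exfalso
          apply h6
          apply Crossed.mono (hpre hp) h3
          unfold Crossed
          rw [huinv y (by omega) (by omega), huinv z (by omega) c1]; omega
      · rintro ⟨p, ⟨s, rfl⟩, h5, h6⟩
        exact ⟨p, ⟨s ++ v ++ t, by simp⟩, h5, h6⟩
    · by_cases c2 : m < x
      · rw [← hv4 x y z c2 h2 h3 h4]
        constructor
        · rintro ⟨p, hp, h5, h6⟩
          rcases List.prefix_or_prefix_of_prefix hp (⟨v ++ t, by simp⟩ : u <+: u ++ v ++ t)
            with ⟨s, h7⟩ | ⟨s, rfl⟩
          · exfalso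
            have h8 : InRange a m p := fun i hi => hu1 i (by rw [← h7]; simp [hi])
            unfold Crossed at h5
            rw [h8.inv_fix (by omega), h8.inv_fix (by omega)] at h5
            omega
          · rw [List.append_assoc, List.prefix_append_right_inj] at hp
            rcases List.prefix_or_prefix_of_prefix hp (⟨t, rfl⟩ : v <+: v ++ t) with h7 | ⟨s', rfl⟩
            · refine ⟨s, h7, ?_, ?_⟩
              · unfold Crossed at h5 ⊢
                rw [hinvapp, hinvapp, hu1.inv_fix (by omega), hu1.inv_fix (by omega)] at h5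
                exact h5
              · unfold Crossed at h6 ⊢
                rw [hinvapp, hinvapp, hu1.inv_fix (by omega), hu1.inv_fix (by omega)] at h6
                exact h6
            · exfalso
              apply h6
              have h8 : Red (u ++ v ++ s') := by
                obtain ⟨s2, hs2⟩ := hp
                have : u ++ v ++ t = (u ++ v ++ s') ++ s2 := by
                  rw [List.append_assoc u v t, ← hs2]; simp
                rw [this] at ht2; exact ht2.left
              rw [← List.append_assoc]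
              apply Crossed.mono h8 h3
              unfold Crossed
              rw [hinvapp, hinvapp, hu1.inv_fix (by omega), hu1.inv_fix (by omega),
                hvinv y (by omega) (by omega), hvinv z (by omega) h4]
              omega
        · rintro ⟨p, ⟨s, rfl⟩, h5, h6⟩
          refine ⟨u ++ p, ⟨s ++ t, by simp⟩, ?_, ?_⟩
          · unfold Crossed at h5 ⊢
            rw [hinvapp, hinvapp, hu1.inv_fix (by omega), hu1.inv_fix (by omega)]
            exact h5
          · unfold Crossed at h6 ⊢
            rw [hinvapp, hinvapp, hu1.inv_fix (by omega), hu1.inv_fix (by omega)]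
            exact h6
      · by_cases c3 : y ≤ m
        · have hP := (hm3 x y z h1 h2 h3 h4).1 c3 (by omega)
          refine ⟨fun _ => hP, fun _ => ⟨u, ⟨v ++ t, by simp⟩, ?_, ?_⟩⟩
          · unfold Crossed
            rw [huinv x h1 (by omega), huinv y (by omega) c3]; omega
          · unfold Crossed
            rw [huinv y (by omega) c3, hu1.inv_fix (by omega)]; omega
        · have hP := (hm3 x y z h1 h2 h3 h4).2 (by omega) (by omega)
          refine ⟨?_, fun h => absurd h hP⟩
          rintro ⟨p, hp, h5, h6⟩
          exfalso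
          rcases List.prefix_or_prefix_of_prefix hp (⟨t, rfl⟩ : u ++ v <+: u ++ v ++ t)
            with h7 | ⟨s, rfl⟩
          · -- `x ≤ m < y` cannot have crossed in an initial segment of `u ++ v`
            rcases List.prefix_or_prefix_of_prefix h7 (⟨v, rfl⟩ : u <+: u ++ v)
              with ⟨s, h8⟩ | ⟨s, rfl⟩
            · have h9 : InRange a m p := fun i hi => hu1 i (by rw [← h8]; simp [hi])
              unfold Crossed at h5
              rw [h9.inv_fix (x := y) (by omega)] at h5
              have := h9.inv_mem h1 (by omega : x ≤ m)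
              omega
            · rw [List.prefix_append_right_inj] at h7
              have h9 : InRange (m + 1) b s := by
                obtain ⟨s2, hs2⟩ := h7
                exact fun i hi => hv1 i (by rw [← hs2]; simp [hi])
              unfold Crossed at h5
              rw [hinvapp, hinvapp, hu1.inv_fix (x := y) (by omega)] at h5
              have h10 := hu1.inv_mem h1 (by omega : x ≤ m)
              rw [h9.inv_fix (x := (pm u)⁻¹ x) (by omega)] at h5
              have h11 := h9.inv_mem (x := y) (by omega) (by omega)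
              omega
          · apply h6
            apply Crossed.mono (hpre hp) h3
            unfold Crossed
            rw [hinvapp, hinvapp, hu1.inv_fix (by omega), hu1.inv_fix (by omega),
              hvinv y (by omega) (by omega), hvinv z (by omega) h4]
            omega

theorem isW0_of_red {w : List (Fin n)} (h : Red w) (h' : ∀ x ≤ n, pm w x = n - x) : IsW0 w := by
  refine ⟨?_, h'⟩
  rw [← h.card_invs, ← card_pairs n]
  congr 1
  have hinv : ∀ x ≤ n, (pm w)⁻¹ x = n - x := by
    intro x hx
    rw [Equiv.Perm.inv_eq_iff_eq, h' (n - x) (by omega)]; omega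
  ext ⟨x, y⟩
  rw [mem_invs]
  simp only [Finset.mem_filter, Finset.mem_product, Finset.mem_range, Nat.lt_succ_iff]
  constructor
  · rintro ⟨⟨h1, h2⟩, h3, _⟩; exact ⟨⟨h1, h2⟩, h3⟩
  · rintro ⟨⟨h1, h2⟩, h3⟩
    refine ⟨⟨h1, h2⟩, h3, ?_⟩
    unfold Crossed
    rw [hinv x h1, hinv y h2]; omega

/-- Two sign assignments agree on the triangles of the arrangement. -/
def Agree (n : ℕ) (P Q : ℕ → ℕ → ℕ → Prop) : Prop :=
  ∀ x y z : ℕ, x < y → y < z → z ≤ n → (P x y z ↔ Q x y z)

/-- **Existence.** -/
theorem exists_isW0 {P : ℕ → ℕ → ℕ → Prop} (h : SplitP n P) :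
    ∃ w : List (Fin n), IsW0 w ∧ Agree n (Pos w) P := by
  obtain ⟨u, _, h2, h3, h4⟩ := exists_word h n 0 n (by omega) le_rfl
  refine ⟨u, isW0_of_red h2 fun x hx => ?_, fun x y z hxy hyz hz => h4 x y z (Nat.zero_le _) hxy hyz hz⟩
  rw [h3 x (Nat.zero_le _) hx]; omega

/-! ### Reversal -/

/-- The reversed and relabelled word. -/
def star (w : List (Fin n)) : List (Fin n) := (w.map Fin.rev).reverse

theorem star_append (u v : List (Fin n)) : star (u ++ v) = star v ++ star u := by
  simp [star]

theorem star_star (u : List (Fin n)) : star (star u) = u := by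
  simp [star, Function.comp_def]

theorem length_star (u : List (Fin n)) : (star u).length = u.length := by
  simp [star]

theorem pm_reverse (w : List (Fin n)) : pm w.reverse = (pm w)⁻¹ := by
  induction w with
  | nil => simp
  | cons i w ih =>
    rw [List.reverse_cons, pm_snoc, ih, pm_cons, mul_inv_rev, sw_inv]

theorem pm_map_rev (w : List (Fin n)) {x : ℕ} (hx : x ≤ n) :
    pm (w.map Fin.rev) x = n - pm w (n - x) := by
  induction w with
  | nil => simp; omega
  | cons i w ih =>
    have h1 := pm_le w (x := n - x) (by omega)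
    rw [List.map_cons, pm_cons, Equiv.Perm.mul_apply, ih, pm_cons, Equiv.Perm.mul_apply, sw_eq,
      sw_eq, Fin.val_rev]
    have := i.2
    split_ifs <;> omega

theorem star_inv_apply (v : List (Fin n)) {x : ℕ} (hx : x ≤ n) :
    (pm (star v))⁻¹ x = n - pm v (n - x) := by
  unfold star
  rw [pm_reverse, inv_inv, pm_map_rev v hx]

theorem IsW0.star {w : List (Fin n)} (h : IsW0 w) : IsW0 (star w) := by
  refine ⟨by rw [length_star]; exact h.length_eq, fun x hx => ?_⟩
  have h1 := star_inv_apply w (x := n - x) (by omega)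
  rw [h.perm_eq _ (by omega), Equiv.Perm.inv_eq_iff_eq] at h1
  have e : n - (n - (n - (n - x))) = x := by omega
  rw [e] at h1
  exact h1.symm

theorem crossed_star {u v : List (Fin n)} (h : IsW0 (u ++ v)) {x y : ℕ} (hxy : x < y)
    (hy : y ≤ n) : Crossed (star v) x y ↔ ¬ Crossed u x y := by
  have key : ∀ x ≤ n, (pm (star v))⁻¹ x = n - (pm u)⁻¹ x := by
    intro x hx
    rw [star_inv_apply v hx]
    congr 1
    have h1 := h.perm_eq (n - x) (by omega)
    rw [pm_append, Equiv.Perm.mul_apply] at h1
    rw [eq_comm, Equiv.Perm.inv_eq_iff_eq, h1]; omega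
  unfold Crossed
  rw [key x (by omega), key y hy]
  have h1 := ((inRange_all u).inv_mem (Nat.zero_le x) (by omega)).2
  have h2 := ((inRange_all u).inv_mem (Nat.zero_le y) hy).2
  have h3 : (pm u)⁻¹ x ≠ (pm u)⁻¹ y := fun e => by
    have := (pm u)⁻¹.injective e; omega
  omega

theorem pos_star {w : List (Fin n)} (h : IsW0 w) {x y z : ℕ} (hxy : x < y) (hyz : y < z)
    (hz : z ≤ n) : Pos (star w) x y z ↔ ¬ Pos w x y z := by
  constructor
  · rintro ⟨p, ⟨s, hs⟩, h1, h2⟩ ⟨p', hp', h3, h4⟩
    have hw : w = star s ++ star p := by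
      rw [← star_append, hs, star_star]
    have hW : IsW0 (star s ++ star p) := hw ▸ h
    have e1 := crossed_star hW hxy (by omega)
    have e2 := crossed_star hW hyz hz
    rw [star_star] at e1 e2
    rw [e1] at h1
    rw [e2, not_not] at h2
    rcases List.prefix_or_prefix_of_prefix hp' (⟨star p, hw.symm⟩ : star s <+: w)
      with ⟨t, ht⟩ | ⟨t, rfl⟩
    · apply h1
      rw [← ht]
      apply Crossed.mono _ hxy h3
      rw [ht]; exact hW.red.left
    · apply h4
      apply Crossed.mono _ hyz h2
      obtain ⟨t2, ht2⟩ := hp'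
      have := h.red
      rw [← ht2] at this; exact this.left
  · intro hn
    obtain ⟨u, i, v, hw, h1, h2⟩ := (crossed_iff_root h.red hyz).1 (h.crossed hyz hz)
    subst hw
    have hr : Red (u ++ [i]) := by
      have : u ++ i :: v = (u ++ [i]) ++ v := by simp
      have hr := h.red
      rw [this] at hr; exact hr.left
    have hW : IsW0 ((u ++ [i]) ++ v) := by simpa using h
    have hs : star (u ++ i :: v) = star v ++ star (u ++ [i]) := by
      rw [← star_append]; simp
    refine ⟨star v, ⟨star (u ++ [i]), hs.symm⟩, ?_, ?_⟩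
    · rw [crossed_star hW hxy (by omega), crossed_snoc hr.snoc_lt hxy]
      rintro (h3 | ⟨h3, _⟩)
      · apply hn
        refine ⟨u, ⟨_, rfl⟩, h3, ?_⟩
        unfold Crossed
        rw [← h1, ← h2]; simp
      · omega
    · rw [crossed_star hW hyz hz, not_not, crossed_snoc hr.snoc_lt hyz]
      exact Or.inr ⟨h1, h2⟩

end Pool.Agent.Helper24.QTangent
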