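import Pool.Agent.Helper24.QTangent.Antipode

/-!
# The left-handed classification
-/

namespace Pool.Agent.Helper24.QTangent

open scoped TensorProduct

variable {n : ℕ} {q : ℂ}

/-- The sequence of the `K_j⁻¹`. -/
noncomputable def Ls (n : ℕ) (q : ℂ) (j : ℕ) : U n q := if h : j < n then L n q ⟨j, h⟩ else 1

/-- `K_β⁻¹ = K_a⁻¹ ⋯ K_{b-1}⁻¹` for the root `β = (a, b) = α_a + ⋯ + α_{b-1}`. -/
noncomputable def kInv (n : ℕ) (q : ℂ) (a b : ℕ) : U n q :=
  ((List.range' a (b - a)).map (Ls n q)).prod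

theorem kInv_simple (a : ℕ) : kInv n q a (a + 1) = Ls n q a := by
  have : a + 1 - a = 1 := by omega
  simp [kInv, this]

theorem kInv_succ {a b : ℕ} (h : a < b) : kInv n q a (b + 1) = kInv n q a b * Ls n q b := by
  obtain ⟨k, rfl⟩ : ∃ k, b = a + k := ⟨b - a, by omega⟩
  have h1 : a + k + 1 - a = k + 1 := by omega
  have h2 : a + k - a = k := by omega
  unfold kInv
  rw [h1, h2, List.range'_concat]
  simp

/-- The span of the `E_β K_β⁻¹` with a given sign assignment. -/
noncomputable def tspK (n : ℕ) (q : ℂ) (χ : ℕ → ℕ → ℕ → Bool) : Submodule ℂ (U n q) :=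
  Submodule.span ℂ {x | ∃ a b : ℕ, a < b ∧ b ≤ n ∧
    x = rb n q (fun c => χ a c b) a b * kInv n q a b}

section

variable (hq : q ≠ 0)

theorem counit_anti (x : U n q) : counit n q (anti n q hq x) = counit n q x := by
  let A : U n q →ₐ[ℂ] ℂ := AlgHom.ofLinearMap ((counit n q).toLinearMap ∘ₗ anti n q hq)
    (by
      change counit n q (anti n q hq 1) = 1
      rw [anti_one, map_one])
    (by
      intro x y
      change counit n q (anti n q hq (x * y)) = counit n q (anti n q hq x) *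
        counit n q (anti n q hq y)
      rw [anti_mul, map_mul, mul_comm])
  have hA : ∀ x, A x = counit n q (anti n q hq x) := fun x => rfl
  have h : A = counit n q := by
    apply hom_ext
    · intro i; rw [hA, anti_E]; simp [counit, counitData]
    · intro i; rw [hA, anti_F]; simp [counit, counitData]
    · intro i; rw [hA, anti_K]; simp [counit, counitData]
    · intro i; rw [hA, anti_L]; simp [counit, counitData]
  rw [← hA, h]

theorem addOne_map (T : Submodule ℂ (U n q)) :
    addOne (T.map (anti n q hq)) = (addOne T).map (anti n q hq) := by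
  unfold addOne
  rw [Submodule.map_sup, Submodule.map_span, Set.image_singleton, anti_one]

theorem leftTangent_of_right {T : Submodule ℂ (U n q)} (h : IsRightTangent hq T) :
    IsLeftTangent hq (T.map (anti n q hq)) := by
  constructor
  · rintro x ⟨y, hy, rfl⟩
    rw [counit_anti]; exact h.1 y hy
  · intro x hx
    rw [addOne_map] at hx ⊢
    obtain ⟨y, hy, rfl⟩ := hx
    rw [comul_anti]
    have h1 := h.2 y hy
    generalize comul n q hq y = w at h1
    induction h1 using Submodule.span_induction with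
    | mem t ht =>
      obtain ⟨a, ha, b, rfl⟩ := ht
      rw [antiFlip_tmul]
      exact Submodule.subset_span ⟨_, _, ⟨a, ha, rfl⟩, rfl⟩
    | zero => rw [map_zero]; exact Submodule.zero_mem _
    | add s t _ _ hs ht => rw [map_add]; exact Submodule.add_mem _ hs ht
    | smul c t _ ht => rw [map_smul]; exact Submodule.smul_mem _ _ ht

theorem rightTangent_of_left {T : Submodule ℂ (U n q)} (h : IsLeftTangent hq T) :
    IsRightTangent hq (T.map (anti n q hq)) := by
  constructor
  · rintro x ⟨y, hy, rfl⟩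
    rw [counit_anti]; exact h.1 y hy
  · intro x hx
    rw [addOne_map] at hx ⊢
    obtain ⟨y, hy, rfl⟩ := hx
    rw [comul_anti]
    have h1 := h.2 y hy
    generalize comul n q hq y = w at h1
    induction h1 using Submodule.span_induction with
    | mem t ht =>
      obtain ⟨a, b, hb, rfl⟩ := ht
      rw [antiFlip_tmul]
      exact Submodule.subset_span ⟨_, ⟨b, hb, rfl⟩, _, rfl⟩
    | zero => rw [map_zero]; exact Submodule.zero_mem _
    | add s t _ _ hs ht => rw [map_add]; exact Submodule.add_mem _ hs ht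
    | smul c t _ ht => rw [map_smul]; exact Submodule.smul_mem _ _ ht

include hq in
theorem Ls_mul_Es {j c : ℕ} (hj : j < c) (hc : c < n) :
    Ls n q j * Es n q c = (if j + 1 = c then q else 1) • (Es n q c * Ls n q j) := by
  have h1 : Ls n q j = L n q ⟨j, by omega⟩ := by simp [Ls, show j < n by omega]
  have h2 : Es n q c = E n q ⟨c, hc⟩ := by simp [Es, hc]
  rw [h1, h2, L_mul_E hq, cartan_eq_fz]
  congr 1
  unfold fz
  simp only
  split_ifs <;> first | omega | norm_num

include hq in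
theorem kInv_mul_Es {a b c : ℕ} (hab : a < b) (hbc : b ≤ c) (hc : c < n) :
    kInv n q a b * Es n q c = (if b = c then q else 1) • (Es n q c * kInv n q a b) := by
  revert hbc
  refine rb_induction (P := fun b => b ≤ c → kInv n q a b * Es n q c =
    (if b = c then q else 1) • (Es n q c * kInv n q a b)) hab ?_ ?_
  · intro hbc
    rw [kInv_simple]; exact Ls_mul_Es hq (by omega) hc
  · intro d h1 _ ih hdc
    have ih' := ih (by omega)
    rw [if_neg (by omega), one_smul] at ih'
    rw [kInv_succ h1, mul_assoc, Ls_mul_Es hq (by omega) hc, mul_smul_comm, ← mul_assoc, ih',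
      mul_assoc]

include hq in
theorem Ls_mul_rb (ε : ℕ → Bool) {a b : ℕ} (hab : a < b) (hb : b < n) :
    Ls n q b * rb n q ε a b = q • (rb n q ε a b * Ls n q b) := by
  have h1 : Ls n q b = L n q ⟨b, hb⟩ := by simp [Ls, hb]
  rw [h1, (hasWt_rb hq ε hab).L hq]
  congr 1
  unfold wt fz
  simp only
  split_ifs <;> first | omega | norm_num

theorem anti_cs (s : Bool) (x y : U n q) :
    anti n q hq (cs q s x y) = cs q (!s) (anti n q hq x) (anti n q hq y) := by
  cases s <;> simp [cs, cm, anti_mul]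

theorem anti_Es {a : ℕ} (ha : a < n) : anti n q hq (Es n q a) = -(Es n q a * Ls n q a) := by
  have h1 : Ls n q a = L n q ⟨a, ha⟩ := by simp [Ls, ha]
  have h2 : Es n q a = E n q ⟨a, ha⟩ := by simp [Es, ha]
  rw [h1, h2, anti_E]

theorem anti_rb (ε : ℕ → Bool) {a b : ℕ} (hab : a < b) (hb : b ≤ n) :
    ∃ s : ℂ, s ≠ 0 ∧ anti n q hq (rb n q ε a b) =
      s • (rb n q (fun c => !ε c) a b * kInv n q a b) := by
  revert hb
  refine rb_induction (P := fun b => b ≤ n → ∃ s : ℂ, s ≠ 0 ∧ anti n q hq (rb n q ε a b) =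
      s • (rb n q (fun c => !ε c) a b * kInv n q a b)) hab ?_ ?_
  · intro hb
    refine ⟨-1, by norm_num, ?_⟩
    rw [rb_simple, rb_simple, kInv_simple, anti_Es hq (by omega), neg_smul, one_smul]
  · intro c h1 _ ih hc
    obtain ⟨s, hs, hs'⟩ := ih (by omega)
    refine ⟨-(s * q), neg_ne_zero.mpr (mul_ne_zero hs hq), ?_⟩
    rw [rb_succ _ h1, anti_cs, hs', anti_Es hq (by omega), rb_succ _ h1, kInv_succ h1]
    set x := rb n q (fun c => !ε c) a c
    set y := Es n q c
    set l := kInv n q a c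
    set m := Ls n q c
    have e1 : l * y = q • (y * l) := by
      have := kInv_mul_Es (q := q) hq h1 (le_refl c) (by omega : c < n)
      rwa [if_pos rfl] at this
    have e2 : m * x = q • (x * m) := Ls_mul_rb hq _ h1 (by omega)
    have e3 : m * l = l * m := by
      have hw : HasWt l 0 := by
        unfold l
        refine rb_induction (P := fun b => HasWt (kInv n q a b) 0) h1 ?_ ?_
        · rw [kInv_simple]; unfold Ls; split_ifs
          · exact hasWt_L _
          · exact hasWt_one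
        · intro d h2 _ ih
          rw [kInv_succ h2]
          have hd : HasWt (Ls n q d) 0 := by
            unfold Ls; split_ifs
            · exact hasWt_L _
            · exact hasWt_one
          simpa using ih.mul hq hd
      have h3 : m = L n q ⟨c, by omega⟩ := by simp [m, Ls, show c < n by omega]
      rw [h3]
      have := hw.L hq ⟨c, by omega⟩
      simpa using this
    have e4 : (x * l) * (y * m) = q • (x * y * (l * m)) := by
      calc (x * l) * (y * m) = x * (l * y) * m := by simp only [mul_assoc]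
        _ = q • (x * y * (l * m)) := by
          rw [e1, mul_smul_comm, smul_mul_assoc]; simp only [mul_assoc]
    have e5 : (y * m) * (x * l) = q • (y * x * (l * m)) := by
      calc (y * m) * (x * l) = y * (m * x) * l := by simp only [mul_assoc]
        _ = q • (y * x * (m * l)) := by
          rw [e2, mul_smul_comm, smul_mul_assoc]; simp only [mul_assoc]
        _ = q • (y * x * (l * m)) := by rw [e3]
    cases ε c
    · simp only [Bool.not_false, cs, if_true, cm, mul_neg, neg_mul, smul_mul_assoc, mul_smul_comm,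
        e4, e5, sub_mul, smul_sub, smul_neg, smul_smul]
      match_scalars <;> ring
    · simp only [Bool.not_true, cs, Bool.false_eq_true, if_false, cm, mul_neg, neg_mul,
        smul_mul_assoc, mul_smul_comm, e4, e5, sub_mul, smul_sub, smul_neg, smul_smul]
      match_scalars <;> ring

theorem anti_anti_rb (ε : ℕ → Bool) {a b : ℕ} (hab : a < b) (hb : b ≤ n) :
    ∃ s : ℂ, s ≠ 0 ∧ anti n q hq (anti n q hq (rb n q ε a b)) = s • rb n q ε a b := by
  have h0 : ∀ a, a < n → anti n q hq (anti n q hq (Es n q a)) = (q * q) • Es n q a := by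
    intro a ha
    have h1 : Ls n q a = L n q ⟨a, ha⟩ := by simp [Ls, ha]
    have h2 : Es n q a = E n q ⟨a, ha⟩ := by simp [Es, ha]
    rw [anti_Es hq ha, map_neg, anti_mul, anti_Es hq ha, h1, h2, anti_L, mul_neg, neg_neg,
      ← mul_assoc, K_mul_E, cartan_self, smul_mul_assoc, mul_assoc, K_mul_L, mul_one]
    congr 1
    rw [← sq]; norm_cast
  revert hb
  refine rb_induction (P := fun b => b ≤ n → ∃ s : ℂ, s ≠ 0 ∧
    anti n q hq (anti n q hq (rb n q ε a b)) = s • rb n q ε a b) hab ?_ ?_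
  · intro hb
    refine ⟨q * q, mul_ne_zero hq hq, ?_⟩
    rw [rb_simple, h0 a (by omega)]
  · intro c h1 _ ih hc
    obtain ⟨s, hs, hs'⟩ := ih (by omega)
    refine ⟨s * (q * q), mul_ne_zero hs (mul_ne_zero hq hq), ?_⟩
    rw [rb_succ _ h1, anti_cs, anti_cs, hs', h0 c (by omega), Bool.not_not]
    cases ε c <;> simp only [cs, Bool.false_eq_true, if_true, if_false, cm_smul_left,
      cm_smul_right, smul_smul]
    congr 1; ring

theorem span_eq_of_smul {ι : Type*} {P : ι → Prop} {f g : ι → U n q}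
    (h : ∀ i, P i → ∃ s : ℂ, s ≠ 0 ∧ f i = s • g i) :
    Submodule.span ℂ {x | ∃ i, P i ∧ x = f i} = Submodule.span ℂ {x | ∃ i, P i ∧ x = g i} := by
  apply le_antisymm
  · rw [Submodule.span_le]
    rintro x ⟨i, hi, rfl⟩
    obtain ⟨s, _, hs⟩ := h i hi
    rw [hs]
    exact Submodule.smul_mem _ _ (Submodule.subset_span ⟨i, hi, rfl⟩)
  · rw [Submodule.span_le]
    rintro x ⟨i, hi, rfl⟩
    obtain ⟨s, hs0, hs⟩ := h i hi
    have : g i = s⁻¹ • f i := by rw [hs, smul_smul, inv_mul_cancel₀ hs0, one_smul]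
    rw [this]
    exact Submodule.smul_mem _ _ (Submodule.subset_span ⟨i, hi, rfl⟩)

/-- The flipped sign assignment. -/
def flipS (χ : ℕ → ℕ → ℕ → Bool) : ℕ → ℕ → ℕ → Bool := fun a c b => !χ a c b

theorem flipS_flipS (χ : ℕ → ℕ → ℕ → Bool) : flipS (flipS χ) = χ := by
  funext a c b; simp [flipS]

theorem tsp_eq (χ : ℕ → ℕ → ℕ → Bool) : tsp n q χ = Submodule.span ℂ
    {x | ∃ p : ℕ × ℕ, (p.1 < p.2 ∧ p.2 ≤ n) ∧ x = rb n q (fun c => χ p.1 c p.2) p.1 p.2} := by
  unfold tsp
  congr 1
  ext x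
  constructor
  · rintro ⟨a, b, h1, h2, rfl⟩; exact ⟨(a, b), ⟨h1, h2⟩, rfl⟩
  · rintro ⟨⟨a, b⟩, ⟨h1, h2⟩, rfl⟩; exact ⟨a, b, h1, h2, rfl⟩

theorem tspK_eq (χ : ℕ → ℕ → ℕ → Bool) : tspK n q χ = Submodule.span ℂ
    {x | ∃ p : ℕ × ℕ, (p.1 < p.2 ∧ p.2 ≤ n) ∧
      x = rb n q (fun c => χ p.1 c p.2) p.1 p.2 * kInv n q p.1 p.2} := by
  unfold tspK
  congr 1
  ext x
  constructor
  · rintro ⟨a, b, h1, h2, rfl⟩; exact ⟨(a, b), ⟨h1, h2⟩, rfl⟩
  · rintro ⟨⟨a, b⟩, ⟨h1, h2⟩, rfl⟩; exact ⟨a, b, h1, h2, rfl⟩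

theorem map_span_eq {ι : Type*} {P : ι → Prop} {f : ι → U n q} (φ : U n q →ₗ[ℂ] U n q) :
    (Submodule.span ℂ {x | ∃ i, P i ∧ x = f i}).map φ =
      Submodule.span ℂ {x | ∃ i, P i ∧ x = φ (f i)} := by
  rw [Submodule.map_span]
  congr 1
  ext x
  constructor
  · rintro ⟨y, ⟨i, hi, rfl⟩, rfl⟩; exact ⟨i, hi, rfl⟩
  · rintro ⟨i, hi, rfl⟩; exact ⟨_, ⟨i, hi, rfl⟩, rfl⟩

theorem map_anti_tsp (χ : ℕ → ℕ → ℕ → Bool) :
    (tsp n q χ).map (anti n q hq) = tspK n q (flipS χ) := by
  rw [tsp_eq, tspK_eq, map_span_eq]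
  apply span_eq_of_smul
  rintro ⟨a, b⟩ ⟨h1, h2⟩
  exact anti_rb hq _ h1 h2

theorem map_anti_tspK (χ : ℕ → ℕ → ℕ → Bool) :
    (tspK n q χ).map (anti n q hq) = tsp n q (flipS χ) := by
  have h1 : tspK n q χ = (tsp n q (flipS χ)).map (anti n q hq) := by
    rw [map_anti_tsp, flipS_flipS]
  rw [h1, tsp_eq, map_span_eq, map_span_eq]
  apply span_eq_of_smul
  rintro ⟨a, b⟩ ⟨h1, h2⟩
  exact anti_anti_rb hq _ h1 h2

theorem leftTangent_iff (hq2 : q ^ 2 ≠ 1) (χ : ℕ → ℕ → ℕ → Bool) :
    IsLeftTangent hq (tspK n q χ) ↔ RC n (flipS χ) := by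
  rw [← rightTangent_iff hq hq2]
  constructor
  · intro h
    rw [← map_anti_tspK hq]
    exact rightTangent_of_left hq h
  · intro h
    have := leftTangent_of_right hq h
    rwa [map_anti_tsp, flipS_flipS] at this

end

section

variable (hq : q ≠ 0) (hq2 : q ^ 2 ≠ 1) (hq4 : q ^ 2 + 1 ≠ 0)

/-- The span of the `E_β K_β⁻¹` for the word `w`. -/
noncomputable def nPlusK (n : ℕ) (q : ℂ) (hq : q ≠ 0) (hq2 : q ^ 2 ≠ 1) (hq4 : q ^ 2 + 1 ≠ 0)
    (w : List (Fin n)) : Submodule ℂ (U n q) :=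
  Submodule.span ℂ {x | ∃ (u : List (Fin n)) (i : Fin n) (v : List (Fin n)), w = u ++ i :: v ∧
    x = (u.map (lusztigT n q hq hq2 hq4)).prod (E n q i) *
      kInv n q (pm u (i : ℕ)) (pm u ((i : ℕ) + 1))}

theorem nPlusK_eq_tspK {w : List (Fin n)} (hw : IsW0 w) :
    nPlusK n q hq hq2 hq4 w = tspK n q (chi w) := by
  apply le_antisymm
  · unfold nPlusK
    rw [Submodule.span_le]
    rintro x ⟨u, i, v, rfl, rfl⟩
    obtain ⟨c, _, hc⟩ := rootVec_eq_rb (q := q) hq hq2 hq4 hw.red
    rw [hc, smul_mul_assoc]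
    apply Submodule.smul_mem
    exact Submodule.subset_span ⟨_, _, hw.red u i v rfl, pm_le u (by omega), rfl⟩
  · unfold tspK
    rw [Submodule.span_le]
    rintro x ⟨a, b, hab, hb, rfl⟩
    obtain ⟨u, i, v, hw', h1, h2⟩ := (crossed_iff_root hw.red hab).1 (hw.crossed hab hb)
    subst hw'
    obtain ⟨c, hc0, hc⟩ := rootVec_eq_rb (q := q) hq hq2 hq4 hw.red
    rw [h1, h2] at hc
    have h3 : rb n q (fun c => chi (u ++ i :: v) a c b) a b =
        c • (u.map (lusztigT n q hq hq2 hq4)).prod (E n q i) := by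
      rw [hc, smul_smul]
      rcases hc0 with rfl | rfl <;> simp
    rw [h3, smul_mul_assoc]
    exact Submodule.smul_mem _ _ (Submodule.subset_span ⟨u, i, v, rfl, by rw [h1, h2]⟩)

/-- **Left tangent spaces.** -/
theorem nPlusK_leftTangent_iff {w : List (Fin n)} (hw : IsW0 w) :
    IsLeftTangent hq (nPlusK n q hq hq2 hq4 w) ↔ RC n (flipS (chi w)) := by
  rw [nPlusK_eq_tspK hq hq2 hq4 hw, leftTangent_iff hq hq2]

end

end Pool.Agent.Helper24.QTangent
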