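import Pool.Agent.Helper24.QTangent.RootVec

/-!
# The vector representation and the map `Φ = (id ⊗ ρ) ∘ Δ`
-/

namespace Pool.Agent.Helper24.QTangent

open scoped TensorProduct

variable {n : ℕ} {q : ℂ}

/-- The exponent of `q` in the action of `K_c` on the `r`-th basis vector. -/
def fz (c r : ℕ) : ℤ := (if c = r then 1 else 0) - (if c + 1 = r then 1 else 0)

theorem cartan_eq_fz (i j : Fin n) : cartan i j = fz i j - fz i (j + 1) := by
  unfold cartan fz
  have h : i = j ↔ (i : ℕ) = j := Fin.ext_iff
  by_cases h1 : i = j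
  · subst h1; simp
  · have h1' : (i : ℕ) ≠ j := fun e => h1 (Fin.ext e)
    rw [if_neg h1, if_neg h1']
    split_ifs <;> omega

/-- The vector representation: `ρ(E_i) = e_{i,i+1}`, `ρ(F_i) = e_{i+1,i}`, `ρ(K_i)` diagonal. -/
noncomputable def rhoData (n : ℕ) (q : ℂ) (hq : q ≠ 0) (hq2 : q ^ 2 ≠ 1) :
    LiftData n q (Matrix (Fin (n + 1)) (Fin (n + 1)) ℂ) where
  e i := Matrix.single i.castSucc i.succ 1
  f i := Matrix.single i.succ i.castSucc 1
  k i := Matrix.diagonal fun r => q ^ fz i r
  l i := Matrix.diagonal fun r => q ^ (-fz i r)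
  kl i := by
    rw [Matrix.diagonal_mul_diagonal]
    simp only [zpow_mul_zpow_neg hq, Matrix.diagonal_one]
  lk i := by
    rw [Matrix.diagonal_mul_diagonal]
    simp only [zpow_neg_mul_zpow hq, Matrix.diagonal_one]
  kk i j := by
    rw [Matrix.diagonal_mul_diagonal, Matrix.diagonal_mul_diagonal]
    congr 1; funext r; ring
  ke i j := by
    ext r s
    rw [Matrix.diagonal_mul, Matrix.smul_apply, Matrix.mul_diagonal, Matrix.single_apply]
    by_cases h : j.castSucc = r ∧ j.succ = s
    · obtain ⟨rfl, rfl⟩ := h
      simp only [and_self, if_true, mul_one, one_mul, smul_eq_mul]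
      rw [← zpow_add₀ hq, cartan_eq_fz]
      congr 1
      simp
    · rw [if_neg h]; simp
  kf i j := by
    ext r s
    rw [Matrix.diagonal_mul, Matrix.smul_apply, Matrix.mul_diagonal, Matrix.single_apply]
    by_cases h : j.succ = r ∧ j.castSucc = s
    · obtain ⟨rfl, rfl⟩ := h
      simp only [and_self, if_true, mul_one, one_mul, smul_eq_mul]
      rw [← zpow_add₀ hq, cartan_eq_fz]
      congr 1
      simp
    · rw [if_neg h]; simp
  ef i := by
    have hne := q_sub_ne hq hq2
    rw [Matrix.single_mul_single_same, Matrix.single_mul_single_same]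
    ext r s
    simp only [Matrix.sub_apply, Matrix.single_apply, Matrix.smul_apply, Matrix.diagonal_apply,
      mul_one, smul_eq_mul]
    by_cases hrs : r = s
    · subst hrs
      by_cases h1 : i.castSucc = r
      · subst h1
        have : ¬ (i : ℕ) + 1 = i := by omega
        have h2 : ¬ i.succ = i.castSucc := fun e => by
          have := congrArg Fin.val e; simp at this
        simp [fz, h2, inv_mul_cancel₀ hne]
      · by_cases h2 : i.succ = r
        · subst h2
          have h3 : ¬ i.castSucc = i.succ := h1
          simp only [h3, if_false, and_false, if_true, and_true, zero_sub, fz, Fin.val_succ]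
          rw [if_neg (by omega)]
          simp only [zero_sub, zpow_neg, zpow_one, neg_neg]
          rw [← neg_sub q q⁻¹, mul_neg, inv_mul_cancel₀ hne]
        · have h1' : ¬ (i : ℕ) = r := fun e => h1 (Fin.ext (by simpa using e))
          have h2' : ¬ (i : ℕ) + 1 = r := fun e => h2 (Fin.ext (by simpa using e))
          simp [fz, h1, h2, h1', h2']
    · have h1 : ¬ (i.castSucc = r ∧ i.castSucc = s) := fun ⟨h, h'⟩ => hrs (h.symm.trans h')
      have h2 : ¬ (i.succ = r ∧ i.succ = s) := fun ⟨h, h'⟩ => hrs (h.symm.trans h')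
      simp [h1, h2, hrs]
  efne i j h := by
    rw [Matrix.single_mul_single_of_ne, Matrix.single_mul_single_of_ne]
    · exact fun e => h (Fin.castSucc_injective _ e).symm
    · exact fun e => h (Fin.succ_injective _ e)
  ee i j h := by
    rw [cartan_eq_fz] at h
    rw [Matrix.single_mul_single_of_ne, Matrix.single_mul_single_of_ne]
    · intro e
      have := congrArg Fin.val e
      simp only [Fin.val_succ, Fin.val_castSucc] at this
      unfold fz at h
      split_ifs at h <;> omega
    · intro e
      have := congrArg Fin.val e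
      simp only [Fin.val_succ, Fin.val_castSucc] at this
      unfold fz at h
      split_ifs at h <;> omega
  ff i j h := by
    rw [cartan_eq_fz] at h
    rw [Matrix.single_mul_single_of_ne, Matrix.single_mul_single_of_ne]
    · intro e
      have := congrArg Fin.val e
      simp only [Fin.val_succ, Fin.val_castSucc] at this
      unfold fz at h
      split_ifs at h <;> omega
    · intro e
      have := congrArg Fin.val e
      simp only [Fin.val_succ, Fin.val_castSucc] at this
      unfold fz at h
      split_ifs at h <;> omega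
  se i j h := by
    have h1 : Matrix.single i.castSucc i.succ (1 : ℂ) * Matrix.single i.castSucc i.succ 1 = 0 := by
      apply Matrix.single_mul_single_of_ne
      intro e
      have := congrArg Fin.val e
      simp at this
    rw [h1, zero_mul, zero_add, mul_assoc, h1, mul_zero]
    by_cases h2 : (i : ℕ) + 1 = j
    · rw [mul_assoc, Matrix.single_mul_single_of_ne (h := ?_), mul_zero, smul_zero]
      intro e
      have := congrArg Fin.val e
      simp only [Fin.val_succ, Fin.val_castSucc] at this
      omega
    · rw [Matrix.single_mul_single_of_ne (h := ?_), zero_mul, smul_zero]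
      intro e
      have := congrArg Fin.val e
      simp only [Fin.val_succ, Fin.val_castSucc] at this
      omega
  sf i j h := by
    have h1 : Matrix.single i.succ i.castSucc (1 : ℂ) * Matrix.single i.succ i.castSucc 1 = 0 := by
      apply Matrix.single_mul_single_of_ne
      intro e
      have := congrArg Fin.val e
      simp at this
    rw [h1, zero_mul, zero_add, mul_assoc, h1, mul_zero]
    by_cases h2 : (i : ℕ) + 1 = j
    · rw [Matrix.single_mul_single_of_ne (h := ?_), zero_mul, smul_zero]
      intro e
      have := congrArg Fin.val e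
      simp only [Fin.val_succ, Fin.val_castSucc] at this
      omega
    · rw [mul_assoc, Matrix.single_mul_single_of_ne (h := ?_), mul_zero, smul_zero]
      intro e
      have := congrArg Fin.val e
      simp only [Fin.val_succ, Fin.val_castSucc] at this
      omega

/-- The vector representation. -/
noncomputable def rho (n : ℕ) (q : ℂ) (hq : q ≠ 0) (hq2 : q ^ 2 ≠ 1) :
    U n q →ₐ[ℂ] Matrix (Fin (n + 1)) (Fin (n + 1)) ℂ := (rhoData n q hq hq2).lift

section

variable (hq : q ≠ 0) (hq2 : q ^ 2 ≠ 1)

/-- `id ⊗ ρ` as a map to matrices over `U`. -/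
noncomputable def phi0 : U n q ⊗[ℂ] U n q →ₐ[ℂ] Matrix (Fin (n + 1)) (Fin (n + 1)) (U n q) :=
  (MatrixEquivTensor.toFunAlgHom (Fin (n + 1)) ℂ (U n q)).comp
    (Algebra.TensorProduct.map (AlgHom.id ℂ (U n q)) (rho n q hq hq2))

theorem phi0_tmul (x y : U n q) (i j : Fin (n + 1)) :
    phi0 hq hq2 (x ⊗ₜ[ℂ] y) i j = rho n q hq hq2 y i j • x := by
  unfold phi0
  rw [AlgHom.comp_apply, Algebra.TensorProduct.map_tmul, MatrixEquivTensor.toFunAlgHom_apply,
    Matrix.smul_apply, Matrix.map_apply, smul_eq_mul, AlgHom.id_apply, Algebra.smul_def,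
    Algebra.commutes]

/-- `Φ = (id ⊗ ρ) ∘ Δ`. -/
noncomputable def phi : U n q →ₐ[ℂ] Matrix (Fin (n + 1)) (Fin (n + 1)) (U n q) :=
  (phi0 hq hq2).comp (comul n q hq)

theorem comul_E (i : Fin n) :
    comul n q hq (E n q i) = E n q i ⊗ₜ K n q i + 1 ⊗ₜ E n q i := by
  simp [comul, comulData]

theorem phi_E (i : Fin n) (r s : Fin (n + 1)) :
    phi hq hq2 (E n q i) r s = (if r = s then q ^ fz i r else 0) • E n q i +
      (if r = i.castSucc ∧ s = i.succ then (1 : ℂ) else 0) • (1 : U n q) := by
  unfold phi
  rw [AlgHom.comp_apply, comul_E, map_add, Matrix.add_apply, phi0_tmul, phi0_tmul]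
  unfold rho
  rw [LiftData.lift_K, LiftData.lift_E]
  simp only [rhoData, Matrix.diagonal_apply, Matrix.single_apply]
  congr 2
  by_cases h : r = i.castSucc ∧ s = i.succ
  · rw [if_pos h, if_pos ⟨h.1.symm, h.2.symm⟩]
  · rw [if_neg h, if_neg (fun h' => h ⟨h'.1.symm, h'.2.symm⟩)]

end

end Pool.Agent.Helper24.QTangent
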