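import Pool.Agent.Helper24.QTangent.QComm

/-!
# Ribbons: iterated `q`-commutators along an interval of letters

`rib q e ε a k` is the iterated `q`-commutator of the letters `e a, e (a+1), …, e (a+k)`, where
the sign `ε c` (`a < c ≤ a + k`) tells on which side the letter `e c` is added.
-/

namespace Pool.Agent.Helper24.QTangent

variable {R : Type*} [Ring R] [Algebra ℂ R] {q : ℂ}

/-- `cm x y` or `cm y x` according to the sign. -/
noncomputable def cs (q : ℂ) (s : Bool) (x y : R) : R := if s then cm q x y else cm q y x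

/-- Adding the letters `e (a+1), …, e (a+k)` to `x`. -/
noncomputable def ext (q : ℂ) (e : ℕ → R) (ε : ℕ → Bool) (x : R) (a : ℕ) : ℕ → R
  | 0 => x
  | k + 1 => cs q (ε (a + k + 1)) (ext q e ε x a k) (e (a + k + 1))

/-- The ribbon on the letters `e a, …, e (a+k)`. -/
noncomputable def rib (q : ℂ) (e : ℕ → R) (ε : ℕ → Bool) (a k : ℕ) : R := ext q e ε (e a) a k

variable {e e' : ℕ → R} {ε ε' : ℕ → Bool}

theorem ext_succ (x : R) (a k : ℕ) :
    ext q e ε x a (k + 1) = cs q (ε (a + k + 1)) (ext q e ε x a k) (e (a + k + 1)) := rfl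

theorem ext_ext (x : R) (a k l : ℕ) :
    ext q e ε (ext q e ε x a k) (a + k) l = ext q e ε x a (k + l) := by
  induction l with
  | zero => rfl
  | succ l ih => rw [ext_succ, ih, ← add_assoc, ext_succ, add_assoc a k l]

theorem ext_congr (x : R) (a k : ℕ) (h : ∀ j, a < j → j ≤ a + k → e j = e' j ∧ ε j = ε' j) :
    ext q e ε x a k = ext q e' ε' x a k := by
  induction k with
  | zero => rfl
  | succ k ih =>
    rw [ext_succ, ext_succ, ih (fun j h1 h2 => h j h1 (by omega)),
      (h (a + k + 1) (by omega) (by omega)).1, (h (a + k + 1) (by omega) (by omega)).2]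

theorem rib_congr (a k : ℕ) (h : ∀ j, a ≤ j → j ≤ a + k → e j = e' j)
    (h' : ∀ j, a < j → j ≤ a + k → ε j = ε' j) :
    rib q e ε a k = rib q e' ε' a k := by
  rw [rib, rib, h a le_rfl (by omega)]
  exact ext_congr _ _ _ fun j h1 h2 => ⟨h j (by omega) h2, h' j h1 h2⟩

theorem cs_neg_left (s : Bool) (x y : R) : cs q s (-x) y = -cs q s x y := by
  cases s <;> simp [cs, cm_neg_left, cm_neg_right]

theorem cs_neg_right (s : Bool) (x y : R) : cs q s x (-y) = -cs q s x y := by
  cases s <;> simp [cs, cm_neg_left, cm_neg_right]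

theorem ext_neg (x : R) (a k : ℕ) : ext q e ε (-x) a k = -ext q e ε x a k := by
  induction k with
  | zero => rfl
  | succ k ih => rw [ext_succ, ih, cs_neg_left]; rfl

theorem cs_cs (s s' : Bool) (x y t : R) (hxt : x * t = t * x) :
    cs q s' (cs q s x y) t = cs q s x (cs q s' y t) := by
  cases s <;> cases s' <;> simp only [cs, if_true, if_false, Bool.false_eq_true]
  · exact (cm_cm_assoc t y x hxt).symm
  · exact cm_cm_swap x y t hxt.symm
  · exact cm_cm_swap' x y t hxt.symm
  · exact cm_cm_assoc x y t hxt.symm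

theorem ext_cs (s : Bool) (y x : R) (a k : ℕ)
    (h : ∀ j, a < j → j ≤ a + k → y * e j = e j * y) :
    ext q e ε (cs q s y x) a k = cs q s y (ext q e ε x a k) := by
  induction k with
  | zero => rfl
  | succ k ih =>
    rw [ext_succ, ih (fun j h1 h2 => h j h1 (by omega)),
      cs_cs _ _ _ _ _ (h (a + k + 1) (by omega) (by omega))]
    rfl

theorem comm_cs (s : Bool) {x y t : R} (hx : x * t = t * x) (hy : y * t = t * y) :
    cs q s x y * t = t * cs q s x y := by
  cases s <;> simp only [cs, if_true, if_false, Bool.false_eq_true]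
  · exact comm_cm hy hx
  · exact comm_cm hx hy

theorem ext_comm (x t : R) (a k : ℕ) (hx : x * t = t * x)
    (h : ∀ j, a < j → j ≤ a + k → e j * t = t * e j) :
    ext q e ε x a k * t = t * ext q e ε x a k := by
  induction k with
  | zero => exact hx
  | succ k ih =>
    exact comm_cs _ (ih (fun j h1 h2 => h j h1 (by omega))) (h (a + k + 1) (by omega) (by omega))

theorem rib_comm (t : R) (a k : ℕ) (h : ∀ j, a ≤ j → j ≤ a + k → e j * t = t * e j) :
    rib q e ε a k * t = t * rib q e ε a k :=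
  ext_comm _ _ _ _ (h a le_rfl (by omega)) fun j h1 h2 => h j (by omega) h2

/-- Letters at distance at least two commute. -/
def Far (e : ℕ → R) : Prop := ∀ i j, i + 1 < j → e i * e j = e j * e i

theorem rib_split (he : Far e) (a k l : ℕ) :
    rib q e ε a (k + 1 + l) =
      cs q (ε (a + k + 1)) (rib q e ε a k) (rib q e ε (a + k + 1) l) := by
  rw [rib, ← ext_ext, ext_succ]
  have h2 : a + (k + 1) = a + k + 1 := by omega
  rw [h2, ext_cs]
  · rfl
  · intro j h1 h2
    exact rib_comm _ _ _ fun i h3 h4 => he i j (by omega)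

theorem map_cs {S : Type*} [Ring S] [Algebra ℂ S] (T : R →ₐ[ℂ] S) (s : Bool) (x y : R) :
    T (cs q s x y) = cs q s (T x) (T y) := by
  cases s <;> simp [cs, cm]

theorem map_ext {S : Type*} [Ring S] [Algebra ℂ S] (T : R →ₐ[ℂ] S) (x : R) (a k : ℕ) :
    T (ext q e ε x a k) = ext q (fun j => T (e j)) ε (T x) a k := by
  induction k with
  | zero => rfl
  | succ k ih => rw [ext_succ, ext_succ, map_cs, ih]

theorem map_rib {S : Type*} [Ring S] [Algebra ℂ S] (T : R →ₐ[ℂ] S) (a k : ℕ) :
    T (rib q e ε a k) = rib q (fun j => T (e j)) ε a k := map_ext T _ _ _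

/-- The relation between a sequence of letters and its image under the braid operator `T_j`. -/
structure BraidSeq (q : ℂ) (e e' : ℕ → R) (j : ℕ) : Prop where
  far : Far e
  far' : Far e'
  fix : ∀ i, i + 1 < j ∨ j + 1 < i → e' i = e i
  up : e' (j + 1) = -cm q (e j) (e (j + 1))
  down : ∀ i, i + 1 = j → e' i = -cm q (e j) (e i)
  up' : cm q (e' (j + 1)) (e' j) = -e (j + 1)
  down' : ∀ i, i + 1 = j → cm q (e' i) (e' j) = -e i

variable {j : ℕ}

/-- `T_j` fixes a ribbon far from `j`. -/
theorem BraidSeq.caseA (H : BraidSeq q e e' j) (a k : ℕ) (h : j + 1 < a ∨ a + k + 1 < j)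
    (hε : ∀ c, a < c → c ≤ a + k → ε c = ε' c) :
    rib q e' ε a k = rib q e ε' a k :=
  rib_congr _ _ (fun i h1 h2 => H.fix i (by omega)) hε

/-- `T_j` of a ribbon starting at `j + 1`. -/
theorem BraidSeq.caseB (H : BraidSeq q e e' j) (k : ℕ) (h1 : ε' (j + 1) = true)
    (hε : ∀ c, j + 1 < c → c ≤ j + 1 + k → ε c = ε' c) :
    rib q e' ε (j + 1) k = -rib q e ε' j (k + 1) := by
  have h2 : rib q e ε' j (k + 1) = ext q e ε' (cm q (e j) (e (j + 1))) (j + 1) k := by
    rw [rib, add_comm k 1, ← ext_ext]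
    congr 1
    rw [ext_succ]
    simp [ext, cs, h1]
  rw [h2, ← ext_neg, ← H.up, rib]
  exact ext_congr _ _ _ fun i h1 h2 => ⟨H.fix i (by omega), hε i h1 h2⟩

/-- `T_j` of a ribbon starting at `j`. -/
theorem BraidSeq.caseC (H : BraidSeq q e e' j) (k : ℕ) (h1 : ε (j + 1) = false)
    (hε : ∀ c, j + 1 < c → c ≤ j + 1 + k → ε c = ε' c) :
    rib q e' ε j (k + 1) = -rib q e ε' (j + 1) k := by
  have h2 : rib q e' ε j (k + 1) = ext q e' ε (cm q (e' (j + 1)) (e' j)) (j + 1) k := by
    rw [rib, add_comm k 1, ← ext_ext]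
    congr 1
    rw [ext_succ]
    simp [ext, cs, h1]
  rw [h2, H.up', ext_neg, rib]
  congr 1
  exact ext_congr _ _ _ fun i h1 h2 => ⟨H.fix i (by omega), hε i h1 h2⟩

/-- `T_j` of a ribbon ending at letter `j - 1`. -/
theorem BraidSeq.caseD (H : BraidSeq q e e' j) (a k : ℕ) (hj : a + k + 1 = j)
    (h1 : ε' j = false) (hε : ∀ c, a < c → c ≤ a + k → ε c = ε' c) :
    rib q e' ε a k = -rib q e ε' a (k + 1) := by
  subst hj
  have h2 : rib q e ε' a (k + 1) = cm q (e (a + k + 1)) (rib q e ε' a k) := by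
    rw [rib, ext_succ, h1]; rfl
  rw [h2]
  cases k with
  | zero => simp only [rib, ext, H.down a rfl]
  | succ k =>
    have hd := H.down (a + k + 1) rfl
    have h3 : rib q e' ε a k = rib q e ε' a k :=
      rib_congr _ _ (fun i h1 h2 => H.fix i (by omega)) (fun c h1 h2 => hε c h1 (by omega))
    rw [rib, ext_succ, ← rib, h3, hd, cs_neg_right, hε (a + k + 1) (by omega) le_rfl]
    congr 1
    have hcomm : rib q e ε' a k * e (a + (k + 1) + 1) = e (a + (k + 1) + 1) * rib q e ε' a k :=
      rib_comm _ _ _ fun i h1 h2 => H.far _ _ (by omega)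
    have := cs_cs (q := q) (ε' (a + k + 1)) false (rib q e ε' a k) (e (a + k + 1))
      (e (a + (k + 1) + 1)) hcomm
    simp only [cs, Bool.false_eq_true, if_false] at this ⊢
    exact this.symm

/-- `T_j` of a ribbon ending at letter `j`. -/
theorem BraidSeq.caseE (H : BraidSeq q e e' j) (a k : ℕ) (hj : a + k + 1 = j)
    (h1 : ε j = true) (hε : ∀ c, a < c → c ≤ a + k → ε c = ε' c) :
    rib q e' ε a (k + 1) = -rib q e ε' a k := by
  subst hj
  rw [rib, ext_succ, h1]
  cases k with
  | zero => simp only [rib, ext, cs, if_true]; exact H.down' a rfl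
  | succ k =>
    have hd := H.down' (a + k + 1) rfl
    have h3 : rib q e' ε a k = rib q e ε' a k :=
      rib_congr _ _ (fun i h1 h2 => H.fix i (by omega)) (fun c h1 h2 => hε c h1 (by omega))
    have hcomm : rib q e' ε a k * e' (a + (k + 1) + 1) = e' (a + (k + 1) + 1) * rib q e' ε a k :=
      rib_comm _ _ _ fun i h1 h2 => H.far' _ _ (by omega)
    have h4 := cs_cs (q := q) (ε (a + k + 1)) true (rib q e' ε a k) (e' (a + k + 1))
      (e' (a + (k + 1) + 1)) hcomm
    rw [ext_succ, ← rib, h4]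
    have h5 : cs q true (e' (a + k + 1)) (e' (a + (k + 1) + 1)) = -e (a + k + 1) := hd
    rw [h5, cs_neg_right, h3, hε (a + k + 1) (by omega) (by omega)]
    rfl

/-- `T_j` of a ribbon on the three letters `j - 1, j, j + 1`. -/
theorem BraidSeq.three {a : ℕ} (H : BraidSeq q e e' (a + 1)) (h : ¬ (ε (a + 1) = false ∧ ε (a + 2) = true))
    (h1 : ε' (a + 1) = ε (a + 2)) (h2 : ε' (a + 2) = ε (a + 1)) :
    rib q e' ε a 2 = rib q e ε' a 2 := by
  have hup := H.up
  have hdown := H.down a rfl
  have hup' := H.up'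
  have hdown' := H.down' a rfl
  have hf : e a * e (a + 2) = e (a + 2) * e a := H.far _ _ (by omega)
  have hf' : e' a * e' (a + 2) = e' (a + 2) * e' a := H.far' _ _ (by omega)
  have hup2 : e' (a + 2) = -cm q (e (a + 1)) (e (a + 2)) := hup
  have hup2' : cm q (e' (a + 2)) (e' (a + 1)) = -e (a + 2) := hup'
  have e1 : rib q e' ε a 2 = cs q (ε (a + 2)) (cs q (ε (a + 1)) (e' a) (e' (a + 1)))
      (e' (a + 2)) := rfl
  have e2 : rib q e ε' a 2 = cs q (ε' (a + 2)) (cs q (ε' (a + 1)) (e a) (e (a + 1)))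
      (e (a + 2)) := rfl
  rw [e1, e2, h1, h2]
  rcases hb1 : ε (a + 1) with _ | _ <;> rcases hb2 : ε (a + 2) with _ | _
  · -- both signs minus
    rw [cs_cs _ _ _ _ _ hf', cs_cs _ _ _ _ _ hf]
    simp only [cs, Bool.false_eq_true, if_false]
    rw [hup2', hdown, cm_neg_left, cm_neg_right, neg_neg]
    have := cs_cs (q := q) false false (e a) (e (a + 1)) (e (a + 2)) hf
    simp only [cs, Bool.false_eq_true, if_false] at this
    rw [← this]
  · exact absurd ⟨hb1, hb2⟩ h
  · -- plus, minus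
    simp only [cs, Bool.false_eq_true, if_false, if_true]
    rw [hdown', hup2, cm_neg_left, cm_neg_right, neg_neg]
    exact (cm_cm_swap (e a) (e (a + 1)) (e (a + 2)) hf.symm).symm
  · simp only [cs, if_true]
    rw [hdown', hup2, cm_neg_left, cm_neg_right, neg_neg]
    exact (cm_cm_assoc _ _ _ hf.symm).symm

/-- `T_j` of a ribbon containing the three letters `j - 1, j, j + 1`. -/
theorem BraidSeq.caseF (H : BraidSeq q e e' j) (a k : ℕ) (h : a < j) (hj : j + 1 ≤ a + k)
    (hne : ¬ (ε j = false ∧ ε (j + 1) = true))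
    (h1 : ε' j = ε (j + 1)) (h2 : ε' (j + 1) = ε j)
    (hε : ∀ c, a < c → c ≤ a + k → c ≠ j → c ≠ j + 1 → ε c = ε' c) :
    rib q e' ε a k = rib q e ε' a k := by
  obtain ⟨p, rfl⟩ : ∃ p, j = a + p + 1 := ⟨j - a - 1, by omega⟩
  obtain ⟨l, rfl⟩ : ∃ l, k = p + 2 + l := ⟨k - p - 2, by omega⟩
  have e1 : rib q e' ε a (p + 2) = rib q e ε' a (p + 2) := by
    have H' : BraidSeq q e e' (a + p + 1) := H
    have h3 := H'.three (a := a + p) hne h1 h2
    cases p with
    | zero => exact h3
    | succ p =>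
      have h4 := rib_split (q := q) (ε := ε) H.far' a p 2
      have h5 := rib_split (q := q) (ε := ε') H.far a p 2
      have h6 : p + 1 + 2 = p + 1 + 2 := rfl
      rw [h4, h5]
      have h7 : a + (p + 1) = a + p + 1 := rfl
      rw [h7] at h3
      rw [h3, hε (a + p + 1) (by omega) (by omega) (by omega) (by omega)]
      congr 1
      exact rib_congr _ _ (fun i h1 h2 => H.fix i (by omega))
        (fun c h1 h2 => hε c h1 (by omega) (by omega) (by omega))
  rw [rib, rib, ← ext_ext (e := e'), ← ext_ext (e := e), ← rib, ← rib, e1]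
  exact ext_congr _ _ _ fun i h1 h2 => ⟨H.fix i (by omega), hε i (by omega) (by omega) (by omega)
    (by omega)⟩

end Pool.Agent.Helper24.QTangent
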