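import Pool.Agent.Helper24.QTangent.Basic

/-!
# Words in the simple transpositions, crossings and reducedness

Words are lists of elements of `Fin n`; the letter `i` acts as the transposition `(i, i+1)` of
`ℕ` (only `0, …, n` are moved).
-/

namespace Pool.Agent.Helper24.QTangent

variable {n : ℕ}

/-- All roots of the word are positive, i.e. the word is reduced. -/
def Red (w : List (Fin n)) : Prop :=
  ∀ (u : List (Fin n)) (i : Fin n) (v : List (Fin n)), w = u ++ i :: v →
    pm u (i : ℕ) < pm u ((i : ℕ) + 1)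

@[simp] theorem pm_nil : pm ([] : List (Fin n)) = 1 := rfl

theorem pm_cons (i : Fin n) (w : List (Fin n)) : pm (i :: w) = sw i * pm w := by
  simp [pm]

theorem pm_append (u v : List (Fin n)) : pm (u ++ v) = pm u * pm v := by
  simp [pm]

theorem pm_snoc (u : List (Fin n)) (i : Fin n) : pm (u ++ [i]) = pm u * sw i := by
  simp [pm]

theorem sw_inv (i : ℕ) : (sw i)⁻¹ = sw i := Equiv.swap_inv _ _

theorem sw_apply_self (i : ℕ) : sw i i = i + 1 := Equiv.swap_apply_left _ _
theorem sw_apply_succ (i : ℕ) : sw i (i + 1) = i := Equiv.swap_apply_right _ _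
theorem sw_apply_ne {i r : ℕ} (h : r ≠ i) (h' : r ≠ i + 1) : sw i r = r :=
  Equiv.swap_apply_of_ne_of_ne h h'

theorem sw_eq (i r : ℕ) : sw i r = if r = i then i + 1 else if r = i + 1 then i else r := by
  split_ifs with h h'
  · rw [h, sw_apply_self]
  · rw [h', sw_apply_succ]
  · exact sw_apply_ne h h'

theorem sw_lt (i r s : ℕ) (h : r < s) (h' : ¬ (r = i ∧ s = i + 1)) : sw i r < sw i s := by
  rw [sw_eq, sw_eq]; split_ifs <;> omega

theorem sw_sw (i r : ℕ) : sw i (sw i r) = r := by
  rw [sw_eq, sw_eq]; split_ifs <;> omega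

theorem Red.left {u v : List (Fin n)} (h : Red (u ++ v)) : Red u := by
  rintro u' i v' rfl
  exact h u' i (v' ++ v) (by simp)

theorem Red.snoc_lt {u : List (Fin n)} {i : Fin n} (h : Red (u ++ [i])) :
    pm u (i : ℕ) < pm u ((i : ℕ) + 1) := h u i [] rfl

theorem red_snoc {u : List (Fin n)} {i : Fin n} (h : Red u)
    (h' : pm u (i : ℕ) < pm u ((i : ℕ) + 1)) : Red (u ++ [i]) := by
  intro u' j v' he
  rcases List.eq_nil_or_concat v' with rfl | ⟨v'', k, rfl⟩
  · have := List.append_inj' he (by simp)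
    obtain ⟨rfl, h2⟩ := this
    simp only [List.cons.injEq, and_true] at h2
    rw [← h2]; exact h'
  · have he2 : u ++ [i] = (u' ++ j :: v'') ++ [k] := by simpa using he
    have := List.append_inj' he2 (by simp)
    exact h u' j v'' this.1

theorem red_nil : Red ([] : List (Fin n)) := by
  intro u i v h; simp at h

theorem inv_mul_apply' (π : Equiv.Perm ℕ) (i x : ℕ) : (π * sw i)⁻¹ x = sw i (π⁻¹ x) := by
  rw [mul_inv_rev, sw_inv]; rfl

theorem inv_mul_apply'' (π : Equiv.Perm ℕ) (i x : ℕ) : (sw i * π)⁻¹ x = π⁻¹ (sw i x) := by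
  rw [mul_inv_rev, sw_inv]; rfl

theorem crossed_snoc {u : List (Fin n)} {i : Fin n}
    (h : pm u (i : ℕ) < pm u ((i : ℕ) + 1)) {x y : ℕ} (hxy : x < y) :
    Crossed (u ++ [i]) x y ↔ Crossed u x y ∨ (pm u (i : ℕ) = x ∧ pm u ((i : ℕ) + 1) = y) := by
  unfold Crossed
  rw [pm_snoc, inv_mul_apply', inv_mul_apply']
  have hx : pm u ((pm u)⁻¹ x) = x := Equiv.apply_symm_apply _ _
  have hy : pm u ((pm u)⁻¹ y) = y := Equiv.apply_symm_apply _ _
  generalize (pm u)⁻¹ x = r at *
  generalize (pm u)⁻¹ y = s at *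
  subst hx hy
  have h1 : ∀ a b : ℕ, pm u a = pm u b ↔ a = b := fun a b => (pm u).injective.eq_iff
  rw [h1, h1]
  constructor
  · intro h2
    by_cases h3 : (i : ℕ) = r ∧ (i : ℕ) + 1 = s
    · right; exact h3
    · left
      by_contra h4
      have h5 : r < s := by
        rcases lt_trichotomy r s with h | h | h
        · exact h
        · subst h; exact absurd hxy (lt_irrefl _)
        · exact absurd h h4
      exact absurd (sw_lt i r s h5 (fun h6 => h3 ⟨h6.1.symm, h6.2.symm⟩)) (by omega)
  · rintro (h2 | ⟨h2, h3⟩)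
    · refine sw_lt i s r h2 ?_
      rintro ⟨rfl, rfl⟩
      omega
    · subst h2; subst h3
      rw [sw_apply_self, sw_apply_succ]; omega

theorem Crossed.mono {u v : List (Fin n)} (h : Red (u ++ v)) {x y : ℕ} (hxy : x < y)
    (hc : Crossed u x y) : Crossed (u ++ v) x y := by
  induction v using List.reverseRecOn with
  | nil => simpa using hc
  | append_singleton v i ih =>
    rw [← List.append_assoc] at h ⊢
    rw [crossed_snoc h.snoc_lt hxy]
    left
    exact ih h.left

theorem not_crossed_nil {x y : ℕ} (hxy : x < y) : ¬ Crossed ([] : List (Fin n)) x y := by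
  unfold Crossed; simp; omega

theorem crossed_iff_root {w : List (Fin n)} (h : Red w) {x y : ℕ} (hxy : x < y) :
    Crossed w x y ↔ ∃ (u : List (Fin n)) (i : Fin n) (v : List (Fin n)), w = u ++ i :: v ∧
      pm u (i : ℕ) = x ∧ pm u ((i : ℕ) + 1) = y := by
  induction w using List.reverseRecOn with
  | nil => simp [not_crossed_nil hxy]
  | append_singleton w i ih =>
    rw [crossed_snoc h.snoc_lt hxy, ih h.left]
    constructor
    · rintro (⟨u, j, v, rfl, h1, h2⟩ | ⟨h1, h2⟩)
      · exact ⟨u, j, v ++ [i], by simp, h1, h2⟩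
      · exact ⟨w, i, [], by simp, h1, h2⟩
    · rintro ⟨u, j, v, he, h1, h2⟩
      rcases List.eq_nil_or_concat v with rfl | ⟨v', k, rfl⟩
      · have := List.append_inj' he (by simp)
        obtain ⟨rfl, h3⟩ := this
        simp only [List.cons.injEq, and_true] at h3
        subst h3
        exact Or.inr ⟨h1, h2⟩
      · have he2 : w ++ [i] = (u ++ j :: v') ++ [k] := by simpa using he
        have := List.append_inj' he2 (by simp)
        exact Or.inl ⟨u, j, v', this.1, h1, h2⟩

/-- Positions of `j` and `j + 1` before adding the letter `j` on the left. -/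
theorem Red.cons_pos {j : Fin n} {u : List (Fin n)} (h : Red (j :: u)) :
    (pm u)⁻¹ (j : ℕ) < (pm u)⁻¹ ((j : ℕ) + 1) := by
  have h1 : Crossed (j :: u) (j : ℕ) ((j : ℕ) + 1) :=
    (crossed_iff_root h (by omega)).2 ⟨[], j, u, rfl, rfl, rfl⟩
  unfold Crossed at h1
  rw [pm_cons, inv_mul_apply'', inv_mul_apply'', sw_apply_self, sw_apply_succ] at h1
  exact h1

theorem Red.tail {j : Fin n} {w : List (Fin n)} (h : Red (j :: w)) : Red w := by
  rintro u i v rfl
  have h1 : Red (j :: u) := Red.left (u := j :: u) (v := i :: v) h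
  have h2 : pm (j :: u) (i : ℕ) < pm (j :: u) ((i : ℕ) + 1) := h (j :: u) i v rfl
  have h3 := h1.cons_pos
  rw [pm_cons, Equiv.Perm.mul_apply, Equiv.Perm.mul_apply] at h2
  by_contra h4
  have h5 : pm u ((i : ℕ) + 1) < pm u (i : ℕ) := by
    rcases lt_trichotomy (pm u (i : ℕ)) (pm u ((i : ℕ) + 1)) with h | h | h
    · exact absurd h h4
    · have := (pm u).injective h; omega
    · exact h
  by_cases h6 : pm u ((i : ℕ) + 1) = j ∧ pm u (i : ℕ) = j + 1
  · rw [← h6.2, ← h6.1] at h3
    simp at h3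
  · have := sw_lt j _ _ h5 h6
    omega

/-- A letter `i < n` moves only `0, …, n`. -/
theorem pm_le (w : List (Fin n)) {x : ℕ} (hx : x ≤ n) : pm w x ≤ n := by
  induction w with
  | nil => simpa using hx
  | cons i w ih =>
    rw [pm_cons, Equiv.Perm.mul_apply, sw_eq]
    have := i.2
    split_ifs <;> omega

theorem pm_gt (w : List (Fin n)) {x : ℕ} (hx : n < x) : pm w x = x := by
  induction w with
  | nil => simp
  | cons i w ih =>
    rw [pm_cons, Equiv.Perm.mul_apply, ih, sw_eq]
    have := i.2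
    split_ifs <;> omega

/-- The inversions of the word. -/
noncomputable def invs (w : List (Fin n)) : Finset (ℕ × ℕ) :=
  letI := Classical.decPred fun p : ℕ × ℕ => p.1 < p.2 ∧ Crossed w p.1 p.2
  ((Finset.range (n + 1)) ×ˢ (Finset.range (n + 1))).filter
    fun p => p.1 < p.2 ∧ Crossed w p.1 p.2

theorem mem_invs {w : List (Fin n)} {p : ℕ × ℕ} :
    p ∈ invs w ↔ (p.1 ≤ n ∧ p.2 ≤ n) ∧ p.1 < p.2 ∧ Crossed w p.1 p.2 := by
  unfold invs
  simp only [Finset.mem_filter, Finset.mem_product, Finset.mem_range, Nat.lt_succ_iff]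

theorem card_invs_snoc_le (w : List (Fin n)) (i : Fin n) :
    (invs (w ++ [i])).card ≤ (invs w).card + 1 := by
  classical
  have : invs (w ++ [i]) ⊆ insert (pm w i, pm w (i + 1)) (invs w) := by
    intro p hp
    rw [mem_invs] at hp
    rw [Finset.mem_insert, mem_invs]
    obtain ⟨h1, h2, h3⟩ := hp
    by_cases hlt : pm w (i : ℕ) < pm w ((i : ℕ) + 1)
    · rw [crossed_snoc hlt h2] at h3
      rcases h3 with h3 | ⟨h3, h4⟩
      · exact Or.inr ⟨h1, h2, h3⟩
      · left; rw [h3, h4]
    · right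
      refine ⟨h1, h2, ?_⟩
      unfold Crossed at h3 ⊢
      rw [pm_snoc, inv_mul_apply', inv_mul_apply'] at h3
      by_contra h4
      have h5 : (pm w)⁻¹ p.1 < (pm w)⁻¹ p.2 := by
        rcases lt_trichotomy ((pm w)⁻¹ p.1) ((pm w)⁻¹ p.2) with h | h | h
        · exact h
        · have := (pm w)⁻¹.injective h; omega
        · exact absurd h h4
      by_cases h6 : (pm w)⁻¹ p.1 = i ∧ (pm w)⁻¹ p.2 = i + 1
      · apply hlt
        rw [← h6.2, ← h6.1]
        have hx : pm w ((pm w)⁻¹ p.1) = p.1 := Equiv.apply_symm_apply _ _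
        have hy : pm w ((pm w)⁻¹ p.2) = p.2 := Equiv.apply_symm_apply _ _
        rw [hx, hy]; exact h2
      · have := sw_lt i _ _ h5 h6
        omega
  exact (Finset.card_le_card this).trans (Finset.card_insert_le _ _)

theorem card_invs_snoc_neg {w : List (Fin n)} {i : Fin n}
    (h : ¬ pm w (i : ℕ) < pm w ((i : ℕ) + 1)) :
    (invs (w ++ [i])).card ≤ (invs w).card := by
  classical
  apply Finset.card_le_card
  intro p hp
  rw [mem_invs] at hp ⊢
  obtain ⟨h1, h2, h3⟩ := hp
  refine ⟨h1, h2, ?_⟩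
  unfold Crossed at h3 ⊢
  rw [pm_snoc, inv_mul_apply', inv_mul_apply'] at h3
  by_contra h4
  have h5 : (pm w)⁻¹ p.1 < (pm w)⁻¹ p.2 := by
    rcases lt_trichotomy ((pm w)⁻¹ p.1) ((pm w)⁻¹ p.2) with h | h | h
    · exact h
    · have := (pm w)⁻¹.injective h; omega
    · exact absurd h h4
  by_cases h6 : (pm w)⁻¹ p.1 = i ∧ (pm w)⁻¹ p.2 = i + 1
  · apply h
    rw [← h6.2, ← h6.1]
    have hx : pm w ((pm w)⁻¹ p.1) = p.1 := Equiv.apply_symm_apply _ _
    have hy : pm w ((pm w)⁻¹ p.2) = p.2 := Equiv.apply_symm_apply _ _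
    rw [hx, hy]; exact h2
  · have := sw_lt i _ _ h5 h6
    omega

theorem card_invs_append_le (u v : List (Fin n)) :
    (invs (u ++ v)).card ≤ (invs u).card + v.length := by
  induction v using List.reverseRecOn with
  | nil => simp
  | append_singleton v i ih =>
    rw [← List.append_assoc, List.length_append, List.length_singleton]
    have := card_invs_snoc_le (u ++ v) i
    omega

theorem card_invs_le (w : List (Fin n)) : (invs w).card ≤ w.length := by
  have h := card_invs_append_le ([] : List (Fin n)) w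
  have h0 : (invs ([] : List (Fin n))).card = 0 := by
    rw [Finset.card_eq_zero, Finset.eq_empty_iff_forall_notMem]
    intro p hp
    rw [mem_invs] at hp
    exact not_crossed_nil hp.2.1 hp.2.2
  simpa [h0] using h

theorem red_of_card {w : List (Fin n)} (h : (invs w).card = w.length) : Red w := by
  rintro u i v rfl
  by_contra hneg
  have h1 := card_invs_snoc_neg hneg
  have h2 := card_invs_le u
  have h3 := card_invs_append_le (u ++ [i]) v
  rw [List.append_assoc] at h3
  simp only [List.singleton_append] at h3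
  rw [h, List.length_append, List.length_cons] at h3
  omega

theorem card_pairs (N : ℕ) :
    ((Finset.range (N + 1) ×ˢ Finset.range (N + 1)).filter
      fun p : ℕ × ℕ => p.1 < p.2).card = N * (N + 1) / 2 := by
  have : ((Finset.range (N + 1) ×ˢ Finset.range (N + 1)).filter
      fun p : ℕ × ℕ => p.1 < p.2) =
      (Finset.range (N + 1)).biUnion fun y => (Finset.range y).image fun x => (x, y) := by
    ext ⟨x, y⟩
    simp only [Finset.mem_filter, Finset.mem_product, Finset.mem_range, Finset.mem_biUnion,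
      Finset.mem_image, Prod.mk.injEq]
    constructor
    · rintro ⟨⟨h1, h2⟩, h3⟩
      exact ⟨y, h2, x, h3, rfl, rfl⟩
    · rintro ⟨y', h2, x', h3, rfl, rfl⟩
      exact ⟨⟨by omega, h2⟩, h3⟩
  rw [this, Finset.card_biUnion]
  · have : ∀ y ∈ Finset.range (N + 1),
        ((Finset.range y).image fun x => (x, y)).card = y := by
      intro y _
      rw [Finset.card_image_of_injective _ (fun a b h => by simpa using h), Finset.card_range]
    rw [Finset.sum_congr rfl this, Finset.sum_range_id, Nat.add_sub_cancel, mul_comm]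
  · intro y _ z _ hyz
    rw [Function.onFun, Finset.disjoint_left]
    rintro ⟨a, b⟩ h1 h2
    simp only [Finset.mem_image, Prod.mk.injEq] at h1 h2
    obtain ⟨_, _, _, h1⟩ := h1
    obtain ⟨_, _, _, h2⟩ := h2
    exact hyz (h1.trans h2.symm)

theorem IsW0.inv_apply {w : List (Fin n)} (h : IsW0 w) {x : ℕ} (hx : x ≤ n) :
    (QTangent.pm w)⁻¹ x = n - x := by
  rw [Equiv.Perm.inv_eq_iff_eq, h.perm_eq (n - x) (by omega)]; omega

theorem IsW0.crossed {w : List (Fin n)} (h : IsW0 w) {x y : ℕ} (hxy : x < y) (hy : y ≤ n) :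
    Crossed w x y := by
  unfold Crossed
  rw [h.inv_apply hy, h.inv_apply (by omega)]; omega

theorem IsW0.red {w : List (Fin n)} (h : IsW0 w) : Red w := by
  apply red_of_card
  rw [h.length_eq, ← card_pairs n]
  congr 1
  ext ⟨x, y⟩
  rw [mem_invs]
  simp only [Finset.mem_filter, Finset.mem_product, Finset.mem_range, Nat.lt_succ_iff]
  constructor
  · rintro ⟨⟨h1, h2⟩, h3, _⟩; exact ⟨⟨h1, h2⟩, h3⟩
  · rintro ⟨⟨h1, h2⟩, h3⟩; exact ⟨⟨h1, h2⟩, h3, h.crossed h3 h2⟩

end Pool.Agent.Helper24.QTangent
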