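import Pool.Agent.Helper24.QTangent.Braid
import Pool.Agent.Helper24.QTangent.Ribbon
import Pool.Agent.Helper24.QTangent.Words

/-!
# Lusztig's root vectors are ribbons
-/

namespace Pool.Agent.Helper24.QTangent

variable {n : ℕ} {q : ℂ}

/-- The sequence of the `E_j`, extended by zero. -/
noncomputable def Es (n : ℕ) (q : ℂ) (j : ℕ) : U n q := if h : j < n then E n q ⟨j, h⟩ else 0

theorem Es_fin (i : Fin n) : Es n q (i : ℕ) = E n q i := by simp [Es]

theorem cartan_far {i j : Fin n} (h : (i : ℕ) + 1 < j) : cartan i j = 0 := by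
  unfold cartan
  rw [if_neg (fun e => by rw [e] at h; omega), if_neg (by omega)]

theorem cartan_succ {i j : Fin n} (h : (i : ℕ) + 1 = j) : cartan i j = -1 := by
  unfold cartan
  rw [if_neg (fun e => by rw [e] at h; omega), if_pos (Or.inl h)]

theorem far_Es : Far (Es n q) := by
  intro i j h
  unfold Es
  by_cases hi : i < n
  · by_cases hj : j < n
    · rw [dif_pos hi, dif_pos hj]
      exact EE_comm _ _ (cartan_far h)
    · rw [dif_neg hj, mul_zero, zero_mul]
  · rw [dif_neg hi, mul_zero, zero_mul]

section T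

variable (hq : q ≠ 0) (hq2 : q ^ 2 ≠ 1) (hq4 : q ^ 2 + 1 ≠ 0)

theorem lusztigT_E (i j : Fin n) : lusztigT n q hq hq2 hq4 i (E n q j) = tE i j := by
  simp [lusztigT, lusztigData]

theorem braidSeq_T (j : Fin n) :
    BraidSeq q (Es n q) (fun i => lusztigT n q hq hq2 hq4 j (Es n q i)) j where
  far := far_Es
  far' i k h := by
    change lusztigT n q hq hq2 hq4 j _ * lusztigT n q hq hq2 hq4 j _ = _
    rw [← map_mul, far_Es i k h, map_mul]
  fix i h := by
    change lusztigT n q hq hq2 hq4 j (Es n q i) = Es n q i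
    unfold Es
    by_cases hi : i < n
    · rw [dif_pos hi, lusztigT_E, tE_far]
      rcases h with h | h
      · rw [cartan_comm]; exact cartan_far h
      · exact cartan_far h
    · rw [dif_neg hi, map_zero]
  up := by
    change lusztigT n q hq hq2 hq4 j (Es n q (j + 1)) = -cm q (Es n q j) (Es n q (j + 1))
    rw [Es_fin]
    unfold Es
    by_cases hi : (j : ℕ) + 1 < n
    · rw [dif_pos hi, lusztigT_E, tE_adj (cartan_succ rfl)]
    · rw [dif_neg hi, map_zero]; simp [cm]
  down i h := by
    change lusztigT n q hq hq2 hq4 j (Es n q i) = -cm q (Es n q j) (Es n q i)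
    rw [Es_fin]
    unfold Es
    have hi : i < n := by omega
    rw [dif_pos hi, lusztigT_E, tE_adj (by rw [cartan_comm]; exact cartan_succ h)]
  up' := by
    change cm q (lusztigT n q hq hq2 hq4 j (Es n q (j + 1)))
      (lusztigT n q hq hq2 hq4 j (Es n q j)) = - Es n q (j + 1)
    rw [Es_fin, lusztigT_E]
    unfold Es
    by_cases hi : (j : ℕ) + 1 < n
    · rw [dif_pos hi, lusztigT_E]
      have h := tE_qcomm (q := q) hq hq2 (i := j) (j := ⟨j + 1, hi⟩) (cartan_succ rfl)
      rw [cm, h, smul_add, smul_smul, smul_smul, inv_mul_cancel₀ hq, one_smul, one_smul]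
      abel
    · rw [dif_neg hi, map_zero]; simp [cm]
  down' i h := by
    change cm q (lusztigT n q hq hq2 hq4 j (Es n q i))
      (lusztigT n q hq hq2 hq4 j (Es n q j)) = - Es n q i
    have hi : i < n := by omega
    rw [Es_fin, lusztigT_E]
    unfold Es
    rw [dif_pos hi, lusztigT_E]
    have h := tE_qcomm (q := q) hq hq2 (i := j) (j := ⟨i, hi⟩)
      (by rw [cartan_comm]; exact cartan_succ h)
    rw [cm, h, smul_add, smul_smul, smul_smul, inv_mul_cancel₀ hq, one_smul, one_smul]
    abel

/-- The root vector attached to the letter `i` after the word `u`. -/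
noncomputable def rootVec (n : ℕ) (q : ℂ) (hq : q ≠ 0) (hq2 : q ^ 2 ≠ 1) (hq4 : q ^ 2 + 1 ≠ 0)
    (u : List (Fin n)) (i : Fin n) : U n q :=
  (u.map (lusztigT n q hq hq2 hq4)).prod (E n q i)

theorem rootVec_cons (j : Fin n) (u : List (Fin n)) (i : Fin n) :
    rootVec n q hq hq2 hq4 (j :: u) i =
      lusztigT n q hq hq2 hq4 j (rootVec n q hq hq2 hq4 u i) := by
  simp [rootVec]

/-- The sign vector of a root vector. -/
def sgn (u : List (Fin n)) (i : Fin n) (c : ℕ) : Bool := decide ((pm u)⁻¹ c < i)

/-- Lusztig's root vector is, up to sign, a ribbon. -/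
theorem rootVec_eq_rib (u : List (Fin n)) (i : Fin n) (h : Red (u ++ [i])) :
    ∃ c : ℂ, (c = 1 ∨ c = -1) ∧ rootVec n q hq hq2 hq4 u i =
      c • rib q (Es n q) (sgn u i) (pm u i) (pm u (i + 1) - pm u i - 1) := by
  induction u with
  | nil =>
    refine ⟨1, Or.inl rfl, ?_⟩
    simp [rootVec, rib, ext, Es_fin]
  | cons j u ih =>
    obtain ⟨c, hc, hu⟩ := ih h.tail
    have hp := Red.cons_pos (Red.left (u := j :: u) (v := [i]) h)
    have hlt : pm u (i : ℕ) < pm u ((i : ℕ) + 1) := h.tail u i [] rfl
    have hlt' : pm (j :: u) (i : ℕ) < pm (j :: u) ((i : ℕ) + 1) := h (j :: u) i [] rfl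
    rw [rootVec_cons, hu, map_smul, map_rib]
    have H := braidSeq_T (q := q) hq hq2 hq4 j
    have ha : (pm u)⁻¹ (pm u (i : ℕ)) = i := by simp
    have hb : (pm u)⁻¹ (pm u ((i : ℕ) + 1)) = i + 1 := by simp
    have hinj : ∀ x y, (pm u)⁻¹ x = (pm u)⁻¹ y → x = y := fun x y h => (pm u)⁻¹.injective h
    have hsg : ∀ c, sgn (j :: u) i c = sgn u i (sw j c) := by
      intro c; unfold sgn; rw [pm_cons, inv_mul_apply'']
    rw [pm_cons, Equiv.Perm.mul_apply, Equiv.Perm.mul_apply] at hlt' ⊢
    generalize pm u (i : ℕ) = a at *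
    generalize pm u ((i : ℕ) + 1) = b at *
    have hneg : ∀ x : U n q, c • -x = (-c) • x := fun x => by rw [smul_neg, neg_smul]
    have hc' : -c = 1 ∨ -c = -1 := by
      rcases hc with rfl | rfl
      · right; rfl
      · left; norm_num
    have hfix : ∀ c : ℕ, c ≠ (j : ℕ) → c ≠ (j : ℕ) + 1 → sgn u i c = sgn (j :: u) i c := by
      intro c h1 h2; rw [hsg, sw_apply_ne h1 h2]
    by_cases h1 : (j : ℕ) + 1 < a ∨ b < j
    · -- far
      refine ⟨c, hc, ?_⟩
      rw [sw_apply_ne (by omega) (by omega), sw_apply_ne (by omega) (by omega)]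
      congr 1
      exact H.caseA _ _ (by omega) fun c h2 h3 => hfix c (by omega) (by omega)
    by_cases h2 : (j : ℕ) + 1 = a
    · -- case B
      refine ⟨-c, hc', ?_⟩
      subst h2
      rw [sw_apply_succ, sw_apply_ne (by omega) (by omega), ← hneg]
      congr 1
      have h3 : b - j - 1 = (b - (j + 1) - 1) + 1 := by omega
      rw [h3]
      apply H.caseB
      · rw [hsg, sw_apply_succ]; exact decide_eq_true (by omega)
      · intro c h4 h5; exact hfix c (by omega) (by omega)
    by_cases h3 : (j : ℕ) = b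
    · -- case D
      refine ⟨-c, hc', ?_⟩
      subst h3
      rw [sw_apply_self, sw_apply_ne (by omega) (by omega), ← hneg]
      congr 1
      have h3 : (j : ℕ) + 1 - a - 1 = ((j : ℕ) - a - 1) + 1 := by omega
      rw [h3]
      apply H.caseD
      · omega
      · rw [hsg, sw_apply_self]; exact decide_eq_false (by omega)
      · intro c h4 h5; exact hfix c (by omega) (by omega)
    by_cases h4 : (j : ℕ) = a
    · -- case C
      subst h4
      by_cases h5 : b = j + 1
      · subst h5; rw [sw_apply_self, sw_apply_succ] at hlt'; omega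
      refine ⟨-c, hc', ?_⟩
      rw [sw_apply_self, sw_apply_ne (by omega) (by omega), ← hneg]
      congr 1
      have h3 : b - j - 1 = (b - (j + 1) - 1) + 1 := by omega
      rw [h3]
      apply H.caseC
      · exact decide_eq_false (by omega)
      · intro c h4 h5; exact hfix c (by omega) (by omega)
    by_cases h5 : (j : ℕ) + 1 = b
    · -- case E
      refine ⟨-c, hc', ?_⟩
      subst h5
      rw [sw_apply_succ, sw_apply_ne (by omega) (by omega), ← hneg]
      congr 1
      have h3 : (j : ℕ) + 1 - a - 1 = ((j : ℕ) - a - 1) + 1 := by omega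
      rw [h3]
      apply H.caseE
      · omega
      · have h6 : (pm u)⁻¹ (j : ℕ) ≠ i := fun h7 => by
          have := hinj _ _ (h7.trans ha.symm); omega
        exact decide_eq_true (by omega)
      · intro c h4 h5; exact hfix c (by omega) (by omega)
    · -- case F
      refine ⟨c, hc, ?_⟩
      rw [sw_apply_ne (by omega) (by omega), sw_apply_ne (by omega) (by omega)]
      congr 1
      apply H.caseF
      · omega
      · omega
      · rintro ⟨h6, h7⟩
        have h6' := of_decide_eq_false h6
        have h7' := of_decide_eq_true h7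
        omega
      · rw [hsg, sw_apply_self]
      · rw [hsg, sw_apply_succ]
      · intro c h6 h7 h8 h9; exact hfix c h8 h9

end T

end Pool.Agent.Helper24.QTangent
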