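import Pool.Agent.Helper24.QTangent.Tangent

/-!
# The sufficient condition
-/

namespace Pool.Agent.Helper24.QTangent

open scoped TensorProduct

variable {n : ℕ} {q : ℂ}

/-- The weight of the root `(a, b)`. -/
def wt (a b : ℕ) (c : Fin n) : ℤ := fz c a - fz c b

theorem hasWt_Es (a : ℕ) : HasWt (Es n q a) (wt a (a + 1)) := by
  unfold Es
  by_cases h : a < n
  · rw [dif_pos h]
    have := hasWt_E (q := q) (⟨a, h⟩ : Fin n)
    convert this using 1
    funext c
    rw [cartan_eq_fz]; rfl
  · rw [dif_neg h]; intro c; simp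

theorem hasWt_cs (hq : q ≠ 0) {x y : U n q} {μ ν : Fin n → ℤ} (hx : HasWt x μ)
    (hy : HasWt y ν) (s : Bool) : HasWt (cs q s x y) (μ + ν) := by
  cases s
  · have := hy.cm hq hx
    rw [add_comm] at this
    exact this
  · exact hx.cm hq hy

theorem hasWt_rb (hq : q ≠ 0) (ε : ℕ → Bool) {a b : ℕ} (hab : a < b) :
    HasWt (rb n q ε a b) (wt a b) := by
  refine rb_induction (P := fun b => HasWt (rb n q ε a b) (wt a b)) hab ?_ ?_
  · rw [rb_simple]; exact hasWt_Es a
  · intro c h1 _ ih
    rw [rb_succ ε h1]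
    have := hasWt_cs hq ih (hasWt_Es (n := n) (q := q) c) (ε c)
    convert this using 1
    funext d
    simp [wt]

/-- The standard sign vector with splitting point `m`. -/
def sm (m : ℕ) (c : ℕ) : Bool := decide (c ≤ m)

/-- The span of the `X_J ⊗ y` with `J = (x', z')`, `x ≤ x' ≤ m < z' ≤ z` and `y` of complementary
weight. -/
noncomputable def ssp (n : ℕ) (q : ℂ) (m x z : ℕ) : Submodule ℂ (U n q ⊗[ℂ] U n q) :=
  Submodule.span ℂ {t | ∃ x' z' : ℕ, x ≤ x' ∧ x' ≤ m ∧ m < z' ∧ z' ≤ z ∧
    ∃ y : U n q, HasWt y (wt x z - wt x' z') ∧ t = rb n q (sm m) x' z' ⊗ₜ y}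

section

variable (hq : q ≠ 0)

theorem comul_Es {c : ℕ} (hc : c < n) : comul n q hq (Es n q c) =
    Es n q c ⊗ₜ K n q ⟨c, hc⟩ + 1 ⊗ₜ Es n q c := by
  have h : Es n q c = E n q ⟨c, hc⟩ := by simp [Es, hc]
  rw [h, comul_E]

/-- Adding a letter `c` adjacent to the interval `(x, z)`. -/
theorem step (hq : q ≠ 0) {m x z x₁ z₁ c : ℕ} (hc : c < n) (hx : x ≤ m) (hz : m < z)
    (h : (c = z ∧ x₁ = x ∧ z₁ = z + 1) ∨ (c + 1 = x ∧ x₁ = c ∧ z₁ = z))
    (ih : comul n q hq (rb n q (sm m) x z) - 1 ⊗ₜ rb n q (sm m) x z ∈ ssp n q m x z) :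
    comul n q hq (cm q (Es n q c) (rb n q (sm m) x z)) -
      1 ⊗ₜ cm q (Es n q c) (rb n q (sm m) x z) ∈ ssp n q m x₁ z₁ := by
  set Y := rb n q (sm m) x z with hY
  have hwtY : K n q ⟨c, hc⟩ * Y = q⁻¹ • (Y * K n q ⟨c, hc⟩) := by
    have h1 := hasWt_rb (n := n) hq (sm m) (show x < z by omega) ⟨c, hc⟩
    rw [h1]
    congr 1
    rw [← zpow_neg_one]
    congr 1
    unfold wt fz
    simp only
    rcases h with ⟨rfl, _, _⟩ | ⟨rfl, _, _⟩
    · split_ifs <;> omega
    · split_ifs <;> omega
  -- the coproduct of the new ribbon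
  have e1 : comul n q hq (cm q (Es n q c) Y) = cm q (comul n q hq (Es n q c)) (comul n q hq Y) := by
    simp [cm]
  obtain ⟨w, hw⟩ : ∃ w, w = comul n q hq Y - 1 ⊗ₜ Y := ⟨_, rfl⟩
  rw [← hw] at ih
  have e2 : comul n q hq Y = 1 ⊗ₜ Y + w := by rw [hw]; abel
  have e3 : cm q (comul n q hq (Es n q c)) (comul n q hq Y) - 1 ⊗ₜ cm q (Es n q c) Y =
      cm q (comul n q hq (Es n q c)) w := by
    rw [e2, comul_Es hq hc]
    simp only [cm, mul_add, add_mul, Algebra.TensorProduct.tmul_mul_tmul, one_mul, mul_one,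
      smul_add, hwtY, TensorProduct.tmul_smul, TensorProduct.tmul_sub]
    abel
  rw [e1, e3]
  clear e1 e2 e3 hw
  induction ih using Submodule.span_induction with
  | zero => simp [cm]
  | add s t _ _ hs ht =>
    have : cm q (comul n q hq (Es n q c)) (s + t) =
        cm q (comul n q hq (Es n q c)) s + cm q (comul n q hq (Es n q c)) t := by
      simp only [cm, mul_add, add_mul, smul_add]; abel
    rw [this]; exact Submodule.add_mem _ hs ht
  | smul a t _ ht => rw [cm_smul_right]; exact Submodule.smul_mem _ _ ht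
  | mem t ht =>
    obtain ⟨x', z', h1, h2, h3, h4, y, hy, rfl⟩ := ht
    set XJ := rb n q (sm m) x' z' with hXJ
    rw [comul_Es hq hc]
    have hwt1 : wt x₁ z₁ = (wt c (c + 1) + wt x z : Fin n → ℤ) := by
      funext d
      rw [Pi.add_apply]
      unfold wt
      rcases h with ⟨rfl, rfl, rfl⟩ | ⟨rfl, rfl, rfl⟩ <;> ring
    -- the part with `E_c` in the right leg
    have hb : XJ ⊗ₜ[ℂ] cm q (Es n q c) y ∈ ssp n q m x₁ z₁ := by
      apply Submodule.subset_span
      refine ⟨x', z', by omega, h2, h3, by omega, _, ?_, rfl⟩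
      have := (hasWt_Es (n := n) (q := q) c).cm hq hy
      convert this using 1
      rw [hwt1]; abel
    by_cases hadj : (c = z ∧ z' = z) ∨ (c + 1 = x ∧ x' = x)
    · -- adjacent
      have hKy : K n q ⟨c, hc⟩ * y = y * K n q ⟨c, hc⟩ := by
        rw [hy]
        have : (wt x z - wt x' z' : Fin n → ℤ) ⟨c, hc⟩ = 0 := by
          rw [Pi.sub_apply]
          unfold wt fz
          simp only
          rcases hadj with ⟨rfl, rfl⟩ | ⟨rfl, rfl⟩
          · split_ifs <;> omega
          · split_ifs <;> omega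
        rw [this, zpow_zero, one_smul]
      have ha : cm q (Es n q c) XJ ⊗ₜ[ℂ] (y * K n q ⟨c, hc⟩) ∈ ssp n q m x₁ z₁ := by
        apply Submodule.subset_span
        rcases hadj with ⟨h5, h6⟩ | ⟨h5, rfl⟩
        · have h7 : z' = c := by omega
          refine ⟨x', c + 1, by omega, h2, by omega, by omega, y * K n q ⟨c, hc⟩, ?_, ?_⟩
          · have := hy.mul hq (hasWt_K (q := q) ⟨c, hc⟩)
            convert this using 1
            rw [hwt1]
            funext d
            simp only [Pi.sub_apply, Pi.add_apply, Pi.zero_apply, wt, h7]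
            ring
          · rw [rb_succ _ (by omega)]
            have : sm m c = false := decide_eq_false (by omega)
            rw [this, hXJ, h7]; rfl
        · refine ⟨c, z', by omega, by omega, by omega, by omega, y * K n q ⟨c, hc⟩, ?_, ?_⟩
          · have := hy.mul hq (hasWt_K (q := q) ⟨c, hc⟩)
            convert this using 1
            rw [hwt1]
            funext d
            simp only [Pi.sub_apply, Pi.add_apply, Pi.zero_apply, wt, ← h5]
            ring
          · rw [rb_split _ (Nat.lt_succ_self c) (by omega), rb_simple]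
            have : sm m (c + 1) = true := decide_eq_true (by omega)
            rw [this, hXJ, ← h5]; rfl
      have : cm q (Es n q c ⊗ₜ[ℂ] K n q ⟨c, hc⟩ + 1 ⊗ₜ Es n q c) (XJ ⊗ₜ y) =
          cm q (Es n q c) XJ ⊗ₜ[ℂ] (y * K n q ⟨c, hc⟩) + XJ ⊗ₜ[ℂ] cm q (Es n q c) y := by
        simp only [cm, mul_add, add_mul, Algebra.TensorProduct.tmul_mul_tmul, one_mul, mul_one,
          smul_add, hKy, TensorProduct.tmul_smul, TensorProduct.tmul_sub, TensorProduct.sub_tmul,
          TensorProduct.smul_tmul']
        abel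
      rw [this]
      exact Submodule.add_mem _ ha hb
    · -- not adjacent
      have hKy : K n q ⟨c, hc⟩ * y = q⁻¹ • (y * K n q ⟨c, hc⟩) := by
        rw [hy]
        have : (wt x z - wt x' z' : Fin n → ℤ) ⟨c, hc⟩ = -1 := by
          rw [Pi.sub_apply]
          unfold wt fz
          simp only
          rcases h with ⟨rfl, _, _⟩ | ⟨rfl, _, _⟩
          · split_ifs <;> omega
          · split_ifs <;> omega
        rw [this, zpow_neg_one]
      have hcomm : XJ * Es n q c = Es n q c * XJ := by
        apply rb_comm _ _ _ (by omega)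
        intro j h5 h6
        rcases h with ⟨rfl, _, _⟩ | ⟨rfl, _, _⟩
        · exact far_Es j c (by omega)
        · exact (far_Es c j (by omega)).symm
      have : cm q (Es n q c ⊗ₜ[ℂ] K n q ⟨c, hc⟩ + 1 ⊗ₜ Es n q c) (XJ ⊗ₜ y) =
          XJ ⊗ₜ[ℂ] cm q (Es n q c) y := by
        simp only [cm, mul_add, add_mul, Algebra.TensorProduct.tmul_mul_tmul, one_mul, mul_one,
          smul_add, hKy, hcomm, TensorProduct.tmul_smul, TensorProduct.tmul_sub,
          TensorProduct.sub_tmul, TensorProduct.smul_tmul']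
        abel
      rw [this]
      exact hb

theorem comul_rb (hq : q ≠ 0) {m x z : ℕ} (hx : x ≤ m) (hz : m < z) (hzn : z ≤ n) :
    comul n q hq (rb n q (sm m) x z) - 1 ⊗ₜ rb n q (sm m) x z ∈ ssp n q m x z := by
  -- first the intervals `(m, z)`
  have h1 : ∀ k, m + 1 + k ≤ n → comul n q hq (rb n q (sm m) m (m + 1 + k)) -
      1 ⊗ₜ rb n q (sm m) m (m + 1 + k) ∈ ssp n q m m (m + 1 + k) := by
    intro k
    induction k with
    | zero =>
      intro hm
      rw [add_zero, rb_simple, comul_Es hq (by omega), add_sub_cancel_right]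
      apply Submodule.subset_span
      refine ⟨m, m + 1, le_rfl, le_rfl, by omega, le_rfl, K n q ⟨m, by omega⟩, ?_, ?_⟩
      · rw [sub_self]; exact hasWt_K _
      · rw [rb_simple]
    | succ k ih =>
      intro hm
      have h2 : rb n q (sm m) m (m + 1 + (k + 1)) =
          cm q (Es n q (m + 1 + k)) (rb n q (sm m) m (m + 1 + k)) := by
        rw [← add_assoc, rb_succ _ (by omega)]
        have : sm m (m + 1 + k) = false := decide_eq_false (by omega)
        rw [this]; rfl
      rw [h2]
      exact step hq (by omega) le_rfl (by omega) (Or.inl ⟨rfl, rfl, rfl⟩) (ih (by omega))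
  have h2 : ∀ k x, x + k = m → comul n q hq (rb n q (sm m) x z) - 1 ⊗ₜ rb n q (sm m) x z ∈
      ssp n q m x z := by
    intro k
    induction k with
    | zero =>
      intro x hx
      have := h1 (z - m - 1) (by omega)
      have e : m + 1 + (z - m - 1) = z := by omega
      rw [e] at this
      have e2 : x = m := by omega
      rw [e2]; exact this
    | succ k ih =>
      intro x hx
      have h3 : rb n q (sm m) x z = cm q (Es n q x) (rb n q (sm m) (x + 1) z) := by
        rw [rb_split _ (Nat.lt_succ_self x) (by omega), rb_simple]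
        have : sm m (x + 1) = true := decide_eq_true (by omega)
        rw [this]; rfl
      rw [h3]
      exact step hq (by omega) (by omega) hz (Or.inr ⟨rfl, rfl, rfl⟩) (ih (x + 1) (by omega))
  exact h2 (m - x) x (by omega)

theorem counit_Es (a : ℕ) : counit n q (Es n q a) = 0 := by
  unfold Es
  split_ifs with h
  · unfold counit; rw [LiftData.lift_E]; rfl
  · exact map_zero _

theorem counit_rb (ε : ℕ → Bool) {a b : ℕ} (hab : a < b) : counit n q (rb n q ε a b) = 0 := by
  refine rb_induction (P := fun b => counit n q (rb n q ε a b) = 0) hab ?_ ?_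
  · rw [rb_simple]; exact counit_Es a
  · intro c h1 _ ih
    rw [rb_succ ε h1, map_cs, counit_Es]
    cases ε c <;> simp [cs, cm]

theorem rightTangent_of_RC {χ : ℕ → ℕ → ℕ → Bool} (h : RC n χ) :
    IsRightTangent hq (tsp n q χ) := by
  constructor
  · intro x hx
    unfold tsp at hx
    induction hx using Submodule.span_induction with
    | mem x hx => obtain ⟨a, b, hab, hb, rfl⟩ := hx; exact counit_rb _ hab
    | zero => exact map_zero _
    | add x y _ _ hx hy => rw [map_add, hx, hy, add_zero]
    | smul c x _ hx => rw [map_smul, hx, smul_zero]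
  · intro x hx
    unfold addOne at hx
    obtain ⟨y, hy, z, hz, rfl⟩ := Submodule.mem_sup.mp hx
    obtain ⟨c, rfl⟩ := Submodule.mem_span_singleton.mp hz
    rw [map_add, map_smul, map_one, Algebra.TensorProduct.one_def]
    apply Submodule.add_mem
    · clear hx hz
      unfold tsp at hy
      induction hy using Submodule.span_induction with
      | mem x hx =>
        obtain ⟨a, b, hab, hb, rfl⟩ := hx
        obtain ⟨m, h1, h2, h3⟩ := h a b hab hb
        have e : ∀ x z, a ≤ x → x ≤ m → m < z → z ≤ b →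
            rb n q (fun c => χ x c z) x z = rb n q (sm m) x z := by
          intro x z hx hxm hmz hz
          apply rb_congr
          intro c hc hc'
          unfold sm
          by_cases h4 : c ≤ m
          · rw [(h3 x c z hx hc hc' hz).1 h4 hmz, decide_eq_true h4]
          · rw [(h3 x c z hx hc hc' hz).2 hxm (by omega), decide_eq_false h4]
        rw [e a b le_rfl h1 h2 le_rfl]
        have h4 := comul_rb (n := n) hq h1 h2 hb
        have h5 : comul n q hq (rb n q (sm m) a b) =
            (comul n q hq (rb n q (sm m) a b) - 1 ⊗ₜ rb n q (sm m) a b) +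
              1 ⊗ₜ rb n q (sm m) a b := by abel
        rw [h5]
        apply Submodule.add_mem
        · refine (Submodule.span_mono ?_ : ssp n q m a b ≤ _) h4
          rintro t ⟨x', z', h6, h7, h8, h9, y, _, rfl⟩
          refine ⟨_, ?_, y, rfl⟩
          rw [← e x' z' h6 h7 h8 h9]
          exact le_addOne _ (rb_mem_tsp (by omega) (by omega))
        · exact Submodule.subset_span ⟨1, one_mem_addOne _, _, rfl⟩
      | zero => rw [map_zero]; exact Submodule.zero_mem _
      | add x y _ _ hx hy =>
        rw [map_add]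
        exact Submodule.add_mem _ hx hy
      | smul c' x _ hx =>
        rw [map_smul]
        exact Submodule.smul_mem _ _ hx
    · exact Submodule.smul_mem _ _ (Submodule.subset_span ⟨1, one_mem_addOne _, 1, rfl⟩)

theorem rightTangent_iff (hq2 : q ^ 2 ≠ 1) (χ : ℕ → ℕ → ℕ → Bool) :
    IsRightTangent hq (tsp n q χ) ↔ RC n χ :=
  ⟨RC_of_rightTangent hq hq2, rightTangent_of_RC hq⟩

end

end Pool.Agent.Helper24.QTangent
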