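import Pool.Agent.Helper24.QTangent.Entries

/-!
# Tangent spaces: the classification in terms of sign assignments
-/

namespace Pool.Agent.Helper24.QTangent

open scoped TensorProduct

variable {n : ℕ} {q : ℂ}

/-- `T ⊕ ℂ 1`. -/
noncomputable def addOne (T : Submodule ℂ (U n q)) : Submodule ℂ (U n q) :=
  T ⊔ Submodule.span ℂ {1}

/-- Right tangent spaces: `Δ(T ⊕ ℂ1) ⊆ (T ⊕ ℂ1) ⊗ U`. -/
def IsRightTangent (hq : q ≠ 0) (T : Submodule ℂ (U n q)) : Prop :=
  (∀ x ∈ T, counit n q x = 0) ∧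
    ∀ x ∈ addOne T, comul n q hq x ∈
      Submodule.span ℂ {t | ∃ y ∈ addOne T, ∃ z : U n q, t = y ⊗ₜ[ℂ] z}

/-- Left tangent spaces: `Δ(T ⊕ ℂ1) ⊆ U ⊗ (T ⊕ ℂ1)`. -/
def IsLeftTangent (hq : q ≠ 0) (T : Submodule ℂ (U n q)) : Prop :=
  (∀ x ∈ T, counit n q x = 0) ∧
    ∀ x ∈ addOne T, comul n q hq x ∈
      Submodule.span ℂ {t | ∃ y : U n q, ∃ z ∈ addOne T, t = y ⊗ₜ[ℂ] z}

/-- The span of the ribbons with a given sign assignment. -/
noncomputable def tsp (n : ℕ) (q : ℂ) (χ : ℕ → ℕ → ℕ → Bool) : Submodule ℂ (U n q) :=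
  Submodule.span ℂ {x | ∃ a b : ℕ, a < b ∧ b ≤ n ∧ x = rb n q (fun c => χ a c b) a b}

/-- The combinatorial condition on a sign assignment. -/
def RC (n : ℕ) (χ : ℕ → ℕ → ℕ → Bool) : Prop :=
  ∀ a b : ℕ, a < b → b ≤ n → ∃ m : ℕ, a ≤ m ∧ m < b ∧
    ∀ x y z : ℕ, a ≤ x → x < y → y < z → z ≤ b →
      (y ≤ m → m < z → χ x y z = true) ∧ (x ≤ m → m < y → χ x y z = false)

theorem phi_mem (hq : q ≠ 0) (hq2 : q ^ 2 ≠ 1) {T : Submodule ℂ (U n q)} {x : U n q}
    (hx : comul n q hq x ∈ Submodule.span ℂ {t | ∃ y ∈ T, ∃ z : U n q, t = y ⊗ₜ[ℂ] z})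
    (i j : Fin (n + 1)) : phi hq hq2 x i j ∈ T := by
  unfold phi
  rw [AlgHom.comp_apply]
  generalize comul n q hq x = w at hx
  induction hx using Submodule.span_induction with
  | mem t ht =>
    obtain ⟨y, hy, z, rfl⟩ := ht
    rw [phi0_tmul]
    exact T.smul_mem _ hy
  | zero => rw [map_zero]; exact T.zero_mem
  | add s t _ _ hs ht => rw [map_add, Matrix.add_apply]; exact T.add_mem hs ht
  | smul c t _ ht => rw [map_smul, Matrix.smul_apply]; exact T.smul_mem _ ht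

theorem rb_mem_tsp {χ : ℕ → ℕ → ℕ → Bool} {a b : ℕ} (hab : a < b) (hb : b ≤ n) :
    rb n q (fun c => χ a c b) a b ∈ tsp n q χ :=
  Submodule.subset_span ⟨a, b, hab, hb, rfl⟩

theorem le_addOne (T : Submodule ℂ (U n q)) : T ≤ addOne T := le_sup_left

theorem one_mem_addOne (T : Submodule ℂ (U n q)) : (1 : U n q) ∈ addOne T :=
  Submodule.mem_sup_right (Submodule.mem_span_singleton_self 1)

section

variable (hq : q ≠ 0) (hq2 : q ^ 2 ≠ 1)

/-- The element of `tsp` indexed by a pair. -/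
noncomputable def zz (q : ℂ) (χ : ℕ → ℕ → ℕ → Bool) (p : Fin (n + 1) × Fin (n + 1)) : U n q :=
  if (p.1 : ℕ) < p.2 then rb n q (fun c => χ p.1 c p.2) p.1 p.2 else 0

theorem tsp_le_range (χ : ℕ → ℕ → ℕ → Bool) :
    tsp n q χ ≤ Submodule.span ℂ (Set.range (zz (n := n) q χ)) := by
  unfold tsp
  rw [Submodule.span_le]
  rintro x ⟨a, b, hab, hb, rfl⟩
  apply Submodule.subset_span
  refine ⟨(⟨a, by omega⟩, ⟨b, by omega⟩), ?_⟩
  unfold zz
  rw [if_pos (by simpa using hab)]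

theorem rho_zz (χ : ℕ → ℕ → ℕ → Bool) (p : Fin (n + 1) × Fin (n + 1)) :
    ∃ r : ℂ, (r = 0 → zz (n := n) q χ p = 0) ∧ ((p.1 : ℕ) = p.2 → r = 0) ∧
      rho n q hq hq2 (zz q χ p) = r • Matrix.single p.1 p.2 1 := by
  unfold zz
  split_ifs with h
  · obtain ⟨r, hr, hr'⟩ := rho_rb hq hq2 (fun c => χ p.1 c p.2) h (by omega : (p.2 : ℕ) ≤ n)
    exact ⟨r, fun h => absurd h hr, fun h' => absurd h' (by omega), hr' _ _ rfl rfl⟩
  · exact ⟨0, fun _ => rfl, fun _ => rfl, by simp⟩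

include hq hq2 in
/-- `ρ` is injective on `T ⊕ ℂ 1`. -/
theorem eq_zero_of_rho {χ : ℕ → ℕ → ℕ → Bool} {x : U n q} (hx : x ∈ addOne (tsp n q χ))
    (h : rho n q hq hq2 x = 0) : x = 0 := by
  classical
  unfold addOne at hx
  obtain ⟨y, hy, z, hz, rfl⟩ := Submodule.mem_sup.mp hx
  obtain ⟨c, rfl⟩ := Submodule.mem_span_singleton.mp hz
  obtain ⟨f, rfl⟩ := (Submodule.mem_span_range_iff_exists_fun ℂ).mp (tsp_le_range χ hy)
  choose r hr0 hrd hr using rho_zz (n := n) (q := q) hq hq2 χ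
  rw [map_add, map_sum, map_smul, map_one] at h
  have key : ∀ i j : Fin (n + 1), f (i, j) * r (i, j) + (if i = j then c else 0) = 0 := by
    intro i j
    have h1 := congrArg (fun M : Matrix (Fin (n + 1)) (Fin (n + 1)) ℂ => M i j) h
    simp only [map_smul, hr, Matrix.add_apply, Matrix.sum_apply, Matrix.smul_apply,
      Matrix.single_apply, smul_eq_mul, Matrix.zero_apply, Matrix.one_apply] at h1
    rw [Finset.sum_eq_single (i, j)] at h1
    · simpa using h1
    · rintro ⟨k, l⟩ _ hkl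
      rw [if_neg, mul_zero, mul_zero]
      rintro ⟨h2, h3⟩
      exact hkl (Prod.ext h2 h3)
    · intro h2; exact absurd (Finset.mem_univ _) h2
  have hc : c = 0 := by
    have h1 := key 0 0
    rw [hrd (0, 0) rfl, mul_zero, zero_add, if_pos rfl] at h1
    exact h1
  subst hc
  rw [zero_smul, add_zero]
  apply Finset.sum_eq_zero
  rintro ⟨i, j⟩ _
  have h1 := key i j
  simp only [ite_self, add_zero] at h1
  rcases mul_eq_zero.mp h1 with h1 | h1
  · rw [h1, zero_smul]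
  · rw [hr0 _ h1, smul_zero]

include hq hq2 in
theorem rb_prop_of_mem {χ : ℕ → ℕ → ℕ → Bool} {ε : ℕ → Bool} {a b : ℕ} (hab : a < b)
    (hb : b ≤ n) (h : rb n q ε a b ∈ addOne (tsp n q χ)) :
    ∃ s : ℂ, s ≠ 0 ∧ rb n q ε a b = s • rb n q (fun c => χ a c b) a b := by
  obtain ⟨r, hr, hr'⟩ := rho_rb hq hq2 ε hab hb
  obtain ⟨s, hs, hs'⟩ := rho_rb hq hq2 (fun c => χ a c b) hab hb
  refine ⟨r / s, div_ne_zero hr hs, ?_⟩
  rw [← sub_eq_zero]
  apply eq_zero_of_rho hq hq2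
  · exact Submodule.sub_mem _ h (Submodule.smul_mem _ _ (le_addOne _ (rb_mem_tsp hab hb)))
  · rw [map_sub, map_smul, hr' ⟨a, by omega⟩ ⟨b, by omega⟩ rfl rfl,
      hs' ⟨a, by omega⟩ ⟨b, by omega⟩ rfl rfl, smul_smul, div_mul_cancel₀ _ hs, sub_self]

include hq hq2 in
theorem sign_eq_of_smul {ε ε' : ℕ → Bool} {a b : ℕ} (hb : b ≤ n) {s : ℂ} (hs : s ≠ 0)
    (h : rb n q ε a b = s • rb n q ε' a b) (c : ℕ) (hac : a < c) (hcb : c < b) :
    ε c = ε' c := by
  obtain ⟨r, hr, hr'⟩ := phi_entry_left hq hq2 ε hac hcb hb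
  obtain ⟨t, ht, ht'⟩ := phi_entry_left hq hq2 ε' hac hcb hb
  rw [h, map_smul, Matrix.smul_apply, ht', smul_smul] at hr'
  rcases h1 : ε c with _ | _ <;> rcases h2 : ε' c with _ | _
  · rfl
  · exfalso
    simp only [h1, h2, if_true, Bool.false_eq_true, if_false, zero_smul, smul_eq_zero] at hr'
    rcases hr' with h3 | h3
    · exact mul_ne_zero hs ht h3
    · exact rb_ne_zero hq hq2 _ hcb hb h3
  · exfalso
    simp only [h1, h2, if_true, Bool.false_eq_true, if_false, mul_zero, zero_smul] at hr'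
    rcases smul_eq_zero.mp hr'.symm with h3 | h3
    · exact hr h3
    · exact rb_ne_zero hq hq2 _ hcb hb h3
  · rfl

include hq2 in
/-- The necessary condition. -/
theorem RC_of_rightTangent {χ : ℕ → ℕ → ℕ → Bool} (h : IsRightTangent hq (tsp n q χ)) :
    RC n χ := by
  have hphi : ∀ a b : ℕ, a < b → b ≤ n → ∀ i j : Fin (n + 1),
      phi hq hq2 (rb n q (fun c => χ a c b) a b) i j ∈ addOne (tsp n q χ) := fun a b hab hb i j =>
    phi_mem hq hq2 (h.2 _ (le_addOne _ (rb_mem_tsp hab hb))) i j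
  -- no consecutive minus, plus
  have N1 : ∀ a b c : ℕ, a < c → c + 1 < b → b ≤ n → χ a c b = false → χ a (c + 1) b = false := by
    intro a b c hac hcb hb hc
    by_contra hc1
    rw [Bool.not_eq_false] at hc1
    obtain ⟨r, hr, hr'⟩ := phi_entry_mid hq hq2 (fun c => χ a c b) hac hcb hb hc hc1
    have h1 := hphi a b (by omega) hb ⟨c, by omega⟩ ⟨c + 1, by omega⟩
    rw [hr', Submodule.smul_mem_iff _ hr] at h1
    exact mul_rb_ne_zero hq hq2 _ hac hcb hb
      (eq_zero_of_rho hq hq2 h1 (rho_mul_rb hq hq2 _ hac hcb hb))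
  have N2 : ∀ a b c : ℕ, a < c → c < b → b ≤ n → χ a c b = true →
      ∀ d, c < d → d < b → χ a d b = χ c d b := by
    intro a b c hac hcb hb hc d hcd hdb
    obtain ⟨r, hr, hr'⟩ := phi_entry_left hq hq2 (fun c => χ a c b) hac hcb hb
    have h1 := hphi a b (by omega) hb ⟨a, by omega⟩ ⟨c, by omega⟩
    rw [hr', if_pos hc, Submodule.smul_mem_iff _ hr] at h1
    obtain ⟨s, hs, hs'⟩ := rb_prop_of_mem hq hq2 hcb hb h1
    exact sign_eq_of_smul hq hq2 hb hs hs' d hcd hdb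
  have N3 : ∀ a b c : ℕ, a < c → c < b → b ≤ n → χ a c b = false →
      ∀ d, a < d → d < c → χ a d b = χ a d c := by
    intro a b c hac hcb hb hc d had hdc
    obtain ⟨r, hr, hr'⟩ := phi_entry_right hq hq2 (fun c => χ a c b) hac hcb hb hc
    have h1 := hphi a b (by omega) hb ⟨c, by omega⟩ ⟨b, by omega⟩
    rw [hr', Submodule.smul_mem_iff _ hr] at h1
    obtain ⟨s, hs, hs'⟩ := rb_prop_of_mem hq hq2 hac (by omega) h1
    exact sign_eq_of_smul hq hq2 (by omega) hs hs' d had hdc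
  intro a b hab hb
  -- the splitting point
  obtain ⟨m, h1, h2, h3, h4⟩ : ∃ m, a ≤ m ∧ m < b ∧ (∀ c, a < c → c ≤ m → χ a c b = true) ∧
      (∀ c, m < c → c < b → χ a c b = false) := by
    classical
    have hex : ∃ c, a < c ∧ (c = b ∨ χ a c b = false) := ⟨b, hab, Or.inl rfl⟩
    have hf := Nat.find_spec hex
    have hmin := fun k (hk : k < Nat.find hex) => Nat.find_min hex hk
    set c := Nat.find hex
    have hcb : c ≤ b := Nat.find_min' hex ⟨hab, Or.inl rfl⟩
    refine ⟨c - 1, by omega, by omega, ?_, ?_⟩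
    · intro d hd hd'
      have := hmin d (by omega)
      rw [not_and, not_or] at this
      have := (this hd).2
      rwa [Bool.not_eq_false] at this
    · intro d hd hd'
      have hc : χ a c b = false := by
        rcases hf.2 with h | h
        · omega
        · exact h
      obtain ⟨k, rfl⟩ : ∃ k, d = c + k := ⟨d - c, by omega⟩
      clear hd
      induction k with
      | zero => exact hc
      | succ k ih => exact N1 a b (c + k) (by omega) (by omega) hb (ih (by omega))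
  refine ⟨m, h1, h2, fun x y z hax hxy hyz hzb => ?_⟩
  -- signs of the sub-intervals
  have key : x ≤ m → m < z → χ x y z = χ a y b := by
    intro hxm hmz
    have e1 : ∀ d, x < d → d < b → χ x d b = χ a d b := by
      intro d hd hdb
      rcases Nat.eq_or_lt_of_le hax with rfl | hax'
      · rfl
      · exact (N2 a b x hax' (by omega) hb (h3 x hax' hxm) d hd hdb).symm
    rcases Nat.eq_or_lt_of_le hzb with rfl | hzb'
    · exact e1 y hxy hyz
    · have e2 : χ x z b = false := by rw [e1 z (by omega) hzb', h4 z hmz hzb']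
      rw [← N3 x b z (by omega) hzb' hb e2 y hxy hyz, e1 y hxy (by omega)]
  constructor
  · intro hym hmz
    rw [key (by omega) hmz, h3 y (by omega) hym]
  · intro hxm hmy
    rw [key hxm (by omega), h4 y hmy (by omega)]

end

end Pool.Agent.Helper24.QTangent
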