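import Pool.Agent.Helper24.QTangent.Exist

/-!
# Binary trees and splitting sign assignments; counting commutation classes
-/

namespace Pool.Agent.Helper24.QTangent

open BinaryTree

/-- The sign assignment of a binary tree, for lines starting at `s`. -/
def treeSign : BinaryTree Unit → ℕ → ℕ → ℕ → ℕ → Prop
  | nil, _, _, _, _ => False
  | node _ l r, s, x, y, z =>
    if z ≤ s + l.numNodes then treeSign l s x y z
    else if s + l.numNodes < x then treeSign r (s + l.numNodes + 1) x y z
    else y ≤ s + l.numNodes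

theorem treeSign_split (t : BinaryTree Unit) : ∀ s a b : ℕ, s ≤ a → a < b → b ≤ s + t.numNodes →
    ∃ m : ℕ, a ≤ m ∧ m < b ∧ ∀ x y z : ℕ, a ≤ x → x < y → y < z → z ≤ b →
      (y ≤ m → m < z → treeSign t s x y z) ∧ (x ≤ m → m < y → ¬ treeSign t s x y z) := by
  induction t with
  | nil => intro s a b h1 h2 h3; simp at h3; omega
  | node u l r ihl ihr =>
    intro s a b h1 h2 h3
    simp only [numNodes] at h3
    by_cases c1 : b ≤ s + l.numNodes
    · obtain ⟨m, hm1, hm2, hm3⟩ := ihl s a b h1 h2 c1
      refine ⟨m, hm1, hm2, fun x y z h4 h5 h6 h7 => ?_⟩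
      have := hm3 x y z h4 h5 h6 h7
      simp only [treeSign]
      rwa [if_pos (by omega)]
    · by_cases c2 : s + l.numNodes < a
      · obtain ⟨m, hm1, hm2, hm3⟩ := ihr (s + l.numNodes + 1) a b (by omega) h2 (by omega)
        refine ⟨m, hm1, hm2, fun x y z h4 h5 h6 h7 => ?_⟩
        have := hm3 x y z h4 h5 h6 h7
        simp only [treeSign]
        rwa [if_neg (by omega), if_pos (by omega)]
      · refine ⟨s + l.numNodes, by omega, by omega, fun x y z h4 h5 h6 h7 => ?_⟩
        simp only [treeSign]
        constructor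
        · intro h8 h9
          rw [if_neg (by omega), if_neg (by omega)]; exact h8
        · intro h8 h9
          rw [if_neg (by omega), if_neg (by omega)]; omega

theorem splitP_treeSign {n : ℕ} {t : BinaryTree Unit} (ht : t.numNodes = n) :
    SplitP n (treeSign t 0) := fun a b h1 h2 =>
  treeSign_split t 0 a b (Nat.zero_le _) h1 (by omega)

theorem exists_tree {n : ℕ} {P : ℕ → ℕ → ℕ → Prop} (h : SplitP n P) : ∀ k a : ℕ, a + k ≤ n →
    ∃ t : BinaryTree Unit, t.numNodes = k ∧ ∀ x y z : ℕ, a ≤ x → x < y → y < z → z ≤ a + k →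
      (P x y z ↔ treeSign t a x y z) := by
  intro k
  induction k using Nat.strong_induction_on with
  | _ k ih =>
  intro a hk
  rcases Nat.eq_zero_or_pos k with rfl | hkpos
  · exact ⟨nil, rfl, fun x y z h1 h2 h3 h4 => by omega⟩
  · obtain ⟨m, hm1, hm2, hm3⟩ := h a (a + k) (by omega) hk
    obtain ⟨l, hl1, hl2⟩ := ih (m - a) (by omega) a (by omega)
    obtain ⟨r, hr1, hr2⟩ := ih (a + k - (m + 1)) (by omega) (m + 1) (by omega)
    have hm : a + l.numNodes = m := by omega
    refine ⟨node () l r, by simp only [numNodes]; omega, fun x y z h1 h2 h3 h4 => ?_⟩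
    simp only [treeSign]
    rw [hm]
    split_ifs with c1 c2
    · exact hl2 x y z h1 h2 h3 (by omega)
    · exact hr2 x y z c2 h2 h3 (by omega)
    · have := hm3 x y z h1 h2 h3 h4
      by_cases c3 : y ≤ m
      · exact ⟨fun _ => c3, fun _ => this.1 c3 (by omega)⟩
      · exact ⟨fun h => absurd h (this.2 (by omega) (by omega)), fun h => absurd h c3⟩

theorem splitP_iff_tree {n : ℕ} {P : ℕ → ℕ → ℕ → Prop} :
    SplitP n P ↔ ∃ t ∈ treesOfNumNodesEq n, Agree n P (treeSign t 0) := by
  constructor
  · intro h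
    obtain ⟨t, ht, ht'⟩ := exists_tree h n 0 (by omega)
    exact ⟨t, mem_treesOfNumNodesEq.2 ht, fun x y z h1 h2 h3 =>
      ht' x y z (Nat.zero_le _) h1 h2 (by omega)⟩
  · rintro ⟨t, ht, hag⟩ a b h1 h2
    obtain ⟨m, hm1, hm2, hm3⟩ := splitP_treeSign (mem_treesOfNumNodesEq.1 ht) a b h1 h2
    refine ⟨m, hm1, hm2, fun x y z h4 h5 h6 h7 => ?_⟩
    rw [hag x y z h5 h6 (by omega)]
    exact hm3 x y z h4 h5 h6 h7

theorem treeSign_injective (t : BinaryTree Unit) : ∀ (t' : BinaryTree Unit) (s : ℕ),
    t.numNodes = t'.numNodes → (∀ x y z : ℕ, s ≤ x → x < y → y < z → z ≤ s + t.numNodes →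
      (treeSign t s x y z ↔ treeSign t' s x y z)) → t = t' := by
  induction t with
  | nil =>
    intro t' s h _
    cases t' with
    | nil => rfl
    | node u l r => simp at h
  | node u l r ihl ihr =>
    intro t' s h hag
    cases t' with
    | nil => simp at h
    | node u' l' r' =>
      simp only [numNodes] at h hag
      have hl : l.numNodes = l'.numNodes := by
        rcases Nat.lt_trichotomy l.numNodes l'.numNodes with hlt | heq | hgt
        · exfalso
          have h1 := hag s (s + l'.numNodes) (s + (l.numNodes + r.numNodes + 1)) le_rfl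
            (by omega) (by omega) le_rfl
          simp only [treeSign] at h1
          rw [if_neg (by omega), if_neg (by omega), if_neg (by omega), if_neg (by omega)] at h1
          have := h1.2 le_rfl
          omega
        · exact heq
        · exfalso
          have h1 := hag s (s + l.numNodes) (s + (l.numNodes + r.numNodes + 1)) le_rfl
            (by omega) (by omega) le_rfl
          simp only [treeSign] at h1
          rw [if_neg (by omega), if_neg (by omega), if_neg (by omega), if_neg (by omega)] at h1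
          have := h1.1 le_rfl
          omega
      have e1 : l = l' := by
        apply ihl l' s hl
        intro x y z h1 h2 h3 h4
        have := hag x y z h1 h2 h3 (by omega)
        simp only [treeSign] at this
        rwa [if_pos h4, if_pos (by omega)] at this
      have e2 : r = r' := by
        apply ihr r' (s + l.numNodes + 1) (by omega)
        intro x y z h1 h2 h3 h4
        have := hag x y z (by omega) h2 h3 (by omega)
        simp only [treeSign] at this
        rw [if_neg (by omega), if_pos (by omega), if_neg (by omega), if_pos (by omega)] at this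
        rwa [← hl] at this
      rw [e1, e2]

theorem tree_eq_of_agree {n : ℕ} {t t' : BinaryTree Unit} (ht : t ∈ treesOfNumNodesEq n)
    (ht' : t' ∈ treesOfNumNodesEq n) (h : Agree n (treeSign t 0) (treeSign t' 0)) : t = t' := by
  rw [mem_treesOfNumNodesEq] at ht ht'
  apply treeSign_injective t t' 0 (ht.trans ht'.symm)
  intro x y z _ h1 h2 h3
  exact h x y z h1 h2 (by omega)

/-! ### Counting classes -/

variable {n : ℕ}

theorem commEq_of_agree' {w w' : List (Fin n)} (h : IsW0 w) (h' : IsW0 w')
    (hag : Agree n (Pos w) (Pos w')) : CommEq w w' := by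
  have hpm : pm w = pm w' := by
    ext x
    by_cases hx : x ≤ n
    · rw [h.perm_eq x hx, h'.perm_eq x hx]
    · rw [pm_gt w (by omega), pm_gt w' (by omega)]
  apply commEq_of_agree w w' h.red h'.red hpm
  intro x y z hxy hyz
  by_cases hz : z ≤ n
  · exact hag x y z hxy hyz hz
  · have key : ∀ w : List (Fin n), Red w → (Pos w x y z ↔ Crossed w x y) := by
      intro w hw
      constructor
      · rintro ⟨p, ⟨s, rfl⟩, h1, _⟩
        exact h1.mono hw hxy
      · intro h1
        refine ⟨w, List.prefix_rfl, h1, ?_⟩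
        unfold Crossed
        rw [(inRange_all w).inv_fix (x := z) (by omega)]
        by_cases hy : y ≤ n
        · have := ((inRange_all w).inv_mem (Nat.zero_le y) hy).2
          omega
        · rw [(inRange_all w).inv_fix (x := y) (by omega)]; omega
    rw [key w h.red, key w' h'.red, crossed_of_pm hpm]

theorem mk_eq_of_commEq {w w' : List (Fin n)} (h : CommEq w w') : ∀ (hw : IsW0 w)
    (hw' : IsW0 w'), (Quot.mk _ ⟨w, hw⟩ : CommClass n) = Quot.mk _ ⟨w', hw'⟩ := by
  have hiff : ∀ {w w' : List (Fin n)}, CommEq w w' → (IsW0 w ↔ IsW0 w') := by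
    intro w w' h
    obtain ⟨h1, h2, _⟩ := h.red_pm
    exact ⟨fun h => ⟨h2 ▸ h.length_eq, h1 ▸ h.perm_eq⟩, fun h => ⟨h2.symm ▸ h.length_eq, h1.symm ▸ h.perm_eq⟩⟩
  induction h with
  | rel w w' h => intro hw hw'; exact Quot.sound h
  | refl w => intro hw hw'; rfl
  | symm w w' _ ih => intro hw hw'; exact (ih hw' hw).symm
  | trans w w' w'' h1 _ ih1 ih2 =>
    intro hw hw''
    have hw' := (hiff h1).1 hw
    exact (ih1 hw hw').trans (ih2 hw' hw'')

theorem commEq_of_mk_eq {w w' : {w : List (Fin n) // IsW0 w}}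
    (h : (Quot.mk _ w : CommClass n) = Quot.mk _ w') : CommEq w.1 w'.1 := by
  have h1 := Quot.eqvGen_exact h
  induction h1 with
  | rel w w' h' => exact Relation.EqvGen.rel _ _ h'
  | refl w => exact Relation.EqvGen.refl _
  | symm w w' h' ih => exact Relation.EqvGen.symm _ _ (ih h.symm)
  | trans w w' w'' h1 h2 ih1 ih2 =>
    exact Relation.EqvGen.trans _ _ _ (ih1 (Quot.eqvGen_sound h1)) (ih2 (Quot.eqvGen_sound h2))

theorem mk_eq_iff (w w' : {w : List (Fin n) // IsW0 w}) :
    (Quot.mk _ w : CommClass n) = Quot.mk _ w' ↔ Agree n (Pos w.1) (Pos w'.1) := by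
  constructor
  · intro h x y z hxy hyz _
    exact (commEq_of_mk_eq h).red_pm.2.2.2 w.2.red x y z hxy hyz
  · intro h
    exact mk_eq_of_commEq (commEq_of_agree' w.2 w'.2 h) w.2 w'.2

theorem Agree.symm {P Q : ℕ → ℕ → ℕ → Prop} (h : Agree n P Q) : Agree n Q P :=
  fun x y z h1 h2 h3 => (h x y z h1 h2 h3).symm

theorem Agree.trans {P Q R : ℕ → ℕ → ℕ → Prop} (h : Agree n P Q) (h' : Agree n Q R) :
    Agree n P R :=
  fun x y z h1 h2 h3 => (h x y z h1 h2 h3).trans (h' x y z h1 h2 h3)

/-- Counting the commutation classes with a given property. -/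
theorem ncard_classes {ι : Type*} (S : Finset ι) (Q : ι → ℕ → ℕ → ℕ → Prop)
    (hex : ∀ t ∈ S, ∃ w : List (Fin n), IsW0 w ∧ Agree n (Pos w) (Q t))
    (hinj : ∀ t ∈ S, ∀ t' ∈ S, Agree n (Q t) (Q t') → t = t')
    (P : List (Fin n) → Prop)
    (hP : ∀ w, IsW0 w → (P w ↔ ∃ t ∈ S, Agree n (Pos w) (Q t))) :
    Set.ncard {c : CommClass n | ∃ w : {w : List (Fin n) // IsW0 w}, Quot.mk _ w = c ∧ P w.1} =
      S.card := by
  classical
  choose f hf1 hf2 using hex
  let g : S → CommClass n := fun t => Quot.mk _ ⟨f t.1 t.2, hf1 t.1 t.2⟩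
  have hg : Function.Injective g := by
    intro t t' h
    have h1 := (mk_eq_iff _ _).1 h
    apply Subtype.ext
    exact hinj _ t.2 _ t'.2 (((hf2 t.1 t.2).symm.trans h1).trans (hf2 t'.1 t'.2))
  have hset : {c : CommClass n | ∃ w : {w : List (Fin n) // IsW0 w}, Quot.mk _ w = c ∧ P w.1} =
      Set.range g := by
    ext c
    constructor
    · rintro ⟨w, rfl, hw⟩
      obtain ⟨t, ht, hag⟩ := (hP w.1 w.2).1 hw
      refine ⟨⟨t, ht⟩, ?_⟩
      exact (mk_eq_iff _ _).2 ((hf2 t ht).trans hag.symm)
    · rintro ⟨t, rfl⟩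
      exact ⟨⟨f t.1 t.2, hf1 t.1 t.2⟩, rfl, (hP _ (hf1 t.1 t.2)).2 ⟨t.1, t.2, hf2 t.1 t.2⟩⟩
  rw [hset, ← Set.image_univ, Set.ncard_image_of_injective _ hg, Set.ncard_univ,
    Nat.card_eq_fintype_card, Fintype.card_coe]

theorem splitRight_iff (w : List (Fin n)) : SplitRight w ↔ SplitP n (Pos w) := Iff.rfl

theorem splitLeft_iff (w : List (Fin n)) : SplitLeft w ↔ SplitP n (fun x y z => ¬ Pos w x y z) := by
  unfold SplitLeft SplitP
  simp only [not_not]

/-- There are Catalan many right classes. -/
theorem ncard_splitRight : Set.ncard {c : CommClass n |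
    ∃ w : {w : List (Fin n) // IsW0 w}, Quot.mk _ w = c ∧ SplitRight w.1} = catalan n := by
  rw [← treesOfNumNodesEq_card_eq_catalan]
  apply ncard_classes (treesOfNumNodesEq n) (fun t => treeSign t 0)
  · intro t ht
    exact exists_isW0 (splitP_treeSign (mem_treesOfNumNodesEq.1 ht))
  · intro t ht t' ht' h
    exact tree_eq_of_agree ht ht' h
  · intro w hw
    rw [splitRight_iff, splitP_iff_tree]

theorem ncard_splitLeft : Set.ncard {c : CommClass n |
    ∃ w : {w : List (Fin n) // IsW0 w}, Quot.mk _ w = c ∧ SplitLeft w.1} = catalan n := by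
  rw [← treesOfNumNodesEq_card_eq_catalan]
  apply ncard_classes (treesOfNumNodesEq n) (fun t x y z => ¬ treeSign t 0 x y z)
  · intro t ht
    obtain ⟨w, hw, hag⟩ := exists_isW0 (splitP_treeSign (mem_treesOfNumNodesEq.1 ht))
    refine ⟨star w, hw.star, fun x y z h1 h2 h3 => ?_⟩
    rw [pos_star hw h1 h2 h3, hag x y z h1 h2 h3]
  · intro t ht t' ht' h
    exact tree_eq_of_agree ht ht' fun x y z h1 h2 h3 => not_iff_not.mp (h x y z h1 h2 h3)
  · intro w hw
    rw [splitLeft_iff, splitP_iff_tree]
    constructor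
    · rintro ⟨t, ht, h⟩
      exact ⟨t, ht, fun x y z h1 h2 h3 => not_iff_comm.mp (h x y z h1 h2 h3) |>.symm⟩
    · rintro ⟨t, ht, h⟩
      exact ⟨t, ht, fun x y z h1 h2 h3 => not_iff_comm.mp (h x y z h1 h2 h3).symm⟩

theorem both_interval {P : ℕ → ℕ → ℕ → Prop} (h1 : SplitP n P)
    (h2 : SplitP n (fun x y z => ¬ P x y z)) {a b : ℕ} (hab : a + 2 ≤ b) (hb : b ≤ n) :
    (∀ x y z, a ≤ x → x < y → y < z → z ≤ b → (x = a ∨ z = b) → P x y z) ∨
      (∀ x y z, a ≤ x → x < y → y < z → z ≤ b → (x = a ∨ z = b) → ¬ P x y z) := by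
  obtain ⟨m, hm1, hm2, hm3⟩ := h1 a b (by omega) hb
  obtain ⟨k, hk1, hk2, hk3⟩ := h2 a b (by omega) hb
  simp only [not_not] at hk3
  have key : ∀ y, a < y → y < b → (y ≤ m ↔ k < y) := by
    intro y h3 h4
    have e1 := hm3 a y b le_rfl h3 h4 le_rfl
    have e2 := hk3 a y b le_rfl h3 h4 le_rfl
    constructor
    · intro h5
      by_contra h6
      exact e2.1 (by omega) hk2 (e1.1 h5 hm2)
    · intro h5
      by_contra h6
      exact e1.2 hm1 (by omega) (e2.2 hk1 h5)
  by_cases hma : a < m
  · left
    have hka : k = a := by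
      have := (key (a + 1) (by omega) (by omega)).1 (by omega)
      omega
    have hmb : m = b - 1 := by
      have := (key (b - 1) (by omega) (by omega)).2 (by omega)
      omega
    intro x y z h3 h4 h5 h6 h7
    rcases h7 with rfl | rfl
    · exact (hk3 x y z h3 h4 h5 h6).2 (by omega) (by omega)
    · exact (hm3 x y z h3 h4 h5 h6).1 (by omega) (by omega)
  · right
    have hma' : m = a := by omega
    have hkb : k = b - 1 := by
      have := (key (b - 1) (by omega) (by omega)).not.1 (by omega)
      omega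
    intro x y z h3 h4 h5 h6 h7
    rcases h7 with rfl | rfl
    · exact (hm3 x y z h3 h4 h5 h6).2 (by omega) (by omega)
    · exact (hk3 x y z h3 h4 h5 h6).1 (by omega) (by omega)

/-- Both conditions hold exactly for the two constant sign assignments. -/
theorem split_both_iff {P : ℕ → ℕ → ℕ → Prop} :
    (SplitP n P ∧ SplitP n (fun x y z => ¬ P x y z)) ↔
      (Agree n P (fun _ _ _ => True) ∨ Agree n P (fun _ _ _ => False)) := by
  constructor
  · rintro ⟨h1, h2⟩
    by_cases hn : 2 ≤ n
    · rcases both_interval h1 h2 (a := 0) (by omega) le_rfl with h | h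
      · left
        intro x y z h3 h4 h5
        simp only [iff_true]
        rcases both_interval h1 h2 (a := 0) (b := z) (by omega) h5 with h' | h'
        · exact h' x y z (Nat.zero_le _) h3 h4 le_rfl (Or.inr rfl)
        · exact absurd (h 0 y z le_rfl (by omega) h4 h5 (Or.inl rfl))
            (h' 0 y z le_rfl (by omega) h4 le_rfl (Or.inl rfl))
      · right
        intro x y z h3 h4 h5
        simp only [iff_false]
        rcases both_interval h1 h2 (a := 0) (b := z) (by omega) h5 with h' | h'
        · exact absurd (h' 0 y z le_rfl (by omega) h4 le_rfl (Or.inl rfl))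
            (h 0 y z le_rfl (by omega) h4 h5 (Or.inl rfl))
        · exact h' x y z (Nat.zero_le _) h3 h4 le_rfl (Or.inr rfl)
    · left
      intro x y z h3 h4 h5
      omega
  · rintro (h | h)
    · constructor
      · intro a b hab hb
        refine ⟨b - 1, by omega, by omega, fun x y z h1 h2 h3 h4 => ⟨fun _ _ => ?_, ?_⟩⟩
        · exact (h x y z h2 h3 (by omega)).2 trivial
        · intro h5 h6; omega
      · intro a b hab hb
        refine ⟨a, by omega, by omega, fun x y z h1 h2 h3 h4 => ⟨?_, fun _ _ => ?_⟩⟩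
        · intro h5 h6; omega
        · rw [not_not]; exact (h x y z h2 h3 (by omega)).2 trivial
    · constructor
      · intro a b hab hb
        refine ⟨a, by omega, by omega, fun x y z h1 h2 h3 h4 => ⟨?_, fun _ _ => ?_⟩⟩
        · intro h5 h6; omega
        · exact fun h5 => (h x y z h2 h3 (by omega)).1 h5
      · intro a b hab hb
        refine ⟨b - 1, by omega, by omega, fun x y z h1 h2 h3 h4 => ⟨fun _ _ => ?_, ?_⟩⟩
        · exact fun h5 => (h x y z h2 h3 (by omega)).1 h5
        · intro h5 h6; omega

/-- There are exactly two classes with both conditions for `n ≥ 2`. -/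
theorem ncard_both : Set.ncard {c : CommClass n |
    ∃ w : {w : List (Fin n) // IsW0 w}, Quot.mk _ w = c ∧ (SplitRight w.1 ∧ SplitLeft w.1)} =
      if n ≤ 1 then 1 else 2 := by
  have hcard : (if n ≤ 1 then 1 else 2) =
      (if n ≤ 1 then ({true} : Finset Bool) else {true, false}).card := by
    split_ifs <;> rfl
  rw [hcard]
  apply ncard_classes _ (fun (t : Bool) _ _ _ => t = true)
    (P := fun w => SplitRight w ∧ SplitLeft w)
  · intro t _
    apply exists_isW0
    cases t
    · exact (split_both_iff.2 (Or.inr fun x y z _ _ _ => by simp)).1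
    · exact (split_both_iff.2 (Or.inl fun x y z _ _ _ => by simp)).1
  · intro t ht t' ht' hag
    by_cases hn : n ≤ 1
    · rw [if_pos hn, Finset.mem_singleton] at ht ht'
      rw [ht, ht']
    · have := hag 0 1 2 (by omega) (by omega) (by omega)
      cases t <;> cases t' <;> simp_all
  · intro w hw
    rw [splitRight_iff, splitLeft_iff, split_both_iff]
    by_cases hn : n ≤ 1
    · rw [if_pos hn]
      constructor
      · intro _
        exact ⟨true, by simp, fun x y z _ _ _ => by omega⟩
      · intro _
        exact Or.inl fun x y z _ _ _ => by omega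
    · rw [if_neg hn]
      constructor
      · rintro (h | h)
        · exact ⟨true, by simp, fun x y z h1 h2 h3 => by simpa using h x y z h1 h2 h3⟩
        · exact ⟨false, by simp, fun x y z h1 h2 h3 => by simpa using h x y z h1 h2 h3⟩
      · rintro ⟨t, _, h⟩
        cases t
        · exact Or.inr fun x y z h1 h2 h3 => by simpa using h x y z h1 h2 h3
        · exact Or.inl fun x y z h1 h2 h3 => by simpa using h x y z h1 h2 h3

end Pool.Agent.Helper24.QTangent
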