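import Pool.Agent.Helper24.QTangent.LeftT
import Pool.Agent.Helper24.QTangent.Trees

/-!
# Transport to an arbitrary model of `U_q(sl_{n+1})`
-/

namespace Pool.Agent.Helper24.QTangent

open scoped TensorProduct

section General

variable {U U' : Type} [Ring U] [Algebra ℂ U] [Ring U'] [Algebra ℂ U']

theorem withOne_map (e : U →ₐ[ℂ] U') (S : Submodule ℂ U) :
    withOne (S.map e.toLinearMap) = (withOne S).map e.toLinearMap := by
  unfold withOne
  rw [Submodule.map_sup, Submodule.map_span, Set.image_singleton]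
  simp

theorem RightTangent.map (e : U →ₐ[ℂ] U') {Δ : U →ₐ[ℂ] U ⊗[ℂ] U} {Δ' : U' →ₐ[ℂ] U' ⊗[ℂ] U'}
    {ε : U →ₐ[ℂ] ℂ} {ε' : U' →ₐ[ℂ] ℂ}
    (hΔ : ∀ x, Δ' (e x) = Algebra.TensorProduct.map e e (Δ x)) (hε : ∀ x, ε' (e x) = ε x)
    {S : Submodule ℂ U} (h : RightTangent Δ ε S) :
    RightTangent Δ' ε' (S.map e.toLinearMap) := by
  constructor
  · rintro x ⟨y, hy, rfl⟩
    exact (hε y).trans (h.1 y hy)
  · intro x hx
    rw [withOne_map] at hx ⊢
    obtain ⟨y, hy, rfl⟩ := hx
    have h1 := h.2 y hy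
    change Δ' (e y) ∈ _
    rw [hΔ]
    generalize Δ y = t at h1
    induction h1 using Submodule.span_induction with
    | mem t ht =>
      obtain ⟨a, ha, b, rfl⟩ := ht
      rw [Algebra.TensorProduct.map_tmul]
      exact Submodule.subset_span ⟨_, ⟨a, ha, rfl⟩, _, rfl⟩
    | zero => rw [map_zero]; exact Submodule.zero_mem _
    | add s t _ _ hs ht => rw [map_add]; exact Submodule.add_mem _ hs ht
    | smul c t _ ht => rw [map_smul]; exact Submodule.smul_mem _ _ ht

theorem LeftTangent.map (e : U →ₐ[ℂ] U') {Δ : U →ₐ[ℂ] U ⊗[ℂ] U} {Δ' : U' →ₐ[ℂ] U' ⊗[ℂ] U'}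
    {ε : U →ₐ[ℂ] ℂ} {ε' : U' →ₐ[ℂ] ℂ}
    (hΔ : ∀ x, Δ' (e x) = Algebra.TensorProduct.map e e (Δ x)) (hε : ∀ x, ε' (e x) = ε x)
    {S : Submodule ℂ U} (h : LeftTangent Δ ε S) :
    LeftTangent Δ' ε' (S.map e.toLinearMap) := by
  constructor
  · rintro x ⟨y, hy, rfl⟩
    exact (hε y).trans (h.1 y hy)
  · intro x hx
    rw [withOne_map] at hx ⊢
    obtain ⟨y, hy, rfl⟩ := hx
    have h1 := h.2 y hy
    change Δ' (e y) ∈ _
    rw [hΔ]
    generalize Δ y = t at h1
    induction h1 using Submodule.span_induction with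
    | mem t ht =>
      obtain ⟨a, b, hb, rfl⟩ := ht
      rw [Algebra.TensorProduct.map_tmul]
      exact Submodule.subset_span ⟨_, _, ⟨b, hb, rfl⟩, rfl⟩
    | zero => rw [map_zero]; exact Submodule.zero_mem _
    | add s t _ _ hs ht => rw [map_add]; exact Submodule.add_mem _ hs ht
    | smul c t _ ht => rw [map_smul]; exact Submodule.smul_mem _ _ ht

variable {n : ℕ}

theorem rootVector_map (e : U →ₐ[ℂ] U') {E : Fin n → U} {E' : Fin n → U'}
    {T : Fin n → U →ₐ[ℂ] U} {T' : Fin n → U' →ₐ[ℂ] U'} (hE : ∀ i, e (E i) = E' i)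
    (hT : ∀ i x, T' i (e x) = e (T i x)) (u : List (Fin n)) (i : Fin n) :
    rootVector E' T' u i = e (rootVector E T u i) := by
  unfold rootVector
  induction u with
  | nil => exact (hE i).symm
  | cons j u ih => rw [List.foldr_cons, List.foldr_cons, ih, hT]

theorem rootInv_map (e : U →ₐ[ℂ] U') {L : Fin n → U} {L' : Fin n → U'}
    (hL : ∀ i, e (L i) = L' i) (a b : ℕ) : rootInv L' a b = e (rootInv L a b) := by
  unfold rootInv
  rw [map_list_prod, List.map_map]
  congr 1
  apply List.map_congr_left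
  intro j _
  simp only [Function.comp_apply]
  split_ifs
  · exact (hL _).symm
  · exact (map_one e).symm

theorem posPart_map (e : U →ₐ[ℂ] U') {E : Fin n → U} {E' : Fin n → U'}
    {T : Fin n → U →ₐ[ℂ] U} {T' : Fin n → U' →ₐ[ℂ] U'} (hE : ∀ i, e (E i) = E' i)
    (hT : ∀ i x, T' i (e x) = e (T i x)) (w : List (Fin n)) :
    posPart E' T' w = (posPart E T w).map e.toLinearMap := by
  unfold posPart
  rw [Submodule.map_span]
  congr 1
  ext x
  constructor
  · rintro ⟨u, i, v, hw, rfl⟩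
    exact ⟨_, ⟨u, i, v, hw, rfl⟩, (rootVector_map e hE hT u i).symm⟩
  · rintro ⟨y, ⟨u, i, v, hw, rfl⟩, rfl⟩
    exact ⟨u, i, v, hw, (rootVector_map e hE hT u i).symm⟩

theorem posPartK_map (e : U →ₐ[ℂ] U') {E L : Fin n → U} {E' L' : Fin n → U'}
    {T : Fin n → U →ₐ[ℂ] U} {T' : Fin n → U' →ₐ[ℂ] U'} (hE : ∀ i, e (E i) = E' i)
    (hL : ∀ i, e (L i) = L' i)
    (hT : ∀ i x, T' i (e x) = e (T i x)) (w : List (Fin n)) :
    posPartK E' L' T' w = (posPartK E L T w).map e.toLinearMap := by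
  unfold posPartK
  rw [Submodule.map_span]
  congr 1
  ext x
  constructor
  · rintro ⟨u, i, v, hw, rfl⟩
    refine ⟨_, ⟨u, i, v, hw, rfl⟩, ?_⟩
    rw [rootVector_map e hE hT u i, rootInv_map e hL]
    exact map_mul e _ _
  · rintro ⟨y, ⟨u, i, v, hw, rfl⟩, rfl⟩
    refine ⟨u, i, v, hw, ?_⟩
    rw [rootVector_map e hE hT u i, rootInv_map e hL]
    exact map_mul e _ _

end General

variable {n : ℕ} {q : ℂ}

/-- The data of a homomorphism out of `U n q` from the relations. -/
noncomputable def UqRelations.data {A : Type} [Ring A] [Algebra ℂ A] {E F K L : Fin n → A}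
    (h : UqRelations q E F K L) : LiftData n q A where
  e := E
  f := F
  k := K
  l := L
  kl := h.kl
  lk := h.lk
  kk := h.kk
  ke := h.ke
  kf := h.kf
  ef := h.ef
  efne := h.efne
  ee := h.ee
  ff := h.ff
  se := h.se
  sf := h.sf

theorem relations_U : UqRelations q (E n q) (F n q) (K n q) (L n q) where
  kl := K_mul_L
  lk := L_mul_K
  kk := K_mul_K
  ke := K_mul_E
  kf := K_mul_F
  ef := EF_comm
  efne := EF_ne
  ee := EE_comm
  ff := FF_comm
  se := serreE
  sf := serreF

theorem isUq_U : IsUq q (E n q) (F n q) (K n q) (L n q) := by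
  refine ⟨relations_U, fun A _ _ e f k l h => ⟨h.data.lift, ?_, ?_⟩⟩
  · intro i
    exact ⟨h.data.lift_E i, h.data.lift_F i, h.data.lift_K i, h.data.lift_L i⟩
  · intro φ hφ
    apply hom_ext
    · intro i; rw [(hφ i).1, h.data.lift_E]; rfl
    · intro i; rw [(hφ i).2.1, h.data.lift_F]; rfl
    · intro i; rw [(hφ i).2.2.1, h.data.lift_K]; rfl
    · intro i; rw [(hφ i).2.2.2, h.data.lift_L]; rfl

section

variable (hq : q ≠ 0) (hq2 : q ^ 2 ≠ 1) (hq4 : q ^ 2 + 1 ≠ 0)

theorem isComul_U : IsComul (E n q) (F n q) (K n q) (L n q) (comul n q hq) := fun i =>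
  ⟨comul_E hq i, comul_F hq i, comul_K hq i⟩

theorem isCounit_U : IsCounit (E n q) (F n q) (K n q) (counit n q) := fun i => by
  refine ⟨?_, ?_, ?_⟩
  · simp [counit, counitData]
  · simp [counit, counitData]
  · simp [counit, counitData]

theorem isLusztig_U :
    IsLusztig q (E n q) (F n q) (K n q) (L n q) (lusztigT n q hq hq2 hq4) := by
  intro i j
  have hE : lusztigT n q hq hq2 hq4 i (E n q j) = tE i j := by simp [lusztigT, lusztigData]
  have hF : lusztigT n q hq hq2 hq4 i (F n q j) = tF i j := by simp [lusztigT, lusztigData]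
  have hK : lusztigT n q hq hq2 hq4 i (K n q j) = tK i j := by simp [lusztigT, lusztigData]
  rw [hE, hF, hK]
  refine ⟨?_, ?_, ?_⟩
  · rintro rfl
    exact ⟨tE_self j, tF_self j, tK_self j⟩
  · intro h
    exact ⟨tE_adj h, by rw [tF, if_neg (ne_of_cartan h), if_pos h], tK_adj h⟩
  · intro h
    exact ⟨tE_far h, tF_far h, tK_far h⟩

theorem rootVector_eq (u : List (Fin n)) (i : Fin n) :
    rootVector (E n q) (lusztigT n q hq hq2 hq4) u i =
      (u.map (lusztigT n q hq hq2 hq4)).prod (E n q i) := by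
  unfold rootVector
  induction u with
  | nil => rfl
  | cons j u ih => rw [List.foldr_cons, ih, List.map_cons, List.prod_cons]; rfl

theorem posPart_eq (w : List (Fin n)) :
    posPart (E n q) (lusztigT n q hq hq2 hq4) w = nPlus n q hq hq2 hq4 w := by
  unfold posPart nPlus
  simp only [rootVector_eq]

theorem posPartK_eq (w : List (Fin n)) :
    posPartK (E n q) (L n q) (lusztigT n q hq hq2 hq4) w = nPlusK n q hq hq2 hq4 w := by
  unfold posPartK nPlusK
  simp only [rootVector_eq]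
  rfl

theorem main_U {w : List (Fin n)} (hw : IsW0 w) :
    (RightTangent (comul n q hq) (counit n q)
      (posPart (E n q) (lusztigT n q hq hq2 hq4) w) ↔ SplitRight w) ∧
    (0 < n → ¬ LeftTangent (comul n q hq) (counit n q)
      (posPart (E n q) (lusztigT n q hq hq2 hq4) w)) ∧
    (LeftTangent (comul n q hq) (counit n q)
      (posPartK (E n q) (L n q) (lusztigT n q hq hq2 hq4) w) ↔ SplitLeft w) := by
  rw [posPart_eq, posPartK_eq]
  refine ⟨?_, ?_, ?_⟩
  · refine Iff.trans (?_ : _ ↔ IsRightTangent hq (nPlus n q hq hq2 hq4 w)) ?_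
    · rfl
    · rw [nPlus_rightTangent_iff hq hq2 hq4 hw]
      unfold RC SplitRight
      simp only [chi_eq_true, chi_eq_false]
  · intro hn
    have := not_leftTangent_tsp (q := q) hq hn (chi w) hq2
    rw [← nPlus_eq_tsp hq hq2 hq4 hw] at this
    exact this
  · refine Iff.trans (?_ : _ ↔ IsLeftTangent hq (nPlusK n q hq hq2 hq4 w)) ?_
    · rfl
    · rw [nPlusK_leftTangent_iff hq hq2 hq4 hw]
      unfold RC SplitLeft flipS
      simp only [Bool.not_eq_true', Bool.not_eq_false', chi_eq_true, chi_eq_false]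

end

section Model

variable {U' : Type} [Ring U'] [Algebra ℂ U'] {E' F' K' L' : Fin n → U'}

/-- Inverses are unique. -/
theorem inv_unique {A : Type} [Ring A] {k l l' : A} (h1 : k * l = 1) (h2 : l' * k = 1) :
    l = l' := by
  calc l = l' * k * l := by rw [h2, one_mul]
    _ = l' := by rw [mul_assoc, h1, mul_one]

/-- The classification for an arbitrary model of `U_q(sl_{n+1})`. -/
theorem main_model (hq : q ≠ 0) (hq2 : q ^ 2 ≠ 1) (hq4 : q ^ 2 + 1 ≠ 0)
    (hU : IsUq q E' F' K' L') {Δ : U' →ₐ[ℂ] U' ⊗[ℂ] U'} (hΔ : IsComul E' F' K' L' Δ)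
    {ε : U' →ₐ[ℂ] ℂ} (hε : IsCounit E' F' K' ε) {T : Fin n → U' →ₐ[ℂ] U'}
    (hT : IsLusztig q E' F' K' L' T) {w : List (Fin n)} (hw : IsW0 w) :
    (RightTangent Δ ε (posPart E' T w) ↔ SplitRight w) ∧
    (0 < n → ¬ LeftTangent Δ ε (posPart E' T w)) ∧
    (LeftTangent Δ ε (posPartK E' L' T w) ↔ SplitLeft w) := by
  -- the isomorphism with the concrete model
  let φ : U n q →ₐ[ℂ] U' := hU.1.data.lift
  have φE : ∀ i, φ (E n q i) = E' i := fun i => hU.1.data.lift_E i
  have φF : ∀ i, φ (F n q i) = F' i := fun i => hU.1.data.lift_F i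
  have φK : ∀ i, φ (K n q i) = K' i := fun i => hU.1.data.lift_K i
  have φL : ∀ i, φ (L n q i) = L' i := fun i => hU.1.data.lift_L i
  obtain ⟨ψ, hψ, _⟩ := hU.2 (U n q) (E n q) (F n q) (K n q) (L n q) relations_U
  have ψφ : ∀ x, ψ (φ x) = x := by
    intro x
    have h : ψ.comp φ = AlgHom.id ℂ (U n q) := by
      apply hom_ext
      · intro i; rw [AlgHom.comp_apply, φE, (hψ i).1]; rfl
      · intro i; rw [AlgHom.comp_apply, φF, (hψ i).2.1]; rfl
      · intro i; rw [AlgHom.comp_apply, φK, (hψ i).2.2.1]; rfl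
      · intro i; rw [AlgHom.comp_apply, φL, (hψ i).2.2.2]; rfl
    exact DFunLike.congr_fun h x
  have φψ : ∀ x, φ (ψ x) = x := by
    intro x
    obtain ⟨θ, _, hθ⟩ := hU.2 U' E' F' K' L' hU.1
    have h1 : φ.comp ψ = θ := by
      apply hθ
      intro i
      simp only [AlgHom.comp_apply]
      rw [(hψ i).1, (hψ i).2.1, (hψ i).2.2.1, (hψ i).2.2.2, φE, φF, φK, φL]
      exact ⟨rfl, rfl, rfl, rfl⟩
    have h2 : AlgHom.id ℂ U' = θ := by
      apply hθ
      intro i
      exact ⟨rfl, rfl, rfl, rfl⟩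
    have h3 : φ.comp ψ = AlgHom.id ℂ U' := h1.trans h2.symm
    exact DFunLike.congr_fun h3 x
  -- values on the inverses
  have hΔL : ∀ i, Δ (L' i) = L' i ⊗ₜ L' i := by
    intro i
    apply inv_unique (k := Δ (K' i))
    · rw [← map_mul, hU.1.kl, map_one]
    · rw [(hΔ i).2.2, Algebra.TensorProduct.tmul_mul_tmul, hU.1.lk, Algebra.TensorProduct.one_def]
  have hεL : ∀ i, ε (L' i) = 1 := by
    intro i
    have h1 : ε (K' i) * ε (L' i) = 1 := by rw [← map_mul, hU.1.kl, map_one]
    rwa [(hε i).2.2, one_mul] at h1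
  -- the structure maps correspond
  have hΔφ : ∀ x, Δ (φ x) = Algebra.TensorProduct.map φ φ (comul n q hq x) := by
    intro x
    have h : Δ.comp φ = (Algebra.TensorProduct.map φ φ).comp (comul n q hq) := by
      apply hom_ext
      · intro i
        simp only [AlgHom.comp_apply]
        rw [φE, (hΔ i).1, comul_E, map_add, Algebra.TensorProduct.map_tmul,
          Algebra.TensorProduct.map_tmul, map_one, φE, φK]
      · intro i
        simp only [AlgHom.comp_apply]
        rw [φF, (hΔ i).2.1, comul_F, map_add, Algebra.TensorProduct.map_tmul,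
          Algebra.TensorProduct.map_tmul, map_one, φF, φL]
      · intro i
        simp only [AlgHom.comp_apply]
        rw [φK, (hΔ i).2.2, comul_K, Algebra.TensorProduct.map_tmul, φK]
      · intro i
        simp only [AlgHom.comp_apply]
        rw [φL, hΔL, comul_L, Algebra.TensorProduct.map_tmul, φL]
    exact DFunLike.congr_fun h x
  have hεφ : ∀ x, ε (φ x) = counit n q x := by
    intro x
    have h : ε.comp φ = counit n q := by
      apply hom_ext
      · intro i
        rw [AlgHom.comp_apply, φE, (hε i).1]; simp [counit, counitData]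
      · intro i
        rw [AlgHom.comp_apply, φF, (hε i).2.1]; simp [counit, counitData]
      · intro i
        rw [AlgHom.comp_apply, φK, (hε i).2.2]; simp [counit, counitData]
      · intro i
        rw [AlgHom.comp_apply, φL, hεL]; simp [counit, counitData]
    exact DFunLike.congr_fun h x
  have hΔψ : ∀ x, comul n q hq (ψ x) = Algebra.TensorProduct.map ψ ψ (Δ x) := by
    intro x
    have h1 := hΔφ (ψ x)
    rw [φψ] at h1
    rw [h1]
    have h2 : (Algebra.TensorProduct.map ψ ψ).comp (Algebra.TensorProduct.map φ φ) =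
        AlgHom.id ℂ (U n q ⊗[ℂ] U n q) := by
      rw [← Algebra.TensorProduct.map_comp]
      have h3 : ψ.comp φ = AlgHom.id ℂ (U n q) := AlgHom.ext ψφ
      rw [h3, Algebra.TensorProduct.map_id]
    exact (DFunLike.congr_fun h2 _).symm
  have hεψ : ∀ x, counit n q (ψ x) = ε x := by
    intro x
    have h1 := hεφ (ψ x)
    rw [φψ] at h1; exact h1.symm
  have hLus := isLusztig_U (n := n) (q := q) hq hq2 hq4
  have hTφ : ∀ i x, T i (φ x) = φ (lusztigT n q hq hq2 hq4 i x) := by
    intro i x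
    have hKφ : ∀ j, T i (K' j) = φ (lusztigT n q hq hq2 hq4 i (K n q j)) := by
      intro j
      rcases cartan_cases i j with h | ⟨_, h⟩ | ⟨_, h⟩
      · rw [((hT i j).1 h).2.2, ((hLus i j).1 h).2.2, φL]
      · rw [((hT i j).2.1 h).2.2, ((hLus i j).2.1 h).2.2, map_mul, φK, φK]
      · rw [((hT i j).2.2 h).2.2, ((hLus i j).2.2 h).2.2, φK]
    have h : (T i).comp φ = φ.comp (lusztigT n q hq hq2 hq4 i) := by
      apply hom_ext
      · intro j
        rw [AlgHom.comp_apply, AlgHom.comp_apply, φE]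
        rcases cartan_cases i j with h | ⟨_, h⟩ | ⟨_, h⟩
        · rw [((hT i j).1 h).1, ((hLus i j).1 h).1, map_neg, map_mul, φF, φK]
        · rw [((hT i j).2.1 h).1, ((hLus i j).2.1 h).1, map_neg, map_sub, map_smul, map_mul,
            map_mul, φE, φE]
        · rw [((hT i j).2.2 h).1, ((hLus i j).2.2 h).1, φE]
      · intro j
        rw [AlgHom.comp_apply, AlgHom.comp_apply, φF]
        rcases cartan_cases i j with h | ⟨_, h⟩ | ⟨_, h⟩
        · rw [((hT i j).1 h).2.1, ((hLus i j).1 h).2.1, map_neg, map_mul, φL, φE]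
        · rw [((hT i j).2.1 h).2.1, ((hLus i j).2.1 h).2.1, map_neg, map_sub, map_smul, map_mul,
            map_mul, φF, φF]
        · rw [((hT i j).2.2 h).2.1, ((hLus i j).2.2 h).2.1, φF]
      · intro j
        rw [AlgHom.comp_apply, AlgHom.comp_apply, φK, hKφ]
      · intro j
        rw [AlgHom.comp_apply, AlgHom.comp_apply, φL]
        apply inv_unique (k := T i (K' j))
        · rw [← map_mul, hU.1.kl, map_one]
        · rw [hKφ, ← map_mul, ← map_mul, L_mul_K, map_one, map_one]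
    exact DFunLike.congr_fun h x
  have hTψ : ∀ i x, lusztigT n q hq hq2 hq4 i (ψ x) = ψ (T i x) := by
    intro i x
    have h1 := hTφ i (ψ x)
    rw [φψ] at h1
    rw [h1, ψφ]
  have ψE : ∀ i, ψ (E' i) = E n q i := fun i => (hψ i).1
  have ψL : ∀ i, ψ (L' i) = L n q i := fun i => (hψ i).2.2.2
  -- transport
  obtain ⟨h1, h2, h3⟩ := main_U (q := q) hq hq2 hq4 hw
  have e1 : posPart E' T w =
      (posPart (E n q) (lusztigT n q hq hq2 hq4) w).map φ.toLinearMap :=
    posPart_map φ φE hTφ w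
  have e2 : posPart (E n q) (lusztigT n q hq hq2 hq4) w =
      (posPart E' T w).map ψ.toLinearMap := posPart_map ψ ψE hTψ w
  have e3 : posPartK E' L' T w =
      (posPartK (E n q) (L n q) (lusztigT n q hq hq2 hq4) w).map φ.toLinearMap :=
    posPartK_map φ φE φL hTφ w
  have e4 : posPartK (E n q) (L n q) (lusztigT n q hq hq2 hq4) w =
      (posPartK E' L' T w).map ψ.toLinearMap := posPartK_map ψ ψE ψL hTψ w
  refine ⟨?_, ?_, ?_⟩
  · rw [← h1]
    constructor
    · intro h
      rw [e2]; exact h.map ψ hΔψ hεψ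
    · intro h
      rw [e1]; exact h.map φ hΔφ hεφ
  · intro hn h
    apply h2 hn
    rw [e2]; exact h.map ψ hΔψ hεψ
  · rw [← h3]
    constructor
    · intro h
      rw [e4]; exact h.map ψ hΔψ hεψ
    · intro h
      rw [e3]; exact h.map φ hΔφ hεφ

end Model

end Pool.Agent.Helper24.QTangent
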