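import Pool.Agent.Helper24.QTangent.Suff

/-!
# The spaces attached to reduced words
-/

namespace Pool.Agent.Helper24.QTangent

open scoped TensorProduct

variable {n : ℕ} {q : ℂ}

/-- `n⁺_w`: the span of Lusztig's positive root vectors of the word `w`. -/
noncomputable def nPlus (n : ℕ) (q : ℂ) (hq : q ≠ 0) (hq2 : q ^ 2 ≠ 1) (hq4 : q ^ 2 + 1 ≠ 0)
    (w : List (Fin n)) : Submodule ℂ (U n q) :=
  Submodule.span ℂ {x | ∃ (u : List (Fin n)) (i : Fin n) (v : List (Fin n)), w = u ++ i :: v ∧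
    x = (u.map (lusztigT n q hq hq2 hq4)).prod (E n q i)}

/-- The sign assignment of a word. -/
noncomputable def chi (w : List (Fin n)) (x y z : ℕ) : Bool :=
  letI := Classical.dec (Pos w x y z); decide (Pos w x y z)

theorem chi_eq_true {w : List (Fin n)} {x y z : ℕ} : chi w x y z = true ↔ Pos w x y z := by
  unfold chi; simp

theorem chi_eq_false {w : List (Fin n)} {x y z : ℕ} : chi w x y z = false ↔ ¬ Pos w x y z := by
  unfold chi; simp

theorem sgn_eq_chi {u v : List (Fin n)} {i : Fin n} (h : Red (u ++ i :: v)) {c : ℕ}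
    (hac : pm u (i : ℕ) < c) (hcb : c < pm u ((i : ℕ) + 1)) :
    sgn u i c = chi (u ++ i :: v) (pm u i) c (pm u ((i : ℕ) + 1)) := by
  have ha : (pm u)⁻¹ (pm u (i : ℕ)) = i := by simp
  have hb : (pm u)⁻¹ (pm u ((i : ℕ) + 1)) = i + 1 := by simp
  have hinj : ∀ x y, (pm u)⁻¹ x = (pm u)⁻¹ y → x = y := fun x y h => (pm u)⁻¹.injective h
  unfold sgn
  by_cases hc : (pm u)⁻¹ c < i
  · rw [decide_eq_true hc]
    symm
    rw [chi_eq_true]
    refine ⟨u, ⟨i :: v, rfl⟩, ?_, ?_⟩
    · unfold Crossed; omega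
    · unfold Crossed; omega
  · rw [decide_eq_false hc]
    symm
    rw [chi_eq_false]
    rintro ⟨u', hu', h1, h2⟩
    have h3 : (pm u)⁻¹ c ≠ i := fun e => by
      have := hinj _ _ (e.trans ha.symm); omega
    have h4 : (pm u)⁻¹ c ≠ i + 1 := fun e => by
      have := hinj _ _ (e.trans hb.symm); omega
    have hu : u <+: u ++ i :: v := ⟨i :: v, rfl⟩
    rcases List.prefix_or_prefix_of_prefix hu' hu with ⟨t, rfl⟩ | ⟨t, rfl⟩
    · have h5 : Crossed (u' ++ t) (pm (u' ++ t) (i : ℕ)) c :=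
        h1.mono (Red.left (u := u' ++ t) (v := i :: v) h) hac
      unfold Crossed at h5; omega
    · have h5 : Crossed u c (pm u ((i : ℕ) + 1)) := by unfold Crossed; omega
      have h6 : Red (u ++ t) := by
        obtain ⟨s, hs⟩ := hu'
        rw [← hs] at h
        exact h.left
      exact h2 (h5.mono h6 hcb)

section

variable (hq : q ≠ 0) (hq2 : q ^ 2 ≠ 1) (hq4 : q ^ 2 + 1 ≠ 0)

theorem rootVec_eq_rb {u v : List (Fin n)} {i : Fin n} (h : Red (u ++ i :: v)) :
    ∃ c : ℂ, (c = 1 ∨ c = -1) ∧ (u.map (lusztigT n q hq hq2 hq4)).prod (E n q i) =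
      c • rb n q (fun c => chi (u ++ i :: v) (pm u i) c (pm u ((i : ℕ) + 1)))
        (pm u i) (pm u ((i : ℕ) + 1)) := by
  have h1 : Red (u ++ [i]) := by
    have : u ++ i :: v = (u ++ [i]) ++ v := by simp
    rw [this] at h; exact h.left
  obtain ⟨c, hc, hc'⟩ := rootVec_eq_rib hq hq2 hq4 u i h1
  refine ⟨c, hc, ?_⟩
  unfold rootVec at hc'
  rw [hc']
  congr 1
  change rb n q (sgn u i) _ _ = _
  exact rb_congr fun c h1 h2 => sgn_eq_chi h h1 h2

theorem nPlus_eq_tsp {w : List (Fin n)} (hw : IsW0 w) :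
    nPlus n q hq hq2 hq4 w = tsp n q (chi w) := by
  apply le_antisymm
  · unfold nPlus
    rw [Submodule.span_le]
    rintro x ⟨u, i, v, rfl, rfl⟩
    obtain ⟨c, _, hc⟩ := rootVec_eq_rb (q := q) hq hq2 hq4 hw.red
    rw [hc]
    apply Submodule.smul_mem
    apply rb_mem_tsp (χ := chi (u ++ i :: v)) (hw.red u i v rfl)
    exact pm_le u (by omega)
  · unfold tsp
    rw [Submodule.span_le]
    rintro x ⟨a, b, hab, hb, rfl⟩
    obtain ⟨u, i, v, hw', h1, h2⟩ := (crossed_iff_root hw.red hab).1 (hw.crossed hab hb)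
    subst hw'
    obtain ⟨c, hc0, hc⟩ := rootVec_eq_rb (q := q) hq hq2 hq4 hw.red
    rw [h1, h2] at hc
    have h3 : rb n q (fun c => chi (u ++ i :: v) a c b) a b =
        c • (u.map (lusztigT n q hq hq2 hq4)).prod (E n q i) := by
      rw [hc, smul_smul]
      rcases hc0 with rfl | rfl <;> simp
    rw [h3]
    exact Submodule.smul_mem _ _ (Submodule.subset_span ⟨u, i, v, rfl, rfl⟩)

/-- **Right tangent spaces.** -/
theorem nPlus_rightTangent_iff {w : List (Fin n)} (hw : IsW0 w) :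
    IsRightTangent hq (nPlus n q hq hq2 hq4 w) ↔ RC n (chi w) := by
  rw [nPlus_eq_tsp hq hq2 hq4 hw, rightTangent_iff hq hq2]

/-- The literal left condition never holds. -/
theorem not_leftTangent_tsp (hn : 0 < n) (χ : ℕ → ℕ → ℕ → Bool) (hq2 : q ^ 2 ≠ 1) :
    ¬ IsLeftTangent hq (tsp n q χ) := by
  intro h
  have h0 : Es n q 0 ∈ addOne (tsp n q χ) := by
    have := le_addOne _ (rb_mem_tsp (n := n) (q := q) (χ := χ) (a := 0) (b := 1)
      (by omega) (by omega))
    rwa [rb_simple] at this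
  have h1 := h.2 _ h0
  -- the functional on the left leg
  let φ : U n q →ₗ[ℂ] ℂ :=
    { toFun := fun x => rho n q hq hq2 x ⟨0, by omega⟩ ⟨1, by omega⟩
      map_add' := fun x y => by rw [map_add, Matrix.add_apply]
      map_smul' := fun c x => by rw [map_smul, Matrix.smul_apply]; rfl }
  let ψ : U n q ⊗[ℂ] U n q →ₗ[ℂ] U n q :=
    (TensorProduct.lid ℂ (U n q)).toLinearMap ∘ₗ TensorProduct.map φ LinearMap.id
  have hψ : ∀ x y, ψ (x ⊗ₜ y) = φ x • y := fun x y => by simp [ψ]
  have h2 : ψ (comul n q hq (Es n q 0)) ∈ addOne (tsp n q χ) := by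
    generalize comul n q hq (Es n q 0) = w at h1
    induction h1 using Submodule.span_induction with
    | mem t ht =>
      obtain ⟨y, z, hz, rfl⟩ := ht
      rw [hψ]; exact Submodule.smul_mem _ _ hz
    | zero => rw [map_zero]; exact Submodule.zero_mem _
    | add s t _ _ hs ht => rw [map_add]; exact Submodule.add_mem _ hs ht
    | smul c t _ ht => rw [map_smul]; exact Submodule.smul_mem _ _ ht
  have h3 : φ (Es n q 0) = 1 := by
    change rho n q hq hq2 (Es n q 0) ⟨0, by omega⟩ ⟨1, by omega⟩ = 1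
    rw [rho_Es hq hq2 hn, Matrix.single_apply_same]
  have h4 : φ 1 = 0 := by
    change rho n q hq hq2 1 ⟨0, by omega⟩ ⟨1, by omega⟩ = 0
    rw [map_one, Matrix.one_apply_ne]
    intro e
    have := congrArg Fin.val e
    simp at this
  rw [comul_Es hq hn, map_add, hψ, hψ, h3, h4, one_smul, zero_smul, add_zero] at h2
  -- the diagonal of `ρ` on `T ⊕ ℂ1` is constant
  have h5 : ∀ x ∈ addOne (tsp n q χ), rho n q hq hq2 x ⟨0, by omega⟩ ⟨0, by omega⟩ =
      rho n q hq hq2 x ⟨1, by omega⟩ ⟨1, by omega⟩ := by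
    intro x hx
    unfold addOne at hx
    obtain ⟨y, hy, z, hz, rfl⟩ := Submodule.mem_sup.mp hx
    obtain ⟨c, rfl⟩ := Submodule.mem_span_singleton.mp hz
    rw [map_add, map_smul, map_one, Matrix.add_apply, Matrix.add_apply, Matrix.smul_apply,
      Matrix.smul_apply, Matrix.one_apply_eq, Matrix.one_apply_eq]
    congr 1
    clear hx hz
    unfold tsp at hy
    induction hy using Submodule.span_induction with
    | mem t ht =>
      obtain ⟨a, b, hab, hb, rfl⟩ := ht
      obtain ⟨r, _, hr'⟩ := rho_rb hq hq2 (fun c => χ a c b) hab hb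
      rw [hr' ⟨a, by omega⟩ ⟨b, by omega⟩ rfl rfl, Matrix.smul_apply, Matrix.smul_apply,
        Matrix.single_apply_of_ne, Matrix.single_apply_of_ne]
      · rintro ⟨h5, h6⟩
        have := congrArg Fin.val (h5.trans h6.symm)
        simp at this; omega
      · rintro ⟨h5, h6⟩
        have := congrArg Fin.val (h5.trans h6.symm)
        simp at this; omega
    | zero => rw [map_zero]; rfl
    | add s t _ _ hs ht => rw [map_add, Matrix.add_apply, Matrix.add_apply, hs, ht]
    | smul c t _ ht => rw [map_smul, Matrix.smul_apply, Matrix.smul_apply, ht]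
  have h6 := h5 _ h2
  unfold rho at h6
  rw [LiftData.lift_K] at h6
  simp only [rhoData, Matrix.diagonal_apply_eq, fz] at h6
  norm_num at h6
  apply hq2
  rw [sq]
  nth_rewrite 1 [h6]
  exact inv_mul_cancel₀ hq

end

end Pool.Agent.Helper24.QTangent
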